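import Mathlib

set_option autoImplicit false

/-!
# Symmetric rendezvous on the circle: definitions

The circle `C = ℝ/ℤ`, pure and mixed strategies, the meeting time, the expected meeting times for
the directed circle (placements are uniformly random rotations) and for the undirected circle
(placements are uniformly random isometries), and the strategy CO-HA-TO.
-/

open MeasureTheory Set
open scoped ENNReal NNReal

namespace Pool.Agent.H996R2.Coha

/-- The circle `ℝ/ℤ` of circumference one; its `dist` is the arc-length metric. -/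
abbrev Circ : Type := AddCircle (1 : ℝ)

/-- Pure strategies: the maps `[0, ∞) → Circ` with Lipschitz constant one that start at `0`. -/
def Strat : Type := {s : ContinuousMap ℝ≥0 Circ // s 0 = 0 ∧ LipschitzWith 1 s}

/-- The compact-open topology. -/
instance : TopologicalSpace Strat := instTopologicalSpaceSubtype

/-- The Borel sigma-algebra. -/
instance : MeasurableSpace Strat := borel Strat

instance : BorelSpace Strat := ⟨rfl⟩

/-- The meeting time of two paths: the least time at which they are at the same point (`∞` if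
there is none). -/
noncomputable def meet (p q : ℝ≥0 → Circ) : ℝ≥0∞ := ⨅ (t : ℝ≥0) (_ : p t = q t), (t : ℝ≥0∞)

/-- Directed circle: expected meeting time of two pure strategies, the two players being placed by
independent uniformly random rotations `x ↦ a + x`. -/
noncomputable def T2 (s₁ s₂ : Strat) : ℝ≥0∞ :=
  ∫⁻ a₁, ∫⁻ a₂, meet (fun t => a₁ + s₁.1 t) (fun t => a₂ + s₂.1 t)
    ∂(AddCircle.haarAddCircle (T := 1)) ∂(AddCircle.haarAddCircle (T := 1))

/-- Undirected circle: expected meeting time of two pure strategies, the two players being placed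
by independent uniformly random isometries `x ↦ a + e x`, with `e` in `{1, -1}`. -/
noncomputable def T3 (s₁ s₂ : Strat) : ℝ≥0∞ :=
  (1 / 4) * ∑ e₁ : ℤˣ, ∑ e₂ : ℤˣ,
    ∫⁻ a₁, ∫⁻ a₂, meet (fun t => a₁ + e₁ • s₁.1 t) (fun t => a₂ + e₂ • s₂.1 t)
      ∂(AddCircle.haarAddCircle (T := 1)) ∂(AddCircle.haarAddCircle (T := 1))

/-- Directed circle: expected meeting time if both players independently use the mixed strategy
`μ`. -/
noncomputable def cost2 (μ : Measure Strat) : ℝ≥0∞ := ∫⁻ s₁, ∫⁻ s₂, T2 s₁ s₂ ∂μ ∂μ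

/-- Undirected circle: expected meeting time if both players independently use the mixed strategy
`μ`. -/
noncomputable def cost3 (μ : Measure Strat) : ℝ≥0∞ := ∫⁻ s₁, ∫⁻ s₂, T3 s₁ s₂ ∂μ ∂μ

/-- The symmetric rendezvous value of the directed circle. -/
noncomputable def value2 : ℝ≥0∞ := ⨅ (μ : Measure Strat) (_ : IsProbabilityMeasure μ), cost2 μ

/-- The symmetric rendezvous value of the undirected circle. -/
noncomputable def value3 : ℝ≥0∞ := ⨅ (μ : Measure Strat) (_ : IsProbabilityMeasure μ), cost3 μ

/-- Position at time `t` (on the real line, the universal cover of the circle) of a player who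
travels at speed one, on each time interval `[k h, (k + 1) h]`, in the positive direction if
`σ k` is `true` and in the negative direction otherwise. -/
noncomputable def walk (h : ℝ) (σ : ℕ → Bool) (t : ℝ≥0) : ℝ :=
  ∑ k ∈ Finset.range (⌊(t : ℝ) / h⌋₊ + 1), (if σ k then 1 else -1) * min ((t : ℝ) - k * h) h

/-! ### Basic facts on `walk` -/

noncomputable def clamp (h : ℝ) (k : ℕ) (t : ℝ) : ℝ := max 0 (min (t - k * h) h)

theorem clamp_sum {h : ℝ} (hh : 0 < h) {t : ℝ} (ht : 0 ≤ t) (n : ℕ) :
    ∑ k ∈ Finset.range n, clamp h k t = min t (n * h) := by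
  induction n with
  | zero => simp [ht]
  | succ n ih =>
    rw [Finset.sum_range_succ, ih, clamp]
    push_cast
    rcases le_total t (n * h) with h1 | h1
    · rw [min_eq_left h1, max_eq_left, min_eq_left (by nlinarith)]
      · ring
      · exact (min_le_left _ _).trans (by linarith)
    · rw [min_eq_right h1]
      rcases le_total t ((n + 1) * h) with h2 | h2
      · rw [min_eq_left h2, min_eq_left (by linarith), max_eq_right (by linarith)]
        ring
      · rw [min_eq_right h2, min_eq_right (by linarith), max_eq_right hh.le]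
        ring

theorem walk_eq {h : ℝ} (hh : 0 < h) (σ : ℕ → Bool) (t : ℝ≥0) (n : ℕ) (hn : (t : ℝ) ≤ n * h) :
    walk h σ t = ∑ k ∈ Finset.range n, (if σ k then 1 else -1) * clamp h k t := by
  have h0 : (0 : ℝ) ≤ t / h := div_nonneg t.2 hh.le
  have hfl : (⌊(t : ℝ) / h⌋₊ : ℝ) * h ≤ t := by
    have := Nat.floor_le h0
    calc (⌊(t : ℝ) / h⌋₊ : ℝ) * h ≤ ((t : ℝ) / h) * h := by gcongr
      _ = t := by field_simp
  have hfu : (t : ℝ) < (⌊(t : ℝ) / h⌋₊ + 1) * h := by
    have := Nat.lt_floor_add_one ((t : ℝ) / h)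
    calc (t : ℝ) = ((t : ℝ) / h) * h := by field_simp
      _ < (⌊(t : ℝ) / h⌋₊ + 1) * h := by gcongr
  have hle : ⌊(t : ℝ) / h⌋₊ ≤ n := by
    apply Nat.floor_le_of_le
    rw [div_le_iff₀ hh]
    exact hn
  have hzero : ∀ k : ℕ, ⌊(t : ℝ) / h⌋₊ + 1 ≤ k → clamp h k t = 0 := by
    intro k hk
    rw [clamp]
    apply max_eq_left
    refine (min_le_left _ _).trans ?_
    have : ((⌊(t : ℝ) / h⌋₊ : ℝ) + 1) ≤ k := by exact_mod_cast hk
    nlinarith
  have hw : walk h σ t = ∑ k ∈ Finset.range (⌊(t : ℝ) / h⌋₊ + 1),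
      (if σ k then 1 else -1) * clamp h k t := by
    unfold walk
    refine Finset.sum_congr rfl fun k hk => ?_
    congr 1
    rw [clamp, max_eq_right]
    rw [Finset.mem_range, Nat.lt_succ_iff] at hk
    have : (k : ℝ) ≤ (⌊(t : ℝ) / h⌋₊ : ℝ) := by exact_mod_cast hk
    refine le_min ?_ hh.le
    nlinarith
  rw [hw]
  rcases Nat.lt_or_ge (⌊(t : ℝ) / h⌋₊) n with h1 | h1
  · refine Finset.sum_subset (Finset.range_mono h1) fun k _ hk2 => ?_
    rw [Finset.mem_range, not_lt] at hk2
    rw [hzero k hk2, mul_zero]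
  · have e : ⌊(t : ℝ) / h⌋₊ = n := le_antisymm hle h1
    rw [e, Finset.sum_range_succ]
    have : clamp h n t = 0 := by
      rw [clamp]
      apply max_eq_left
      exact (min_le_left _ _).trans (by linarith)
    rw [this, mul_zero, add_zero]

theorem walk_zero {h : ℝ} (hh : 0 < h) (σ : ℕ → Bool) : walk h σ 0 = 0 := by
  rw [walk_eq hh σ 0 0 (by simp)]
  simp

/-- Position at the beginning of a period. -/
noncomputable def pos (h : ℝ) (σ : ℕ → Bool) (n : ℕ) : ℝ :=
  h * ∑ k ∈ Finset.range n, (if σ k then 1 else -1)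

theorem pos_succ (h : ℝ) (σ : ℕ → Bool) (n : ℕ) :
    pos h σ (n+1) = pos h σ n + h * (if σ n then 1 else -1) := by
  unfold pos
  rw [Finset.sum_range_succ, mul_add]

theorem walk_block {h : ℝ} (hh : 0 < h) (σ : ℕ → Bool) (n : ℕ) (t : ℝ≥0) (h1 : n * h ≤ t)
    (h2 : (t : ℝ) ≤ (n + 1) * h) :
    walk h σ t = pos h σ n + (if σ n then 1 else -1) * (t - n * h) := by
  rw [walk_eq hh σ t (n + 1) (by push_cast; exact h2), Finset.sum_range_succ]
  congr 1
  · unfold pos
    rw [Finset.mul_sum]
    refine Finset.sum_congr rfl fun k hk => ?_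
    rw [Finset.mem_range] at hk
    have : (k : ℝ) + 1 ≤ n := by exact_mod_cast hk
    rw [clamp, min_eq_right (by nlinarith), max_eq_right hh.le]
    ring
  · rw [clamp, min_eq_left (by linarith), max_eq_right (by linarith)]

theorem clamp_mono (h : ℝ) (k : ℕ) : Monotone (clamp h k) := by
  intro s t hst
  unfold clamp
  gcongr

theorem walk_lip {h : ℝ} (hh : 0 < h) (σ : ℕ → Bool) (s t : ℝ≥0) (hst : s ≤ t) :
    |walk h σ t - walk h σ s| ≤ t - s := by
  obtain ⟨n, hn⟩ := exists_nat_ge ((t : ℝ) / h)
  have hn' : (t : ℝ) ≤ n * h := by rwa [div_le_iff₀ hh] at hn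
  have hst' : (s : ℝ) ≤ t := by exact_mod_cast hst
  rw [walk_eq hh σ t n hn', walk_eq hh σ s n (hst'.trans hn'), ← Finset.sum_sub_distrib]
  have e1 : ∑ k ∈ Finset.range n, clamp h k (t : ℝ) = t := by
    rw [clamp_sum hh t.coe_nonneg n, min_eq_left hn']
  have e2 : ∑ k ∈ Finset.range n, clamp h k (s : ℝ) = s := by
    rw [clamp_sum hh s.coe_nonneg n, min_eq_left (hst'.trans hn')]
  calc |∑ k ∈ Finset.range n, ((if σ k then 1 else -1) * clamp h k t -
        (if σ k then 1 else -1) * clamp h k s)|
      ≤ ∑ k ∈ Finset.range n, |(if σ k then 1 else -1) * clamp h k t -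
        (if σ k then 1 else -1) * clamp h k s| := Finset.abs_sum_le_sum_abs _ _
    _ = ∑ k ∈ Finset.range n, (clamp h k t - clamp h k s) := by
        refine Finset.sum_congr rfl fun k _ => ?_
        have := clamp_mono h k hst'
        rw [← mul_sub, abs_mul, abs_of_nonneg (by linarith : 0 ≤ clamp h k t - clamp h k s)]
        split_ifs <;> simp
    _ = t - s := by
        rw [Finset.sum_sub_distrib, e1, e2]

theorem walk_lipschitz {h : ℝ} (hh : 0 < h) (σ : ℕ → Bool) : LipschitzWith 1 (walk h σ) := by
  apply LipschitzWith.of_dist_le_mul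
  intro x y
  rw [NNReal.coe_one, one_mul, Real.dist_eq, NNReal.dist_eq]
  rcases le_total x y with h1 | h1
  · have := walk_lip hh σ x y h1
    have h1' : (x : ℝ) ≤ y := by exact_mod_cast h1
    rw [abs_sub_comm, abs_sub_comm (x : ℝ), abs_of_nonneg (by linarith : (0 : ℝ) ≤ y - x)]
    exact this
  · have := walk_lip hh σ y x h1
    have h1' : (y : ℝ) ≤ x := by exact_mod_cast h1
    rw [abs_of_nonneg (by linarith : (0 : ℝ) ≤ x - y)]
    exact this

theorem circ_lip : LipschitzWith 1 (fun x : ℝ => (x : Circ)) := by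
  apply LipschitzWith.of_dist_le_mul
  intro x y
  rw [NNReal.coe_one, one_mul, dist_eq_norm, dist_eq_norm, ← AddCircle.coe_sub]
  exact QuotientAddGroup.norm_mk_le_norm

theorem walkc_lip {h : ℝ} (hh : 0 < h) (σ : ℕ → Bool) :
    LipschitzWith 1 (fun t : ℝ≥0 => ((walk h σ t : ℝ) : Circ)) := by
  have := circ_lip.comp (walk_lipschitz hh σ)
  rw [mul_one] at this
  exact this

/-- The pure strategy of a player who moves according to `walk h σ`. -/
noncomputable def path {h : ℝ} (hh : 0 < h) (σ : ℕ → Bool) : Strat :=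
  ⟨⟨fun t => ((walk h σ t : ℝ) : Circ), (walkc_lip hh σ).continuous⟩,
    by simp [walk_zero hh], walkc_lip hh σ⟩

/-- A fair coin. -/
noncomputable def coin : Measure Bool :=
  (1 / 2 : ℝ≥0∞) • Measure.dirac true + (1 / 2 : ℝ≥0∞) • Measure.dirac false

/-- The mixed strategy CO-HA-TO (coin half tour): on each time interval `[k/2, (k+1)/2]` the player
travels half of the circle at speed one, in the direction given by the `k`-th toss of a fair
coin. -/
noncomputable def cohato : Measure Strat :=
  (Measure.infinitePi (fun _ : ℕ => coin)).map (path (h := 1 / 2) (by norm_num))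

end Pool.Agent.H996R2.Coha
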