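import Mathlib

set_option autoImplicit false

/-! Product measures on sequences: splitting off the first coordinate, and the expectation of a
functional of the first disagreement of two independent sequences. -/

open MeasureTheory Set
open scoped ENNReal NNReal

namespace Pool.Agent.H996R2.Coha

/-- Prepend a letter. -/
def cons {ι : Type} (x : ι) (c : ℕ → ι) : ℕ → ι
  | 0 => x
  | n + 1 => c n

@[simp] theorem cons_zero {ι : Type} (x : ι) (c : ℕ → ι) : cons x c 0 = x := rfl
@[simp] theorem cons_succ {ι : Type} (x : ι) (c : ℕ → ι) (n : ℕ) : cons x c (n + 1) = c n := rfl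

/-- Drop the first letter. -/
def shift {ι : Type} (c : ℕ → ι) : ℕ → ι := fun n => c (n + 1)

@[simp] theorem shift_cons {ι : Type} (x : ι) (c : ℕ → ι) : shift (cons x c) = c := rfl

variable {ι : Type} [MeasurableSpace ι]

theorem measurable_cons : Measurable (fun p : ι × (ℕ → ι) => cons p.1 p.2) := by
  rw [measurable_pi_iff]
  intro n
  cases n with
  | zero => exact measurable_fst
  | succ n => exact (measurable_pi_apply n).comp measurable_snd

theorem measurable_shift : Measurable (shift : (ℕ → ι) → (ℕ → ι)) := by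
  rw [measurable_pi_iff]
  intro n
  exact measurable_pi_apply (n + 1)

/-- The product measure on sequences is obtained by prepending an independent letter. -/
theorem map_cons (ν : Measure ι) [IsProbabilityMeasure ν] :
    (ν.prod (Measure.infinitePi (fun _ : ℕ => ν))).map (fun p => cons p.1 p.2) =
      Measure.infinitePi (fun _ : ℕ => ν) := by
  apply Measure.eq_infinitePi
  intro s t ht
  classical
  obtain ⟨N, hN⟩ : ∃ N : ℕ, ∀ i ∈ s, i < N + 1 := by
    refine ⟨s.sup id, fun i hi => Nat.lt_succ_of_le (Finset.le_sup (f := id) hi)⟩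
  let t' : ℕ → Set ι := fun i => if i ∈ s then t i else univ
  have ht' : ∀ i, MeasurableSet (t' i) := by
    intro i
    by_cases hi : i ∈ s
    · simp only [t', hi, if_true]; exact ht i
    · simp only [t', hi, if_false]; exact MeasurableSet.univ
  have e1 : Set.pi (s : Set ℕ) t = Set.pi (Finset.range (N + 1) : Set ℕ) t' := by
    ext x
    simp only [Set.mem_pi, Finset.mem_coe, Finset.mem_range]
    constructor
    · intro h i _
      by_cases hi : i ∈ s
      · simp only [t', hi, if_true]; exact h i hi
      · simp only [t', hi, if_false]; exact mem_univ _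
    · intro h i hi
      have := h i (hN i hi)
      simpa only [t', hi, if_true] using this
  have e2 : ∏ i ∈ s, ν (t i) = ∏ i ∈ Finset.range (N + 1), ν (t' i) := by
    rw [← Finset.prod_subset (s₁ := s) (s₂ := Finset.range (N + 1))
      (fun i hi => Finset.mem_range.2 (hN i hi)) (fun i _ hi => by simp [t', hi])]
    exact Finset.prod_congr rfl fun i hi => by simp [t', hi]
  rw [e1, e2, Measure.map_apply measurable_cons
    (MeasurableSet.pi (Finset.countable_toSet _) fun i _ => ht' i)]
  have e3 : (fun p : ι × (ℕ → ι) => cons p.1 p.2) ⁻¹' (Set.pi (Finset.range (N + 1) : Set ℕ) t') =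
      (t' 0) ×ˢ (Set.pi (Finset.range N : Set ℕ) (fun i => t' (i + 1))) := by
    ext ⟨x, c⟩
    simp only [Set.mem_preimage, Set.mem_pi, Finset.mem_coe, Finset.mem_range, Set.mem_prod]
    constructor
    · intro h
      exact ⟨h 0 (Nat.succ_pos _), fun i hi => h (i + 1) (by omega)⟩
    · rintro ⟨h0, h⟩ i hi
      cases i with
      | zero => exact h0
      | succ i => exact h i (by omega)
  rw [e3, Measure.prod_prod, Measure.infinitePi_pi _ (fun i _ => ht' (i + 1)),
    Finset.prod_range_succ']
  ring

theorem lint_cons [Fintype ι] [MeasurableSingletonClass ι] (ν : Measure ι)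
    [IsProbabilityMeasure ν] (F : (ℕ → ι) → ℝ≥0∞) (hF : Measurable F) :
    ∫⁻ c, F c ∂(Measure.infinitePi (fun _ : ℕ => ν)) =
      ∑ x, ν {x} * ∫⁻ c, F (cons x c) ∂(Measure.infinitePi (fun _ : ℕ => ν)) := by
  conv_lhs => rw [← map_cons ν]
  have h2 : Measurable fun p : ι × (ℕ → ι) => F (cons p.1 p.2) := hF.comp measurable_cons
  rw [lintegral_map hF measurable_cons, lintegral_prod _ h2.aemeasurable,
    lintegral_fintype]
  exact Finset.sum_congr rfl fun x _ => mul_comm _ _

theorem lint_cons2 [Fintype ι] [MeasurableSingletonClass ι] (ν : Measure ι)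
    [IsProbabilityMeasure ν] (F : (ℕ → ι) → (ℕ → ι) → ℝ≥0∞)
    (hF : Measurable (Function.uncurry F)) :
    ∫⁻ c, ∫⁻ c', F c c' ∂(Measure.infinitePi (fun _ : ℕ => ν))
        ∂(Measure.infinitePi (fun _ : ℕ => ν)) =
      ∑ x, ∑ x', ν {x} * ν {x'} * ∫⁻ c, ∫⁻ c', F (cons x c) (cons x' c')
        ∂(Measure.infinitePi (fun _ : ℕ => ν)) ∂(Measure.infinitePi (fun _ : ℕ => ν)) := by
  have h1 : Measurable fun c => ∫⁻ c', F c c' ∂(Measure.infinitePi (fun _ : ℕ => ν)) :=
    hF.lintegral_prod_right'
  rw [lint_cons ν _ h1]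
  refine Finset.sum_congr rfl fun x _ => ?_
  have h2 : ∀ c, ∫⁻ c', F (cons x c) c' ∂(Measure.infinitePi (fun _ : ℕ => ν)) =
      ∑ x', ν {x'} * ∫⁻ c', F (cons x c) (cons x' c') ∂(Measure.infinitePi (fun _ : ℕ => ν)) :=
    fun c => lint_cons ν _ (hF.comp (measurable_const.prodMk measurable_id))
  simp_rw [h2]
  have hx : Measurable fun c : ℕ → ι => cons x c :=
    measurable_cons.comp (measurable_const.prodMk measurable_id)
  rw [lintegral_finsetSum]
  · rw [Finset.mul_sum]
    refine Finset.sum_congr rfl fun x' _ => ?_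
    have hx' : Measurable fun c : ℕ → ι => cons x' c :=
      measurable_cons.comp (measurable_const.prodMk measurable_id)
    have h3 : Measurable fun p : (ℕ → ι) × (ℕ → ι) => F (cons x p.1) (cons x' p.2) :=
      hF.comp ((hx.comp measurable_fst).prodMk (hx'.comp measurable_snd))
    rw [lintegral_const_mul _ h3.lintegral_prod_right', mul_assoc]
  · intro x' _
    have hx' : Measurable fun c : ℕ → ι => cons x' c :=
      measurable_cons.comp (measurable_const.prodMk measurable_id)
    have h3 : Measurable fun p : (ℕ → ι) × (ℕ → ι) => F (cons x p.1) (cons x' p.2) :=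
      hF.comp ((hx.comp measurable_fst).prodMk (hx'.comp measurable_snd))
    exact h3.lintegral_prod_right'.const_mul _

open Classical in
/-- The functional `α M + g (c M) (c' M)`, where `M` is the first index at which `c` and `c'`
differ, truncated after `n` steps. -/
noncomputable def fdis (α : ℝ≥0∞) (g : ι → ι → ℝ≥0∞) : ℕ → (ℕ → ι) → (ℕ → ι) → ℝ≥0∞
  | 0, _, _ => 0
  | n + 1, c, c' => if c 0 = c' 0 then α + fdis α g n (shift c) (shift c') else g (c 0) (c' 0)

theorem fdis_measurable [Fintype ι] [MeasurableSingletonClass ι] (α : ℝ≥0∞)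
    (g : ι → ι → ℝ≥0∞) (n : ℕ) : Measurable (Function.uncurry (fdis α g n)) := by
  classical
  induction n with
  | zero => exact measurable_const
  | succ n ih =>
    have h0 : Measurable fun p : (ℕ → ι) × (ℕ → ι) => p.1 0 :=
      (measurable_pi_apply 0).comp measurable_fst
    have h0' : Measurable fun p : (ℕ → ι) × (ℕ → ι) => p.2 0 :=
      (measurable_pi_apply 0).comp measurable_snd
    have hs : MeasurableSet {p : (ℕ → ι) × (ℕ → ι) | p.1 0 = p.2 0} :=
      measurableSet_eq_fun h0 h0'
    have e : Function.uncurry (fdis α g (n + 1)) = fun p : (ℕ → ι) × (ℕ → ι) =>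
        if p.1 0 = p.2 0 then α + Function.uncurry (fdis α g n) (shift p.1, shift p.2)
        else g (p.1 0) (p.2 0) := by
      funext p
      simp only [Function.uncurry, fdis]
    rw [e]
    refine Measurable.ite hs ?_ ?_
    · exact measurable_const.add (ih.comp
        ((measurable_shift.comp measurable_fst).prodMk (measurable_shift.comp measurable_snd)))
    · have hg : Measurable (Function.uncurry g) := measurable_of_countable _
      exact hg.comp (h0.prodMk h0')

/-- Recursion for the expectation of `fdis`. -/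
theorem fdis_lint' [Fintype ι] [MeasurableSingletonClass ι] (ν : Measure ι)
    [IsProbabilityMeasure ν] (α : ℝ≥0∞) (g : ι → ι → ℝ≥0∞) (n : ℕ) :
    ∫⁻ c, ∫⁻ c', fdis α g (n + 1) c c' ∂(Measure.infinitePi (fun _ : ℕ => ν))
        ∂(Measure.infinitePi (fun _ : ℕ => ν)) =
      ∑ x, ∑ x', ν {x} * ν {x'} * (open Classical in if x = x' then
        α + ∫⁻ c, ∫⁻ c', fdis α g n c c' ∂(Measure.infinitePi (fun _ : ℕ => ν))
        ∂(Measure.infinitePi (fun _ : ℕ => ν)) else g x x') := by
  classical
  rw [lint_cons2 ν _ (fdis_measurable α g (n + 1))]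
  refine Finset.sum_congr rfl fun x _ => Finset.sum_congr rfl fun x' _ => ?_
  congr 1
  simp only [fdis, cons_zero, shift_cons]
  by_cases h : x = x'
  · simp only [h, if_true]
    have hm := fdis_measurable (ι := ι) α g n
    have : ∀ c : ℕ → ι, ∫⁻ c', (α + fdis α g n c c') ∂(Measure.infinitePi (fun _ : ℕ => ν)) =
        α + ∫⁻ c', fdis α g n c c' ∂(Measure.infinitePi (fun _ : ℕ => ν)) := by
      intro c
      rw [lintegral_add_left measurable_const, lintegral_const, measure_univ, mul_one]
    simp_rw [this]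
    rw [lintegral_add_left measurable_const, lintegral_const, measure_univ, mul_one]
  · simp only [h, if_false]
    rw [lintegral_const, measure_univ, mul_one, lintegral_const, measure_univ, mul_one]

/-- Expectation of `fdis`. -/
noncomputable def Efd (ν : Measure ι) (α : ℝ≥0∞) (g : ι → ι → ℝ≥0∞) (n : ℕ) : ℝ≥0∞ :=
  ∫⁻ c, ∫⁻ c', fdis α g n c c' ∂(Measure.infinitePi (fun _ : ℕ => ν))
        ∂(Measure.infinitePi (fun _ : ℕ => ν))

theorem Efd_zero (ν : Measure ι) (α : ℝ≥0∞) (g : ι → ι → ℝ≥0∞) : Efd ν α g 0 = 0 := by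
  simp [Efd, fdis]

theorem Efd_succ [Fintype ι] [DecidableEq ι] [MeasurableSingletonClass ι] (ν : Measure ι)
    [IsProbabilityMeasure ν] (α : ℝ≥0∞) (g : ι → ι → ℝ≥0∞) (n : ℕ) :
    Efd ν α g (n + 1) = ∑ x, ∑ x', ν {x} * ν {x'} *
      (if x = x' then α + Efd ν α g n else g x x') := by
  have := fdis_lint' ν α g n
  unfold Efd
  rw [this]
  refine Finset.sum_congr rfl fun x _ => Finset.sum_congr rfl fun x' _ => ?_
  congr

end Pool.Agent.H996R2.Coha
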