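import Mathlib
import Pool.Agent.H996R2.CohaDefs
import Pool.Agent.H996R2.CohaProb

set_option autoImplicit false

/-! Measurability of the meeting time, reduction to one relative rotation, reflections. -/

open MeasureTheory Set
open scoped ENNReal NNReal

namespace Pool.Agent.H996R2.Coha

local instance : Fact ((0 : ℝ) < 1) := ⟨one_pos⟩

theorem meet_le_iff {p q : ℝ≥0 → Circ} (hp : Continuous p) (hq : Continuous q) (r : ℝ≥0) :
    meet p q ≤ r ↔ ∀ n : ℕ, ∃ d : ℕ,
      dist (p (min r (TopologicalSpace.denseSeq ℝ≥0 d)))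
        (q (min r (TopologicalSpace.denseSeq ℝ≥0 d))) < 1 / ((n : ℝ) + 1) := by
  have hc : Continuous fun t : ℝ≥0 => dist (p t) (q t) := hp.dist hq
  constructor
  · intro h n
    by_contra hcon
    push Not at hcon
    have hpos : (0 : ℝ) < 1 / ((n : ℝ) + 1) := by positivity
    have h1 : ∀ t : ℝ≥0, 1 / ((n : ℝ) + 1) ≤ dist (p (min r t)) (q (min r t)) := by
      have hcl : IsClosed {t : ℝ≥0 | 1 / ((n : ℝ) + 1) ≤ dist (p (min r t)) (q (min r t))} :=
        isClosed_le continuous_const (hc.comp (continuous_const.min continuous_id))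
      have hd : Dense (range (TopologicalSpace.denseSeq ℝ≥0)) :=
        TopologicalSpace.denseRange_denseSeq ℝ≥0
      intro t
      have : closure (range (TopologicalSpace.denseSeq ℝ≥0)) ⊆
          {t : ℝ≥0 | 1 / ((n : ℝ) + 1) ≤ dist (p (min r t)) (q (min r t))} := by
        apply closure_minimal _ hcl
        rintro _ ⟨d, rfl⟩
        exact hcon d
      exact this (hd t)
    have h2 : ∀ᶠ t in nhds r, 0 < dist (p t) (q t) := by
      apply hc.continuousAt.eventually_const_lt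
      have := h1 r
      rw [min_self] at this
      linarith
    obtain ⟨e, he, h3⟩ := Metric.eventually_nhds_iff.1 h2
    have h4 : ((r + ⟨e / 2, by positivity⟩ : ℝ≥0) : ℝ≥0∞) ≤ meet p q := by
      refine le_iInf₂ fun t ht => ?_
      rw [ENNReal.coe_le_coe]
      by_contra hlt
      rw [not_le] at hlt
      rcases le_total t r with h5 | h5
      · have := h1 t
        rw [min_eq_right h5, ht, dist_self] at this
        linarith
      · have h6 : dist t r < e := by
          rw [NNReal.dist_eq, abs_of_nonneg (by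
            have : (r : ℝ) ≤ t := by exact_mod_cast h5
            linarith)]
          have : (t : ℝ) < r + e / 2 := by exact_mod_cast hlt
          linarith
        have := h3 h6
        rw [ht, dist_self] at this
        exact lt_irrefl _ this
    have h7 := h4.trans h
    rw [ENNReal.coe_le_coe] at h7
    have h8 : (r : ℝ) + e / 2 ≤ r := by exact_mod_cast h7
    linarith
  · intro h
    obtain ⟨t, ht, hmin⟩ := (isCompact_Icc (a := (0 : ℝ≥0)) (b := r)).exists_isMinOn
      ⟨0, by simp⟩ hc.continuousOn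
    have h0 : dist (p t) (q t) = 0 := by
      by_contra hne
      have hpos : 0 < dist (p t) (q t) := lt_of_le_of_ne dist_nonneg (Ne.symm hne)
      obtain ⟨n, hn⟩ := exists_nat_one_div_lt hpos
      obtain ⟨d, hd⟩ := h n
      have h1 : min r (TopologicalSpace.denseSeq ℝ≥0 d) ∈ Icc (0 : ℝ≥0) r :=
        ⟨bot_le, min_le_left _ _⟩
      have h2 := hmin h1
      simp only [mem_ofPred_eq] at h2
      linarith
    have : meet p q ≤ t := by
      unfold meet
      exact iInf₂_le (f := fun (t : ℝ≥0) (_ : p t = q t) => (t : ℝ≥0∞)) t (dist_eq_zero.1 h0)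
    exact this.trans (by exact_mod_cast ht.2)

theorem meet_measurable {X : Type} [MeasurableSpace X] (p q : X → ℝ≥0 → Circ)
    (hp : ∀ t, Measurable fun x => p x t) (hq : ∀ t, Measurable fun x => q x t)
    (hpc : ∀ x, Continuous (p x)) (hqc : ∀ x, Continuous (q x)) :
    Measurable fun x => meet (p x) (q x) := by
  apply measurable_of_Iic
  intro y
  induction y with
  | top => simp
  | coe r =>
    have e : (fun x => meet (p x) (q x)) ⁻¹' Iic (r : ℝ≥0∞) = ⋂ n : ℕ, ⋃ d : ℕ,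
        {x | dist (p x (min r (TopologicalSpace.denseSeq ℝ≥0 d)))
          (q x (min r (TopologicalSpace.denseSeq ℝ≥0 d))) < 1 / ((n : ℝ) + 1)} := by
      ext x
      simp only [mem_preimage, mem_Iic, mem_iInter, mem_iUnion, mem_ofPred_eq]
      exact meet_le_iff (hpc x) (hqc x) r
    rw [e]
    refine MeasurableSet.iInter fun n => MeasurableSet.iUnion fun d => ?_
    exact measurableSet_lt ((hp _).dist (hq _)) measurable_const

/-- General expected meeting time with reflections. -/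
noncomputable def Te (e₁ e₂ : ℤˣ) (s₁ s₂ : Strat) : ℝ≥0∞ :=
  ∫⁻ a₁, ∫⁻ a₂, meet (fun t => a₁ + e₁ • s₁.1 t) (fun t => a₂ + e₂ • s₂.1 t)
    ∂(AddCircle.haarAddCircle (T := 1)) ∂(AddCircle.haarAddCircle (T := 1))

theorem T2_eq (s₁ s₂ : Strat) : T2 s₁ s₂ = Te 1 1 s₁ s₂ := by simp [T2, Te]

theorem T3_eq (s₁ s₂ : Strat) : T3 s₁ s₂ = (1 / 4) * ∑ e₁ : ℤˣ, ∑ e₂ : ℤˣ, Te e₁ e₂ s₁ s₂ := rfl

theorem smul_cont (e : ℤˣ) : Continuous fun x : Circ => e • x := by
  rcases Int.units_eq_one_or e with h | h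
  · subst h
    simp only [one_smul]
    exact continuous_id
  · subst h
    have : (fun x : Circ => (-1 : ℤˣ) • x) = fun x => -x := by
      funext x; simp
    rw [this]
    exact continuous_neg

theorem eval_cont (t : ℝ≥0) : Continuous fun s : Strat => s.1 t :=
  (ContinuousEvalConst.continuous_eval_const t).comp continuous_subtype_val

theorem Te_measurable (e₁ e₂ : ℤˣ) : Measurable fun z : Strat × Strat => Te e₁ e₂ z.1 z.2 := by
  have h : Measurable fun z : ((Strat × Strat) × Circ) × Circ =>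
      meet (fun t => z.1.2 + e₁ • z.1.1.1.1 t) (fun t => z.2 + e₂ • z.1.1.2.1 t) := by
    apply meet_measurable
    · intro t
      have h1 : Measurable fun z : ((Strat × Strat) × Circ) × Circ => e₁ • z.1.1.1.1 t :=
        ((smul_cont e₁).comp (eval_cont t)).measurable.comp
          (measurable_fst.comp (measurable_fst.comp measurable_fst))
      exact (measurable_snd.comp measurable_fst).add h1
    · intro t
      have h1 : Measurable fun z : ((Strat × Strat) × Circ) × Circ => e₂ • z.1.1.2.1 t :=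
        ((smul_cont e₂).comp (eval_cont t)).measurable.comp
          (measurable_snd.comp (measurable_fst.comp measurable_fst))
      exact measurable_snd.add h1
    · intro z
      exact continuous_const.add ((smul_cont e₁).comp z.1.1.1.1.continuous)
    · intro z
      exact continuous_const.add ((smul_cont e₂).comp z.1.1.2.1.continuous)
  exact (h.lintegral_prod_right').lintegral_prod_right'

/-- Only the relative rotation matters. -/
theorem haar_reduce (p q : ℝ≥0 → Circ) :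
    ∫⁻ a₁, ∫⁻ a₂, meet (fun t => a₁ + p t) (fun t => a₂ + q t)
      ∂(AddCircle.haarAddCircle (T := 1)) ∂(AddCircle.haarAddCircle (T := 1)) =
    ∫⁻ a in Ioc (0 : ℝ) 1, meet (fun t => (a : Circ) + p t) q := by
  have h1 : ∀ a₁ a₂ : Circ, meet (fun t => a₁ + p t) (fun t => a₂ + q t) =
      meet (fun t => (-a₂ + a₁) + p t) q := by
    intro a₁ a₂
    unfold meet
    have : ∀ t, (a₁ + p t = a₂ + q t) ↔ ((-a₂ + a₁) + p t = q t) := by
      intro t
      constructor
      · intro h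
        rw [add_assoc, h]; abel
      · intro h
        rw [← h]; abel
    simp only [this]
  simp only [h1]
  have h2 : ∀ a₂ : Circ, ∫⁻ a₁, meet (fun t => (-a₂ + a₁) + p t) q
      ∂(AddCircle.haarAddCircle (T := 1)) =
      ∫⁻ a₁, meet (fun t => a₁ + p t) q ∂(AddCircle.haarAddCircle (T := 1)) := fun a₂ =>
    lintegral_add_left_eq_self (fun a => meet (fun t => a + p t) q) (-a₂)
  have h3 : ∀ a₁ : Circ, ∫⁻ a₂, meet (fun t => (-a₂ + a₁) + p t) q
      ∂(AddCircle.haarAddCircle (T := 1)) =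
      ∫⁻ a₁, meet (fun t => a₁ + p t) q ∂(AddCircle.haarAddCircle (T := 1)) := by
    intro a₁
    calc ∫⁻ a₂, meet (fun t => (-a₂ + a₁) + p t) q ∂(AddCircle.haarAddCircle (T := 1))
        = ∫⁻ b, meet (fun t => (b + a₁) + p t) q ∂(AddCircle.haarAddCircle (T := 1)) :=
          lintegral_neg_eq_self (μ := AddCircle.haarAddCircle (T := 1))
            (fun b => meet (fun t => (b + a₁) + p t) q)
      _ = _ := lintegral_add_right_eq_self (fun a => meet (fun t => a + p t) q) a₁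
  simp only [h3]
  rw [lintegral_const, measure_univ, mul_one]
  have h4 := AddCircle.lintegral_preimage 1 0 (fun a => meet (fun t => a + p t) q)
  rw [zero_add] at h4
  rw [h4, AddCircle.volume_eq_smul_haarAddCircle, ENNReal.ofReal_one, one_smul]

/-- Reflection of a strategy. -/
noncomputable def negS (s : Strat) : Strat :=
  ⟨-s.1, by
    show -(s.1 0) = 0
    rw [s.2.1, neg_zero], by
    have := s.2.2.neg
    exact this⟩

theorem negS_apply (s : Strat) (t : ℝ≥0) : (negS s).1 t = -(s.1 t) := rfl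

theorem negS_negS (s : Strat) : negS (negS s) = s := by
  apply Subtype.ext
  ext t
  show -(-(s.1 t)) = s.1 t
  rw [neg_neg]

theorem negS_cont : Continuous negS :=
  Continuous.subtype_mk (continuous_subtype_val.neg) _

noncomputable def negE : Strat ≃ᵐ Strat where
  toFun := negS
  invFun := negS
  left_inv := negS_negS
  right_inv := negS_negS
  measurable_toFun := negS_cont.measurable
  measurable_invFun := negS_cont.measurable

theorem Te_neg_left (e₂ : ℤˣ) (s₁ s₂ : Strat) : Te (-1) e₂ s₁ s₂ = Te 1 e₂ (negS s₁) s₂ := by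
  simp [Te, negS]

theorem Te_neg_right (e₁ : ℤˣ) (s₁ s₂ : Strat) : Te e₁ (-1) s₁ s₂ = Te e₁ 1 s₁ (negS s₂) := by
  simp [Te, negS]

attribute [local irreducible] Te meet in
theorem cost3_eq (μ : Measure Strat) [IsProbabilityMeasure μ] (hμ : μ.map negS = μ) :
    cost3 μ = cost2 μ := by
  have hmp : MeasurePreserving negE μ μ := ⟨negE.measurable, hμ⟩
  have key : ∀ f : Strat → ℝ≥0∞, ∫⁻ s, f (negS s) ∂μ = ∫⁻ s, f s ∂μ := fun f =>
    hmp.lintegral_comp_emb negE.measurableEmbedding f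
  have h1 : ∀ e₁ e₂ : ℤˣ, ∫⁻ s₁, ∫⁻ s₂, Te e₁ e₂ s₁ s₂ ∂μ ∂μ = cost2 μ := by
    intro e₁ e₂
    have hr : ∀ s₁, ∫⁻ s₂, Te e₁ e₂ s₁ s₂ ∂μ = ∫⁻ s₂, Te e₁ 1 s₁ s₂ ∂μ := by
      intro s₁
      rcases Int.units_eq_one_or e₂ with h | h
      · rw [h]
      · rw [h]
        simp_rw [Te_neg_right]
        exact key _
    simp_rw [hr]
    rcases Int.units_eq_one_or e₁ with h | h
    · rw [h]
      unfold cost2
      simp_rw [T2_eq]
    · rw [h]
      simp_rw [Te_neg_left]
      rw [key (fun s => ∫⁻ s₂, Te 1 1 s s₂ ∂μ)]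
      unfold cost2
      simp_rw [T2_eq]
  have hm1 : ∀ e₁ e₂ : ℤˣ, ∀ s₁ : Strat, Measurable fun s₂ => Te e₁ e₂ s₁ s₂ := by
    intro e₁ e₂ s₁
    have hpm : Measurable (fun s₂ : Strat => ((s₁, s₂) : Strat × Strat)) := measurable_prodMk_left
    exact (Te_measurable e₁ e₂).comp hpm
  have hm2 : ∀ e₁ e₂ : ℤˣ, Measurable fun s₁ => ∫⁻ s₂, Te e₁ e₂ s₁ s₂ ∂μ := fun e₁ e₂ =>
    (Te_measurable e₁ e₂).lintegral_prod_right'
  have hm3 : ∀ e₁ : ℤˣ, ∀ s₁ : Strat, Measurable fun s₂ => ∑ e₂ : ℤˣ, Te e₁ e₂ s₁ s₂ :=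
    fun e₁ s₁ => Finset.measurable_fun_sum _ fun e₂ _ => hm1 e₁ e₂ s₁
  have hm4 : ∀ s₁ : Strat, Measurable fun s₂ => ∑ e₁ : ℤˣ, ∑ e₂ : ℤˣ, Te e₁ e₂ s₁ s₂ :=
    fun s₁ => Finset.measurable_fun_sum _ fun e₁ _ => hm3 e₁ s₁
  have hm5 : ∀ e₁ : ℤˣ, Measurable fun s₁ => ∑ e₂ : ℤˣ, ∫⁻ s₂, Te e₁ e₂ s₁ s₂ ∂μ :=
    fun e₁ => Finset.measurable_fun_sum _ fun e₂ _ => hm2 e₁ e₂
  have hm6 : Measurable fun s₁ => ∑ e₁ : ℤˣ, ∑ e₂ : ℤˣ, ∫⁻ s₂, Te e₁ e₂ s₁ s₂ ∂μ :=
    Finset.measurable_fun_sum _ fun e₁ _ => hm5 e₁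
  unfold cost3
  have h2 : ∀ s₁, ∫⁻ s₂, T3 s₁ s₂ ∂μ =
      (1 / 4) * ∑ e₁ : ℤˣ, ∑ e₂ : ℤˣ, ∫⁻ s₂, Te e₁ e₂ s₁ s₂ ∂μ := by
    intro s₁
    simp only [T3_eq]
    rw [lintegral_const_mul _ (hm4 s₁), lintegral_finsetSum _ fun e₁ _ => hm3 e₁ s₁]
    congr 1
    refine Finset.sum_congr rfl fun e₁ _ => ?_
    rw [lintegral_finsetSum _ fun e₂ _ => hm1 e₁ e₂ s₁]
  simp only [h2]
  rw [lintegral_const_mul _ hm6, lintegral_finsetSum _ fun e₁ _ => hm5 e₁]
  have h3 : ∀ e₁ : ℤˣ, ∫⁻ s₁, ∑ e₂ : ℤˣ, ∫⁻ s₂, Te e₁ e₂ s₁ s₂ ∂μ ∂μ =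
      ∑ e₂ : ℤˣ, ∫⁻ s₁, ∫⁻ s₂, Te e₁ e₂ s₁ s₂ ∂μ ∂μ := fun e₁ =>
    lintegral_finsetSum _ fun e₂ _ => hm2 e₁ e₂
  simp only [h3, h1]
  rw [Finset.sum_const, Finset.sum_const, Finset.card_univ, Fintype.card_units_int]
  simp only [nsmul_eq_mul, Nat.cast_ofNat]
  rw [← mul_assoc, ← mul_assoc]
  have : (1 / 4 : ℝ≥0∞) * 2 * 2 = 1 := by
    rw [mul_assoc, show (2 : ℝ≥0∞) * 2 = 4 by norm_num, one_div]
    exact ENNReal.inv_mul_cancel (by norm_num) (by norm_num)
  rw [this, one_mul]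

/-- Continuity of the path map. -/
theorem path_continuous {h : ℝ} (hh : 0 < h) : Continuous (path hh) := by
  apply Continuous.subtype_mk
  apply ContinuousMap.continuous_of_continuous_uncurry
  show Continuous fun p : (ℕ → Bool) × ℝ≥0 => ((walk h p.1 p.2 : ℝ) : Circ)
  apply circ_lip.continuous.comp
  rw [continuous_iff_continuousAt]
  rintro ⟨σ, t⟩
  obtain ⟨n, hn⟩ := exists_nat_gt ((t : ℝ) / h)
  have hn' : (t : ℝ) < n * h := by rwa [div_lt_iff₀ hh] at hn
  have hcont : Continuous fun p : (ℕ → Bool) × ℝ≥0 =>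
      ∑ k ∈ Finset.range n, (if p.1 k then (1 : ℝ) else -1) * clamp h k p.2 := by
    refine continuous_finsetSum _ fun k _ => ?_
    refine Continuous.mul ?_ ?_
    · have h1 : Continuous fun b : Bool => if b then (1 : ℝ) else -1 := continuous_of_discreteTopology
      exact h1.comp ((continuous_apply k).comp continuous_fst)
    · unfold clamp
      fun_prop
  refine hcont.continuousAt.congr ?_
  have hopen : IsOpen {p : (ℕ → Bool) × ℝ≥0 | (p.2 : ℝ) < n * h} :=
    isOpen_lt (NNReal.continuous_coe.comp continuous_snd) continuous_const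
  filter_upwards [hopen.mem_nhds hn'] with p hp
  rw [walk_eq hh p.1 p.2 n (le_of_lt hp)]

theorem walk_neg {h : ℝ} (σ : ℕ → Bool) (t : ℝ≥0) :
    walk h (fun n => !σ n) t = - walk h σ t := by
  unfold walk
  rw [← Finset.sum_neg_distrib]
  refine Finset.sum_congr rfl fun k _ => ?_
  cases hk : σ k <;> simp [hk]

theorem path_neg {h : ℝ} (hh : 0 < h) (σ : ℕ → Bool) :
    negS (path hh σ) = path hh (fun n => !σ n) := by
  apply Subtype.ext
  ext t
  show -((walk h σ t : ℝ) : Circ) = ((walk h (fun n => !σ n) t : ℝ) : Circ)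
  rw [walk_neg, AddCircle.coe_neg]

end Pool.Agent.H996R2.Coha
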