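import Mathlib
import Pool.Agent.H996R2.CohaMeas

set_option autoImplicit false

/-! The expected meeting time of CO-HA-TO is at least `3/4`. -/

open MeasureTheory Set
open scoped ENNReal NNReal

namespace Pool.Agent.H996R2.Coha

local instance : Fact ((0 : ℝ) < 1) := ⟨one_pos⟩

attribute [local irreducible] Te meet

/-! ### Agreement of two walks -/

theorem walk_agree {h : ℝ} (hh : 0 < h) {σ σ' : ℕ → Bool} {M : ℕ} (hM : ∀ i < M, σ i = σ' i)
    (t : ℝ≥0) (ht : (t : ℝ) ≤ M * h) : walk h σ t = walk h σ' t := by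
  rw [walk_eq hh σ t M ht, walk_eq hh σ' t M ht]
  refine Finset.sum_congr rfl fun k hk => ?_
  rw [hM k (Finset.mem_range.1 hk)]

theorem pos_agree (h : ℝ) {σ σ' : ℕ → Bool} {M : ℕ} (hM : ∀ i < M, σ i = σ' i) :
    pos h σ M = pos h σ' M := by
  unfold pos
  congr 1
  refine Finset.sum_congr rfl fun k hk => ?_
  rw [hM k (Finset.mem_range.1 hk)]

/-! ### The functional of the first disagreement -/

section fd
variable {ι : Type}

theorem fdis_le (α : ℝ≥0∞) (g : ι → ι → ℝ≥0∞) (M : ℕ) : ∀ (n : ℕ) (c c' : ℕ → ι),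
    (∀ i < M, c i = c' i) → c M ≠ c' M → fdis α g n c c' ≤ α * M + g (c M) (c' M) := by
  induction M with
  | zero =>
    intro n c c' _ h
    cases n with
    | zero => simp [fdis]
    | succ n => simp [fdis, h]
  | succ M ih =>
    intro n c c' h1 h2
    cases n with
    | zero => simp [fdis]
    | succ n =>
      have h0 : c 0 = c' 0 := h1 0 (Nat.succ_pos _)
      simp only [fdis, h0, if_true]
      have := ih n (shift c) (shift c') (fun i hi => h1 (i + 1) (by omega)) h2
      calc α + fdis α g n (shift c) (shift c') ≤ α + (α * M + g (shift c M) (shift c' M)) := by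
            gcongr
        _ = α * (M + 1 : ℕ) + g (c (M + 1)) (c' (M + 1)) := by
            simp only [shift]
            push_cast
            ring

theorem fdis_eq (α : ℝ≥0∞) (g : ι → ι → ℝ≥0∞) (M : ℕ) : ∀ (c c' : ℕ → ι),
    (∀ i < M, c i = c' i) → c M ≠ c' M →
    fdis α g (M + 1) c c' = α * M + g (c M) (c' M) := by
  induction M with
  | zero =>
    intro c c' _ h
    simp [fdis, h]
  | succ M ih =>
    intro c c' h1 h2
    have h0 : c 0 = c' 0 := h1 0 (Nat.succ_pos _)
    have := ih (shift c) (shift c') (fun i hi => h1 (i + 1) (by omega)) h2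
    rw [fdis]
    simp only [h0, if_true]
    rw [this]
    simp only [shift]
    push_cast
    ring

theorem fdis_same (α : ℝ≥0∞) (g : ι → ι → ℝ≥0∞) (n : ℕ) : ∀ c : ℕ → ι,
    fdis α g n c c = α * n := by
  induction n with
  | zero => intro c; simp [fdis]
  | succ n ih =>
    intro c
    simp only [fdis, if_true, ih]
    push_cast
    ring

theorem fdis_mono (α : ℝ≥0∞) (g : ι → ι → ℝ≥0∞) (n : ℕ) : ∀ c c' : ℕ → ι,
    fdis α g n c c' ≤ fdis α g (n + 1) c c' := by
  induction n with
  | zero => intro c c'; simp [fdis]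
  | succ n ih =>
    intro c c'
    rw [fdis, fdis]
    split_ifs
    · gcongr
      exact ih _ _
    · exact le_rfl

/-- Either there is a first disagreement or the sequences are equal. -/
theorem first_dis (c c' : ℕ → ι) : c = c' ∨ ∃ M, (∀ i < M, c i = c' i) ∧ c M ≠ c' M := by
  classical
  by_cases h : ∃ M, c M ≠ c' M
  · right
    exact ⟨Nat.find h, fun i hi => not_not.1 (Nat.find_min h hi), Nat.find_spec h⟩
  · left
    push Not at h
    exact funext h
end fd

/-! ### The cost of a strategy given as a push-forward -/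

theorem cost2_map {Ω : Type} [MeasurableSpace Ω] (μ : Measure Ω) [IsProbabilityMeasure μ]
    (f : Ω → Strat) (hf : Measurable f) :
    cost2 (μ.map f) = ∫⁻ x, ∫⁻ y, T2 (f x) (f y) ∂μ ∂μ := by
  have hm : Measurable fun z : Strat × Strat => T2 z.1 z.2 := by
    simp only [T2_eq]
    exact Te_measurable 1 1
  have hpr : IsProbabilityMeasure (μ.map f) := Measure.isProbabilityMeasure_map hf.aemeasurable
  have h1 : ∀ s₁ : Strat, ∫⁻ s₂, T2 s₁ s₂ ∂(μ.map f) = ∫⁻ y, T2 s₁ (f y) ∂μ := by
    intro s₁
    have hpm : Measurable (fun s₂ : Strat => ((s₁, s₂) : Strat × Strat)) := measurable_prodMk_left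
    exact lintegral_map (hm.comp hpm) hf
  have h2 : Measurable fun s₁ : Strat => ∫⁻ s₂, T2 s₁ s₂ ∂(μ.map f) := hm.lintegral_prod_right'
  unfold cost2
  rw [lintegral_map h2 hf]
  simp only [h1]

theorem T2_path {h : ℝ} (hh : 0 < h) (σ σ' : ℕ → Bool) :
    T2 (path hh σ) (path hh σ') = ∫⁻ a in Ioc (0 : ℝ) 1,
      meet (fun t => (a : Circ) + ((walk h σ t : ℝ) : Circ)) (fun t => ((walk h σ' t : ℝ) : Circ)) :=
  haar_reduce _ _

theorem circ_eq_iff (a x y : ℝ) : ((a : Circ) + (x : Circ) = (y : Circ)) ↔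
    ∃ n : ℤ, (n : ℝ) = a + x - y := by
  rw [← sub_eq_zero, ← AddCircle.coe_add, ← AddCircle.coe_sub, AddCircle.coe_eq_zero_iff]
  simp

/-! ### CO-HA-TO -/

instance : IsProbabilityMeasure coin := ⟨by
  simp [coin, ENNReal.inv_two_add_inv_two]⟩

theorem coin_singleton (b : Bool) : coin {b} = 1 / 2 := by
  cases b <;> simp [coin]

theorem half_pos' : (0 : ℝ) < 1 / 2 := by norm_num

theorem meet_lower {c c' : ℕ → Bool} {M : ℕ} (hM : ∀ i < M, c i = c' i) (hne : c M ≠ c' M)
    {a : ℝ} (ha : a ∈ Ioo (0 : ℝ) 1) :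
    ENNReal.ofReal (M / 2 + if c M then (1 - a) / 2 else a / 2) ≤
      meet (fun t => (a : Circ) + ((walk (1 / 2) c t : ℝ) : Circ))
        (fun t => ((walk (1 / 2) c' t : ℝ) : Circ)) := by
  obtain ⟨ha0, ha1⟩ := ha
  unfold meet
  refine le_iInf₂ fun t ht => ?_
  rw [circ_eq_iff] at ht
  obtain ⟨n, hn⟩ := ht
  rw [ENNReal.ofReal_le_iff_le_toReal (by simp), ENNReal.coe_toReal]
  by_contra hcon
  rw [not_le] at hcon
  rcases le_total (t : ℝ) (M * (1 / 2)) with h1 | h1
  · rw [walk_agree half_pos' hM t h1] at hn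
    have : (n : ℝ) = a := by linarith
    rw [← this] at ha0 ha1
    have h2 : (0 : ℤ) < n := by exact_mod_cast ha0
    have h3 : n < (1 : ℤ) := by exact_mod_cast ha1
    omega
  · have hf : (if c M then (1 - a) / 2 else a / 2) ≤ 1 / 2 := by split_ifs <;> linarith
    have h2 : (t : ℝ) ≤ (M + 1) * (1 / 2) := by linarith
    rw [walk_block half_pos' c M t h1 h2, walk_block half_pos' c' M t h1 h2,
      pos_agree _ hM] at hn
    cases hc : c M with
    | true =>
      have hc' : c' M = false := by
        cases h : c' M with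
        | true => rw [hc, h] at hne; exact absurd rfl hne
        | false => rfl
      rw [hc] at hcon hn
      rw [hc'] at hn
      simp only [if_true, Bool.false_eq_true, if_false] at hcon hn
      have e : (n : ℝ) = a + 2 * (t - M * (1 / 2)) := by linarith
      have h3 : (0 : ℝ) < n := by rw [e]; linarith
      have h4 : (n : ℝ) < 1 := by rw [e]; linarith
      have h5 : (0 : ℤ) < n := by exact_mod_cast h3
      have h6 : n < (1 : ℤ) := by exact_mod_cast h4
      omega
    | false =>
      have hc' : c' M = true := by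
        cases h : c' M with
        | true => rfl
        | false => rw [hc, h] at hne; exact absurd rfl hne
      rw [hc] at hcon hn
      rw [hc'] at hn
      simp only [if_true, Bool.false_eq_true, if_false] at hcon hn
      have e : (n : ℝ) = a - 2 * (t - M * (1 / 2)) := by linarith
      have h3 : (0 : ℝ) < n := by rw [e]; linarith
      have h4 : (n : ℝ) < 1 := by rw [e]; linarith
      have h5 : (0 : ℤ) < n := by exact_mod_cast h3
      have h6 : n < (1 : ℤ) := by exact_mod_cast h4
      omega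

theorem meet_same (σ : ℕ → Bool) {a : ℝ} (ha : a ∈ Ioo (0 : ℝ) 1) :
    meet (fun t => (a : Circ) + ((walk (1 / 2) σ t : ℝ) : Circ))
        (fun t => ((walk (1 / 2) σ t : ℝ) : Circ)) = ∞ := by
  rw [eq_top_iff]
  unfold meet
  refine le_iInf₂ fun t ht => ?_
  exfalso
  rw [circ_eq_iff] at ht
  obtain ⟨n, hn⟩ := ht
  have : (n : ℝ) = a := by linarith
  obtain ⟨ha0, ha1⟩ := ha
  rw [← this] at ha0 ha1
  have h2 : (0 : ℤ) < n := by exact_mod_cast ha0
  have h3 : n < (1 : ℤ) := by exact_mod_cast ha1
  omega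

theorem lint_affine (u v p q : ℝ) (huv : u ≤ v) (hpos : ∀ a ∈ Icc u v, 0 ≤ p + q * a) :
    ∫⁻ a in Ioc u v, ENNReal.ofReal (p + q * a) =
      ENNReal.ofReal (p * (v - u) + q * (v ^ 2 - u ^ 2) / 2) := by
  have hint : IntegrableOn (fun a : ℝ => p + q * a) (Ioc u v) volume := by
    apply (Continuous.integrableOn_Icc (by fun_prop)).mono_set Ioc_subset_Icc_self
  rw [← ofReal_integral_eq_lintegral_ofReal hint]
  · congr 1
    rw [← intervalIntegral.integral_of_le huv]
    rw [intervalIntegral.integral_add (by simp) (by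
      apply Continuous.intervalIntegrable; fun_prop)]
    rw [intervalIntegral.integral_const_mul, integral_id, intervalIntegral.integral_const,
      smul_eq_mul]
    ring
  · rw [Filter.EventuallyLE, ae_restrict_iff' measurableSet_Ioc]
    exact Filter.Eventually.of_forall fun a ha => hpos a (Ioc_subset_Icc_self ha)

theorem T2_lower (c c' : ℕ → Bool) (n : ℕ) :
    fdis (1 / 2) (fun _ _ => 1 / 4) n c c' ≤ T2 (path half_pos' c) (path half_pos' c') := by
  rw [T2_path, ← setLIntegral_congr (Ioo_ae_eq_Ioc (μ := volume) (a := (0 : ℝ)) (b := 1))]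
  rcases first_dis c c' with h | ⟨M, hM, hne⟩
  · subst h
    rw [setLIntegral_congr_fun measurableSet_Ioo (fun a ha => meet_same c ha)]
    simp
  · refine (fdis_le _ _ M n c c' hM hne).trans ?_
    have h1 : ∫⁻ a in Ioo (0 : ℝ) 1,
        ENNReal.ofReal (M / 2 + if c M then (1 - a) / 2 else a / 2) ≤
        ∫⁻ a in Ioo (0 : ℝ) 1, meet (fun t => (a : Circ) + ((walk (1 / 2) c t : ℝ) : Circ))
        (fun t => ((walk (1 / 2) c' t : ℝ) : Circ)) :=
      setLIntegral_mono' measurableSet_Ioo fun a ha => meet_lower hM hne ha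
    refine le_trans (le_of_eq ?_) h1
    have h2 : (1 / 2 : ℝ≥0∞) * M + 1 / 4 = ENNReal.ofReal (M / 2 + 1 / 4) := by
      rw [ENNReal.ofReal_add (by positivity) (by positivity)]
      rw [ENNReal.ofReal_div_of_pos (by norm_num), ENNReal.ofReal_div_of_pos (by norm_num)]
      simp only [ENNReal.ofReal_natCast, ENNReal.ofReal_one, ENNReal.ofReal_ofNat]
      rw [one_div, mul_comm, ← div_eq_mul_inv]
    rw [h2, setLIntegral_congr (Ioo_ae_eq_Ioc (μ := volume) (a := (0 : ℝ)) (b := 1))]
    have hM0 : (0 : ℝ) ≤ M := Nat.cast_nonneg M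
    by_cases hc : c M = true
    · have e : ∀ a : ℝ, (M : ℝ) / 2 + (if c M = true then (1 - a) / 2 else a / 2) =
          (M / 2 + 1 / 2) + (-1 / 2) * a := by intro a; rw [if_pos hc]; ring
      simp only [e]
      rw [lint_affine 0 1 _ _ zero_le_one (by
        intro a ha
        have := ha.2
        have := ha.1
        linarith)]
      congr 1
      ring
    · have e : ∀ a : ℝ, (M : ℝ) / 2 + (if c M = true then (1 - a) / 2 else a / 2) =
          (M / 2) + (1 / 2) * a := by intro a; rw [if_neg hc]; ring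
      simp only [e]
      rw [lint_affine 0 1 _ _ zero_le_one (by
        intro a ha
        have := ha.1
        linarith)]
      congr 1
      ring

theorem cohato_lower : 3 / 4 ≤ cost2 cohato := by
  have hcost : cost2 cohato = ∫⁻ c, ∫⁻ c', T2 (path half_pos' c) (path half_pos' c')
      ∂(Measure.infinitePi (fun _ : ℕ => coin)) ∂(Measure.infinitePi (fun _ : ℕ => coin)) :=
    cost2_map _ _ (path_continuous half_pos').measurable
  set E : ℕ → ℝ≥0∞ := fun n => Efd coin (1 / 2) (fun _ _ => 1 / 4) n with hE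
  have hle : ∀ n, E n ≤ cost2 cohato := by
    intro n
    rw [hcost]
    exact lintegral_mono fun c => lintegral_mono fun c' => T2_lower c c' n
  have hrec : ∀ n, E (n + 1) = 3 / 8 + (1 / 2) * E n := by
    intro n
    have h0 : E (n + 1) = ∑ x, ∑ x', coin {x} * coin {x'} *
      (if x = x' then 1 / 2 + E n else 1 / 4) := Efd_succ coin (1 / 2) (fun _ _ => 1 / 4) n
    rw [h0]
    simp only [Fintype.sum_bool, coin_singleton, if_true, reduceCtorEq, if_false,
      Bool.true_eq_false, Bool.false_eq_true]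
    have h4 : (1 / 2 : ℝ≥0∞) * (1 / 2) = 1 / 4 := by
      rw [one_div, ← ENNReal.mul_inv (by simp) (by simp)]
      norm_num
    rw [h4]
    have h5 : (1 / 4 : ℝ≥0∞) * (1 / 2 + E n) + 1 / 4 * (1 / 4) +
        (1 / 4 * (1 / 4) + 1 / 4 * (1 / 2 + E n)) =
        ((1 / 4 : ℝ≥0∞) + 1 / 4) * (1 / 2 + 1 / 4) + ((1 / 4 : ℝ≥0∞) + 1 / 4) * E n := by ring
    rw [h5]
    have h6 : (1 / 4 : ℝ≥0∞) + 1 / 4 = 1 / 2 := by
      rw [← h4, ← mul_add]
      simp [ENNReal.inv_two_add_inv_two]
    rw [h6]
    congr 1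
    have e1 : (1 / 2 : ℝ≥0∞) + 1 / 4 = 3 / 4 := by
      rw [← h6]
      rw [show (3 / 4 : ℝ≥0∞) = 3 * (1 / 4) by rw [mul_one_div]]
      ring
    rw [e1, one_div, div_eq_mul_inv, div_eq_mul_inv, mul_comm, mul_assoc,
      ← ENNReal.mul_inv (by simp) (by simp)]
    norm_num
  have hsum : ∀ n, E n + 3 / 4 * (1 / 2) ^ n = 3 / 4 := by
    intro n
    induction n with
    | zero => simp [hE, Efd_zero]
    | succ n ih =>
      rw [hrec, pow_succ]
      have : 3 / 8 + 1 / 2 * E n + 3 / 4 * ((1 / 2) ^ n * (1 / 2)) =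
          3 / 8 + 1 / 2 * (E n + 3 / 4 * (1 / 2) ^ n) := by ring
      rw [this, ih]
      have e1 : (1 / 2 : ℝ≥0∞) * (3 / 4) = 3 / 8 := by
        rw [one_div, div_eq_mul_inv, div_eq_mul_inv, mul_comm, mul_assoc,
          ← ENNReal.mul_inv (by simp) (by simp)]
        norm_num
      rw [e1]
      rw [← ENNReal.toReal_eq_toReal_iff' (by finiteness) (by finiteness)]
      rw [ENNReal.toReal_add (by finiteness) (by finiteness)]
      simp
      norm_num
  have hlim : Filter.Tendsto (fun n : ℕ => cost2 cohato + 3 / 4 * (1 / 2 : ℝ≥0∞) ^ n) Filter.atTop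
      (nhds (cost2 cohato + 3 / 4 * 0)) := by
    refine Filter.Tendsto.const_add _ ?_
    refine ENNReal.Tendsto.const_mul ?_ (Or.inr (by finiteness))
    apply ENNReal.tendsto_pow_atTop_nhds_zero_of_lt_one
    rw [one_div]
    exact ENNReal.inv_lt_one.2 (by norm_num)
  rw [mul_zero, add_zero] at hlim
  refine ge_of_tendsto hlim (Filter.Eventually.of_forall fun n => ?_)
  calc (3 / 4 : ℝ≥0∞) = E n + 3 / 4 * (1 / 2) ^ n := (hsum n).symm
    _ ≤ cost2 cohato + 3 / 4 * (1 / 2) ^ n := by
        gcongr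
        exact hle n

/-! ### Reflection symmetry -/

theorem coin_not : coin.map (fun b => !b) = coin := by
  have h : Measurable fun b : Bool => !b := measurable_of_countable _
  unfold coin
  rw [Measure.map_add _ _ h, Measure.map_smul, Measure.map_smul, Measure.map_dirac' h,
    Measure.map_dirac' h]
  simp [add_comm]

theorem cohato_neg : cohato.map negS = cohato := by
  have hm : Measurable (path half_pos') := (path_continuous half_pos').measurable
  have hn : Measurable (fun (c : ℕ → Bool) (n : ℕ) => !c n) := by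
    rw [measurable_pi_iff]
    intro n
    exact (measurable_of_countable (fun b : Bool => !b)).comp (measurable_pi_apply n)
  have e1 : cohato = (Measure.infinitePi (fun _ : ℕ => coin)).map (path half_pos') := rfl
  rw [e1, Measure.map_map negS_cont.measurable hm]
  have e2 : negS ∘ path half_pos' = path half_pos' ∘ (fun (c : ℕ → Bool) (n : ℕ) => !c n) := by
    funext c
    exact path_neg half_pos' c
  rw [e2, ← Measure.map_map hm hn]
  congr 1
  have := Measure.infinitePi_map_pi (μ := fun _ : ℕ => coin) (f := fun (_ : ℕ) (b : Bool) => !b)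
    (fun _ => measurable_of_countable _)
  simp only [coin_not] at this
  exact this

theorem cohato_lower3 : 3 / 4 ≤ cost3 cohato := by
  have : IsProbabilityMeasure cohato :=
    Measure.isProbabilityMeasure_map (path_continuous half_pos').measurable.aemeasurable
  rw [cost3_eq cohato cohato_neg]
  exact cohato_lower

end Pool.Agent.H996R2.Coha
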