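import Mathlib
import Pool.Agent.H996R2.CohaLower

set_option autoImplicit false

/-! A strategy with expected meeting time at most `269/360`. -/

open MeasureTheory Set
open scoped ENNReal NNReal

namespace Pool.Agent.H996R2.Coha

local instance : Fact ((0 : ℝ) < 1) := ⟨one_pos⟩

attribute [local irreducible] Te meet

/-- The five basic patterns of directions on six consecutive quarter-tours. -/
def base : Fin 5 → List Bool := ![
  [true, true, true, true, true, true],
  [true, true, false, false, true, true],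
  [true, false, true, true, false, true],
  [true, false, false, false, false, true],
  [true, true, true, false, false, false]]

/-- A letter is a sign together with a basic pattern. -/
abbrev Let : Type := Bool × Fin 5

/-- The direction prescribed by the letter `x` on the `l`-th quarter-tour of a period. -/
def pat (x : Let) (l : ℕ) : Bool := xor x.1 ((base x.2).getD l true)

/-- The sequence of directions given by a sequence of letters. -/
def sigma (c : ℕ → Let) (j : ℕ) : Bool := pat (c (j / 6)) (j % 6)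

/-- Relative displacement (in units of `1/2`) in the `l`-th quarter-tour. -/
def dd (x x' : Let) (l : ℕ) : ℤ :=
  if pat x l = pat x' l then 0 else if pat x l then 1 else -1

/-- Relative displacement after `l` quarter-tours. -/
def SS (x x' : Let) : ℕ → ℤ
  | 0 => 0
  | l + 1 => SS x x' l + dd x x' l

/-- The quarter-tour during which the relative position leaves the interval. -/
def rr (s : ℤ) (x x' : Let) : ℕ :=
  (List.range 6).findIdx (fun l => decide (s + SS x x' (l + 1) < 0 ∨ 1 < s + SS x x' (l + 1)))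

theorem rr_spec : ∀ x x' : Let, x ≠ x' → ∀ s : Fin 2,
    rr (s : ℕ) x x' < 6 ∧
    ((((s : ℕ) : ℤ) + SS x x' (rr (s : ℕ) x x') = 0 ∧ pat x (rr (s : ℕ) x x') = false ∧
        pat x' (rr (s : ℕ) x x') = true) ∨
     (((s : ℕ) : ℤ) + SS x x' (rr (s : ℕ) x x') = 1 ∧ pat x (rr (s : ℕ) x x') = true ∧
        pat x' (rr (s : ℕ) x x') = false)) := by
  decide +kernel

theorem rr_sum : ∑ x : Let, ∑ x' : Let, (if x = x' then 0 else rr 0 x x' + rr 1 x x' + 1) = 418 := by
  decide +kernel

theorem quarter_pos : (0 : ℝ) < 1 / 4 := by norm_num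

theorem sigma_at (c : ℕ → Let) (M l : ℕ) (hl : l < 6) : sigma c (6 * M + l) = pat (c M) l := by
  unfold sigma
  rw [show (6 * M + l) / 6 = M by omega, show (6 * M + l) % 6 = l by omega]

theorem sigma_agree {c c' : ℕ → Let} {M : ℕ} (hM : ∀ i < M, c i = c' i) :
    ∀ j < 6 * M, sigma c j = sigma c' j := by
  intro j hj
  unfold sigma
  rw [hM (j / 6) (by omega)]

theorem pos_diff {c c' : ℕ → Let} {M : ℕ} (hM : ∀ i < M, c i = c' i) (l : ℕ) (hl : l ≤ 6) :
    pos (1 / 4) (sigma c) (6 * M + l) - pos (1 / 4) (sigma c') (6 * M + l) =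
      (SS (c M) (c' M) l : ℝ) / 2 := by
  induction l with
  | zero =>
    rw [add_zero, pos_agree _ (sigma_agree hM)]
    simp [SS]
  | succ l ih =>
    have ih' := ih (by omega)
    rw [← add_assoc, pos_succ, pos_succ, sigma_at c M l (by omega), sigma_at c' M l (by omega)]
    have : pos (1 / 4) (sigma c) (6 * M + l) = pos (1 / 4) (sigma c') (6 * M + l) +
        (SS (c M) (c' M) l : ℝ) / 2 := by linarith
    have hss : SS (c M) (c' M) (l + 1) = SS (c M) (c' M) l + dd (c M) (c' M) l := rfl
    rw [this, hss]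
    unfold dd
    cases pat (c M) l <;> cases pat (c' M) l <;> push_cast <;> simp <;> ring

/-- Upper bound for the meeting time. -/
theorem meet_upper (σ σ' : ℕ → Bool) (k : ℕ) (s S : ℤ)
    (hpos : pos (1 / 4) σ k - pos (1 / 4) σ' k = (S : ℝ) / 2)
    (hS : (s + S = 0 ∧ σ k = false ∧ σ' k = true) ∨ (s + S = 1 ∧ σ k = true ∧ σ' k = false))
    {a : ℝ} (ha : a ∈ Icc (0 : ℝ) (1 / 2)) :
    meet (fun t => ((a + s / 2 : ℝ) : Circ) + ((walk (1 / 4) σ t : ℝ) : Circ))
        (fun t => ((walk (1 / 4) σ' t : ℝ) : Circ)) ≤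
      ENNReal.ofReal (k / 4 + if σ k then (1 / 2 - a) / 2 else a / 2) := by
  obtain ⟨ha0, ha1⟩ := ha
  have hk : (0 : ℝ) ≤ k := Nat.cast_nonneg k
  have hf0 : 0 ≤ (if σ k then (1 / 2 - a) / 2 else a / 2) := by split_ifs <;> linarith
  have hf1 : (if σ k then (1 / 2 - a) / 2 else a / 2) ≤ 1 / 4 := by split_ifs <;> linarith
  set f : ℝ := (if σ k then (1 / 2 - a) / 2 else a / 2) with hf
  have ht0 : 0 ≤ (k : ℝ) / 4 + f := by positivity
  set t : ℝ≥0 := ⟨(k : ℝ) / 4 + f, ht0⟩ with ht
  have e : ENNReal.ofReal ((k : ℝ) / 4 + f) = (t : ℝ≥0∞) := by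
    rw [ENNReal.ofReal_eq_coe_nnreal ht0]
    rfl
  rw [e]
  have htc : (t : ℝ) = (k : ℝ) / 4 + f := rfl
  have hb1 : (k : ℝ) * (1 / 4) ≤ t := by rw [htc]; linarith
  have hb2 : (t : ℝ) ≤ (k + 1) * (1 / 4) := by rw [htc]; linarith
  have hmeet : ((a + s / 2 : ℝ) : Circ) + ((walk (1 / 4) σ t : ℝ) : Circ) =
      ((walk (1 / 4) σ' t : ℝ) : Circ) := by
    rw [circ_eq_iff, walk_block quarter_pos σ k t hb1 hb2, walk_block quarter_pos σ' k t hb1 hb2]
    have hp : pos (1 / 4) σ k = pos (1 / 4) σ' k + (S : ℝ) / 2 := by linarith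
    rw [hp, htc]
    rcases hS with ⟨h1, h2, h3⟩ | ⟨h1, h2, h3⟩
    · have hf' : f = a / 2 := by rw [hf, h2]; simp
      refine ⟨0, ?_⟩
      have h1' : (s : ℝ) + S = 0 := by exact_mod_cast h1
      rw [h2, h3, hf']
      simp only [Bool.false_eq_true, if_false, if_true]
      push_cast
      linarith
    · have hf' : f = (1 / 2 - a) / 2 := by rw [hf, h2]; simp
      refine ⟨1, ?_⟩
      have h1' : (s : ℝ) + S = 1 := by exact_mod_cast h1
      rw [h2, h3, hf']
      simp only [Bool.false_eq_true, if_false, if_true]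
      push_cast
      linarith
  unfold meet
  exact iInf₂_le (f := fun (t : ℝ≥0)
    (_ : ((a + s / 2 : ℝ) : Circ) + ((walk (1 / 4) σ t : ℝ) : Circ) =
      ((walk (1 / 4) σ' t : ℝ) : Circ)) => (t : ℝ≥0∞)) t hmeet

theorem half_int (σ : ℕ → Bool) (k : ℕ) :
    ∫⁻ a in Ioc (0 : ℝ) (1 / 2),
      ENNReal.ofReal (k / 4 + if σ k then (1 / 2 - a) / 2 else a / 2) =
    ENNReal.ofReal (k / 8 + 1 / 16) := by
  have hk : (0 : ℝ) ≤ k := Nat.cast_nonneg k
  by_cases hc : σ k = true
  · have e : ∀ a : ℝ, (k : ℝ) / 4 + (if σ k = true then (1 / 2 - a) / 2 else a / 2) =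
        (k / 4 + 1 / 4) + (-1 / 2) * a := by intro a; rw [if_pos hc]; ring
    simp only [e]
    rw [lint_affine 0 (1 / 2) _ _ (by norm_num) (by
      intro a ha
      have := ha.2
      have := ha.1
      linarith)]
    congr 1
    ring
  · have e : ∀ a : ℝ, (k : ℝ) / 4 + (if σ k = true then (1 / 2 - a) / 2 else a / 2) =
        (k / 4) + (1 / 2) * a := by intro a; rw [if_neg hc]; ring
    simp only [e]
    rw [lint_affine 0 (1 / 2) _ _ (by norm_num) (by
      intro a ha
      have := ha.1
      linarith)]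
    congr 1
    ring

/-- The cost of a disagreement at the letters `x`, `x'`. -/
noncomputable def gg (x x' : Let) : ℝ≥0∞ := ((rr 0 x x' + rr 1 x x' + 1 : ℕ) : ℝ≥0∞) / 8

theorem T2_upper {c c' : ℕ → Let} {M : ℕ} (hM : ∀ i < M, c i = c' i) (hne : c M ≠ c' M) :
    T2 (path quarter_pos (sigma c)) (path quarter_pos (sigma c')) ≤
      3 / 2 * M + gg (c M) (c' M) := by
  rw [T2_path]
  have hsplit : Ioc (0 : ℝ) 1 = Ioc 0 (1 / 2) ∪ Ioc (1 / 2) 1 :=
    (Ioc_union_Ioc_eq_Ioc (by norm_num) (by norm_num)).symm
  have hdis : Disjoint (Ioc (0 : ℝ) (1 / 2)) (Ioc (1 / 2) 1) := by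
    rw [Set.disjoint_left]
    rintro x ⟨_, h1⟩ ⟨h2, _⟩
    linarith
  rw [hsplit, lintegral_union measurableSet_Ioc hdis]
  have htrans : ∀ F : ℝ → ℝ≥0∞, ∫⁻ a in Ioc (1 / 2 : ℝ) 1, F a =
      ∫⁻ a in Ioc (0 : ℝ) (1 / 2), F (a + 1 / 2) := by
    intro F
    have h1 := (measurePreserving_add_right (volume : Measure ℝ) (1 / 2)).setLIntegral_comp_preimage_emb
      (MeasurableEquiv.addRight (1 / 2 : ℝ)).measurableEmbedding F (Ioc (1 / 2 : ℝ) 1)
    rw [← h1]
    congr 2
    ext x
    simp only [mem_preimage, mem_Ioc]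
    constructor
    · rintro ⟨h1, h2⟩
      constructor <;> linarith
    · rintro ⟨h1, h2⟩
      constructor <;> linarith
  rw [htrans]
  -- the two bounds
  have hb : ∀ s : Fin 2, ∫⁻ a in Ioc (0 : ℝ) (1 / 2),
      meet (fun t => ((a + (((s : ℕ) : ℤ) : ℝ) / 2 : ℝ) : Circ) +
        ((walk (1 / 4) (sigma c) t : ℝ) : Circ))
        (fun t => ((walk (1 / 4) (sigma c') t : ℝ) : Circ)) ≤
      ENNReal.ofReal (((6 * M + rr (s : ℕ) (c M) (c' M) : ℕ) : ℝ) / 8 + 1 / 16) := by
    intro s
    obtain ⟨h6, hS⟩ := rr_spec (c M) (c' M) hne s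
    rw [← half_int (sigma c) (6 * M + rr (s : ℕ) (c M) (c' M))]
    refine setLIntegral_mono' measurableSet_Ioc fun a ha => ?_
    refine meet_upper (sigma c) (sigma c') (6 * M + rr (s : ℕ) (c M) (c' M)) ((s : ℕ) : ℤ)
      (SS (c M) (c' M) (rr (s : ℕ) (c M) (c' M))) (pos_diff hM _ (by omega)) ?_
      (Ioc_subset_Icc_self ha)
    rw [sigma_at c M _ h6, sigma_at c' M _ h6]
    exact hS
  have h0 := hb 0
  have h1 := hb 1
  have e0 : ∀ a : ℝ, ((a + ((((0 : Fin 2) : ℕ) : ℤ) : ℝ) / 2 : ℝ) : Circ) = (a : Circ) := by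
    intro a; simp
  have e1 : ∀ a : ℝ, ((a + ((((1 : Fin 2) : ℕ) : ℤ) : ℝ) / 2 : ℝ) : Circ) =
      ((a + 1 / 2 : ℝ) : Circ) := by
    intro a; simp
  simp only [e0] at h0
  simp only [e1] at h1
  refine (add_le_add h0 h1).trans (le_of_eq ?_)
  have ea : (((0 : Fin 2) : ℕ) : ℤ) = 0 := rfl
  have eb : (((1 : Fin 2) : ℕ) : ℤ) = 1 := rfl
  rw [ea, eb, ← ENNReal.ofReal_add (by positivity) (by positivity)]
  unfold gg
  rw [← ENNReal.toReal_eq_toReal_iff' (by finiteness) (by finiteness),
    ENNReal.toReal_ofReal (by positivity), ENNReal.toReal_add (by finiteness) (by finiteness)]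
  simp only [ENNReal.toReal_mul, ENNReal.toReal_div, ENNReal.toReal_ofNat, ENNReal.toReal_natCast]
  push_cast
  ring

/-- The uniform distribution on letters. -/
noncomputable def unif : Measure Let := (1 / 10 : ℝ≥0∞) • Measure.count

instance : IsProbabilityMeasure unif := ⟨by
  unfold unif
  rw [Measure.smul_apply, Measure.count_univ]
  simp
  exact ENNReal.inv_mul_cancel (by norm_num) (by norm_num)⟩

theorem unif_singleton (x : Let) : unif {x} = 1 / 10 := by
  simp [unif]

theorem measurable_sigma : Measurable (sigma : (ℕ → Let) → (ℕ → Bool)) := by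
  rw [measurable_pi_iff]
  intro j
  exact (measurable_of_countable (fun x : Let => pat x (j % 6))).comp (measurable_pi_apply (j / 6))

/-- The better strategy: in each period of length `3/2` the player chooses independently one of
the ten patterns uniformly at random and makes the corresponding six quarter-tours. -/
noncomputable def star : Measure Strat :=
  (Measure.infinitePi (fun _ : ℕ => unif)).map (fun c => path quarter_pos (sigma c))

theorem measurable_star : Measurable (fun c : ℕ → Let => path quarter_pos (sigma c)) :=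
  (path_continuous quarter_pos).measurable.comp measurable_sigma

instance : IsProbabilityMeasure star :=
  Measure.isProbabilityMeasure_map measurable_star.aemeasurable

theorem Efd_star (n : ℕ) : Efd unif (3 / 2) gg n ≤ 269 / 360 := by
  induction n with
  | zero => rw [Efd_zero]; exact bot_le
  | succ n ih =>
    rw [Efd_succ]
    have h1 : ∑ x : Let, ∑ x' : Let, unif {x} * unif {x'} *
        (if x = x' then 3 / 2 + Efd unif (3 / 2) gg n else gg x x') =
        (1 / 100) * (10 * (3 / 2 + Efd unif (3 / 2) gg n) + 418 / 8) := by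
      have h2 : ∀ x x' : Let, unif {x} * unif {x'} *
        (if x = x' then 3 / 2 + Efd unif (3 / 2) gg n else gg x x') =
        (1 / 100) * ((if x = x' then 3 / 2 + Efd unif (3 / 2) gg n else 0) +
          ((if x = x' then 0 else rr 0 x x' + rr 1 x x' + 1 : ℕ) : ℝ≥0∞) / 8) := by
        intro x x'
        rw [unif_singleton, unif_singleton]
        have : (1 / 10 : ℝ≥0∞) * (1 / 10) = 1 / 100 := by
          rw [one_div, ← ENNReal.mul_inv (by simp) (by simp)]
          norm_num
        rw [this]
        congr 1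
        by_cases h : x = x'
        · simp [h]
        · simp [h, gg]
      simp only [h2]
      simp only [← Finset.mul_sum]
      congr 1
      simp only [Finset.sum_add_distrib]
      congr 1
      · simp only [Finset.sum_ite_eq, Finset.mem_univ, if_true, Finset.sum_const,
          Finset.card_univ]
        simp [Let]
        ring
      · simp only [div_eq_mul_inv, ← Finset.sum_mul]
        congr 1
        have := rr_sum
        exact_mod_cast this
    rw [h1]
    calc (1 / 100 : ℝ≥0∞) * (10 * (3 / 2 + Efd unif (3 / 2) gg n) + 418 / 8)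
        ≤ (1 / 100 : ℝ≥0∞) * (10 * (3 / 2 + 269 / 360) + 418 / 8) := by gcongr
      _ = 269 / 360 := by
        rw [← ENNReal.toReal_eq_toReal_iff' (by finiteness) (by finiteness)]
        rw [ENNReal.toReal_mul, ENNReal.toReal_add (by finiteness) (by finiteness),
          ENNReal.toReal_mul, ENNReal.toReal_add (by finiteness) (by finiteness)]
        simp only [ENNReal.toReal_div, ENNReal.toReal_ofNat, ENNReal.toReal_one]
        norm_num

theorem star_upper : cost2 star ≤ 269 / 360 := by
  have hcost : cost2 star = ∫⁻ c, ∫⁻ c', T2 (path quarter_pos (sigma c))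
      (path quarter_pos (sigma c')) ∂(Measure.infinitePi (fun _ : ℕ => unif))
      ∂(Measure.infinitePi (fun _ : ℕ => unif)) := cost2_map _ _ measurable_star
  have hle : ∀ c c' : ℕ → Let, T2 (path quarter_pos (sigma c)) (path quarter_pos (sigma c')) ≤
      ⨆ n, fdis (3 / 2) gg n c c' := by
    intro c c'
    rcases first_dis c c' with h | ⟨M, hM, hne⟩
    · subst h
      have : ⨆ n, fdis (3 / 2) gg n c c = ∞ := by
        simp only [fdis_same]
        rw [← ENNReal.mul_iSup, ENNReal.iSup_natCast, ENNReal.mul_top (by simp)]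
      rw [this]
      exact le_top
    · refine (T2_upper hM hne).trans ?_
      rw [← fdis_eq (3 / 2) gg M c c' hM hne]
      exact le_iSup (fun n => fdis (3 / 2) gg n c c') (M + 1)
  rw [hcost]
  have hmeas : ∀ n, Measurable (Function.uncurry (fdis (ι := Let) (3 / 2) gg n)) := fun n =>
    fdis_measurable _ _ n
  have hmono : ∀ c c' : ℕ → Let, Monotone fun n => fdis (3 / 2) gg n c c' := fun c c' =>
    monotone_nat_of_le_succ fun n => fdis_mono _ _ n c c'
  calc ∫⁻ c, ∫⁻ c', T2 (path quarter_pos (sigma c)) (path quarter_pos (sigma c'))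
      ∂(Measure.infinitePi (fun _ : ℕ => unif)) ∂(Measure.infinitePi (fun _ : ℕ => unif))
      ≤ ∫⁻ c, ∫⁻ c', ⨆ n, fdis (3 / 2) gg n c c' ∂(Measure.infinitePi (fun _ : ℕ => unif))
        ∂(Measure.infinitePi (fun _ : ℕ => unif)) :=
        lintegral_mono fun c => lintegral_mono fun c' => hle c c'
    _ = ∫⁻ c, ⨆ n, ∫⁻ c', fdis (3 / 2) gg n c c' ∂(Measure.infinitePi (fun _ : ℕ => unif))
        ∂(Measure.infinitePi (fun _ : ℕ => unif)) := by
        refine lintegral_congr fun c => ?_
        refine lintegral_iSup (fun n => ?_) (fun m n hmn c' => hmono c c' hmn)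
        have hpm : Measurable (fun c' : ℕ → Let => ((c, c') : (ℕ → Let) × (ℕ → Let))) :=
          measurable_prodMk_left
        exact (hmeas n).comp hpm
    _ = ⨆ n, ∫⁻ c, ∫⁻ c', fdis (3 / 2) gg n c c' ∂(Measure.infinitePi (fun _ : ℕ => unif))
        ∂(Measure.infinitePi (fun _ : ℕ => unif)) := by
        refine lintegral_iSup (fun n => (hmeas n).lintegral_prod_right') (fun m n hmn c => ?_)
        exact lintegral_mono fun c' => hmono c c' hmn
    _ ≤ 269 / 360 := iSup_le fun n => Efd_star n

/-! ### Reflection symmetry -/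

def flip (x : Let) : Let := (!x.1, x.2)

theorem flip_flip (x : Let) : flip (flip x) = x := by simp [flip]

theorem unif_flip : unif.map flip = unif := by
  have h : Measurable flip := measurable_of_countable _
  apply Measure.ext_of_singleton
  intro x
  rw [Measure.map_apply h (measurableSet_singleton x), unif_singleton]
  have : flip ⁻¹' {x} = {flip x} := by
    ext y
    simp only [mem_preimage, mem_singleton_iff]
    constructor
    · intro h; rw [← h, flip_flip]
    · intro h; rw [h, flip_flip]
  rw [this, unif_singleton]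

theorem sigma_flip (c : ℕ → Let) : (fun j => !sigma c j) = sigma (fun n => flip (c n)) := by
  funext j
  simp [sigma, pat, flip]

theorem star_neg : star.map negS = star := by
  have hn : Measurable (fun (c : ℕ → Let) (n : ℕ) => flip (c n)) := by
    rw [measurable_pi_iff]
    intro n
    exact (measurable_of_countable flip).comp (measurable_pi_apply n)
  have e1 : star = (Measure.infinitePi (fun _ : ℕ => unif)).map
    (fun c => path quarter_pos (sigma c)) := rfl
  rw [e1, Measure.map_map negS_cont.measurable measurable_star]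
  have e2 : negS ∘ (fun c => path quarter_pos (sigma c)) =
      (fun c => path quarter_pos (sigma c)) ∘ (fun (c : ℕ → Let) (n : ℕ) => flip (c n)) := by
    funext c
    show negS (path quarter_pos (sigma c)) = path quarter_pos (sigma fun n => flip (c n))
    rw [path_neg, sigma_flip]
  rw [e2, ← Measure.map_map measurable_star hn]
  congr 1
  have := Measure.infinitePi_map_pi (μ := fun _ : ℕ => unif) (f := fun (_ : ℕ) (b : Let) => flip b)
    (fun _ => measurable_of_countable _)
  simp only [unif_flip] at this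
  exact this

theorem star_upper3 : cost3 star ≤ 269 / 360 := by
  rw [cost3_eq star star_neg]
  exact star_upper

end Pool.Agent.H996R2.Coha
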