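import Mathlib

set_option autoImplicit false

/-!
# The sparse stochastic block model: definitions
-/

open Filter Topology

namespace Pool.Agent.H996R2.SBM

/-- The probability of an edge between two vertices with labels `i` and `j`. -/
noncomputable def edgeProb {k : ℕ} (M : Fin k → Fin k → ℝ) (n : ℕ) (i j : Fin k) : ℝ :=
  min 1 (M i j / n)

/-- The pairs `u < v` of vertices. -/
def pairs (n : ℕ) : Finset (Fin n × Fin n) := Finset.univ.filter (fun e => e.1 < e.2)

open Classical in
/-- `P(G | σ)`: given the labels, each pair of vertices is an edge independently. -/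
noncomputable def lik {k n : ℕ} (M : Fin k → Fin k → ℝ) (G : SimpleGraph (Fin n))
    (σ : Fin n → Fin k) : ℝ :=
  ∏ e ∈ pairs n, if G.Adj e.1 e.2 then edgeProb M n (σ e.1) (σ e.2)
    else 1 - edgeProb M n (σ e.1) (σ e.2)

/-- The probability of the labelling `σ`: the labels are independent with law `π`. -/
noncomputable def prior {k n : ℕ} (π : Fin k → ℝ) (σ : Fin n → Fin k) : ℝ := ∏ v, π (σ v)

open Classical in
/-- The probability, in `SBM(n, k, π, M)`, of an event `E` depending on the labels and the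
graph. -/
noncomputable def prob {k : ℕ} (π : Fin k → ℝ) (M : Fin k → Fin k → ℝ) (n : ℕ)
    (E : (Fin n → Fin k) → SimpleGraph (Fin n) → Prop) : ℝ :=
  ∑ σ : Fin n → Fin k, ∑ G : SimpleGraph (Fin n), if E σ G then prior π σ * lik M G σ else 0

/-- The overlap of the labelling `σ'` with the labelling `σ`: the largest fraction of vertices
on which they agree after a permutation of the labels. -/
noncomputable def overlap {k n : ℕ} (σ' σ : Fin n → Fin k) : ℝ :=
  ⨆ τ : Equiv.Perm (Fin k), ((Finset.univ.filter (fun v => τ (σ' v) = σ v)).card : ℝ) / n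

/-- An estimator: a map from graphs on `n` vertices to labellings, for every `n`. -/
def Estimator (k : ℕ) : Type := ∀ n : ℕ, SimpleGraph (Fin n) → Fin n → Fin k

/-- The estimator achieves non-trivial correlation at `(k, π, M)`. -/
def Achieves {k : ℕ} (π : Fin k → ℝ) (M : Fin k → Fin k → ℝ) (est : Estimator k) : Prop :=
  ∃ ε : ℝ, 0 < ε ∧
    Tendsto (fun n => prob π M n (fun σ G => (⨆ i, π i) + ε ≤ overlap (est n G) σ)) atTop (𝓝 1)

/-- The estimator maximises the likelihood `P(G | σ')` over all labellings `σ'`. -/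
def IsML {k : ℕ} (M : Fin k → Fin k → ℝ) (est : Estimator k) : Prop :=
  ∀ (n : ℕ) (G : SimpleGraph (Fin n)) (σ' : Fin n → Fin k), lik M G σ' ≤ lik M G (est n G)

/-- The parameters are those of a stochastic block model. -/
structure IsModel {k : ℕ} (π : Fin k → ℝ) (M : Fin k → Fin k → ℝ) : Prop where
  two_le : 2 ≤ k
  pos : ∀ i, 0 < π i
  sum : ∑ i, π i = 1
  nonneg : ∀ i j, 0 ≤ M i j
  symm : ∀ i j, M i j = M j i

/-- A law of the labels (three labels). -/
noncomputable def π0 : Fin 3 → ℝ := ![4 / 5, 1 / 10, 1 / 10]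

/-- A connectivity matrix: diagonal, with diagonal entries `1/100, 20, 1/100`. -/
noncomputable def M0 (i j : Fin 3) : ℝ := if i = j then ![1 / 100, 20, 1 / 100] i else 0

/-- All entries of `π` and `M` are at distance at most `1/10000` from those of `π0` and `M0`. -/
def Near (π : Fin 3 → ℝ) (M : Fin 3 → Fin 3 → ℝ) : Prop :=
  (∀ i, |π i - π0 i| ≤ 1 / 10000) ∧ ∀ i j, |M i j - M0 i j| ≤ 1 / 10000

/-! ### Sums over graphs -/

theorem edgeProb_nonneg {k : ℕ} {M : Fin k → Fin k → ℝ} (hM : ∀ i j, 0 ≤ M i j) (n : ℕ)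
    (i j : Fin k) : 0 ≤ edgeProb M n i j :=
  le_min zero_le_one (div_nonneg (hM i j) (Nat.cast_nonneg n))

theorem edgeProb_le_one {k : ℕ} (M : Fin k → Fin k → ℝ) (n : ℕ)
    (i j : Fin k) : edgeProb M n i j ≤ 1 := min_le_left _ _

theorem lik_nonneg {k n : ℕ} {M : Fin k → Fin k → ℝ} (hM : ∀ i j, 0 ≤ M i j)
    (G : SimpleGraph (Fin n)) (σ : Fin n → Fin k) : 0 ≤ lik M G σ := by
  unfold lik
  refine Finset.prod_nonneg fun e _ => ?_
  split_ifs
  · exact edgeProb_nonneg hM n _ _
  · linarith [edgeProb_le_one M n (σ e.1) (σ e.2)]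

open Classical in
/-- Product formula for sums over graphs. -/
theorem sum_graph {n : ℕ} (x y : Fin n × Fin n → ℝ) :
    ∑ G : SimpleGraph (Fin n), ∏ e ∈ pairs n, (if G.Adj e.1 e.2 then x e else y e) =
      ∏ e ∈ pairs n, (x e + y e) := by
  rw [Finset.prod_add]
  refine Finset.sum_nbij' (fun G => (pairs n).filter (fun e => G.Adj e.1 e.2))
    (fun t => SimpleGraph.fromRel (fun u v => (u, v) ∈ t)) ?_ ?_ ?_ ?_ ?_
  · intro G _
    exact Finset.mem_powerset.2 (Finset.filter_subset _ _)
  · intro t _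
    exact Finset.mem_univ _
  · intro G _
    ext u v
    simp only [SimpleGraph.fromRel_adj, Finset.mem_filter, pairs, Finset.mem_univ, true_and]
    constructor
    · rintro ⟨_, h | h⟩
      · exact h.2
      · exact h.2.symm
    · intro h
      refine ⟨h.ne, ?_⟩
      rcases lt_or_gt_of_ne h.ne with h1 | h1
      · exact Or.inl ⟨h1, h⟩
      · exact Or.inr ⟨h1, h.symm⟩
  · intro t ht
    rw [Finset.mem_powerset] at ht
    ext ⟨u, v⟩
    simp only [SimpleGraph.fromRel_adj, Finset.mem_filter]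
    constructor
    · rintro ⟨h1, h2, h3 | h3⟩
      · exact h3
      · exfalso
        have h4 := ht h3
        simp only [pairs, Finset.mem_filter, Finset.mem_univ, true_and] at h1 h4
        exact absurd h1 (not_lt.2 h4.le)
    · intro h
      have h4 := ht h
      refine ⟨h4, ?_, Or.inl h⟩
      simp only [pairs, Finset.mem_filter, Finset.mem_univ, true_and] at h4
      exact h4.ne
  · intro G _
    rw [← Finset.prod_filter_mul_prod_filter_not (pairs n) (fun e => G.Adj e.1 e.2)]
    congr 1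
    · refine Finset.prod_congr rfl fun e he => ?_
      rw [if_pos (Finset.mem_filter.1 he).2]
    · rw [← Finset.filter_not]
      refine Finset.prod_congr rfl fun e he => ?_
      rw [if_neg (Finset.mem_filter.1 he).2]

theorem sum_lik {k n : ℕ} (M : Fin k → Fin k → ℝ) (σ : Fin n → Fin k) :
    ∑ G : SimpleGraph (Fin n), lik M G σ = 1 := by
  classical
  have h := sum_graph (n := n) (fun e => edgeProb M n (σ e.1) (σ e.2))
    (fun e => 1 - edgeProb M n (σ e.1) (σ e.2))
  have h2 : ∏ e ∈ pairs n, (edgeProb M n (σ e.1) (σ e.2) + (1 - edgeProb M n (σ e.1) (σ e.2))) =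
      1 := by
    refine Finset.prod_eq_one fun e _ => ?_
    ring
  rw [h2] at h
  rw [← h]
  refine Finset.sum_congr rfl fun G _ => ?_
  unfold lik
  refine Finset.prod_congr rfl fun e _ => ?_
  congr

open Classical in
/-- Probability, given the labels, that no pair of `F` is an edge. -/
theorem sum_lik_none {k n : ℕ} (M : Fin k → Fin k → ℝ) (σ : Fin n → Fin k)
    (F : Finset (Fin n × Fin n)) (hF : F ⊆ pairs n) :
    ∑ G : SimpleGraph (Fin n), (if ∀ e ∈ F, ¬ G.Adj e.1 e.2 then lik M G σ else 0) =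
      ∏ e ∈ F, (1 - edgeProb M n (σ e.1) (σ e.2)) := by
  have h := sum_graph (n := n) (fun e => if e ∈ F then 0 else edgeProb M n (σ e.1) (σ e.2))
    (fun e => 1 - edgeProb M n (σ e.1) (σ e.2))
  have h2 : ∏ e ∈ pairs n, ((if e ∈ F then 0 else edgeProb M n (σ e.1) (σ e.2)) +
      (1 - edgeProb M n (σ e.1) (σ e.2))) = ∏ e ∈ F, (1 - edgeProb M n (σ e.1) (σ e.2)) := by
    rw [← Finset.prod_subset hF]
    · refine Finset.prod_congr rfl fun e he => ?_
      rw [if_pos he]; ring
    · intro e _ he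
      rw [if_neg he]; ring
  rw [h2] at h
  rw [← h]
  refine Finset.sum_congr rfl fun G _ => ?_
  split_ifs with h3
  · unfold lik
    refine Finset.prod_congr rfl fun e _ => ?_
    by_cases h4 : G.Adj e.1 e.2
    · have : e ∉ F := fun h5 => h3 e h5 h4
      rw [if_pos h4, if_pos h4, if_neg this]
    · rw [if_neg h4, if_neg h4]
  · push Not at h3
    obtain ⟨e, he, h4⟩ := h3
    symm
    refine Finset.prod_eq_zero (hF he) ?_
    rw [if_pos h4, if_pos he]

/-! ### Isolated vertices -/

/-- The pairs containing the vertex `u`. -/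
def star {n : ℕ} (u : Fin n) : Finset (Fin n × Fin n) :=
  (pairs n).filter (fun e => e.1 = u ∨ e.2 = u)

/-- `u` is an isolated vertex of `G`. -/
def Iso {n : ℕ} (G : SimpleGraph (Fin n)) (u : Fin n) : Prop := ∀ v, ¬ G.Adj u v

theorem iso_iff {n : ℕ} (G : SimpleGraph (Fin n)) (u : Fin n) :
    Iso G u ↔ ∀ e ∈ star u, ¬ G.Adj e.1 e.2 := by
  constructor
  · rintro h ⟨a, b⟩ he hadj
    simp only [star, Finset.mem_filter] at he
    rcases he.2 with h1 | h1
    · subst h1; exact h _ hadj
    · subst h1; exact h _ hadj.symm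
  · intro h v hv
    rcases lt_or_gt_of_ne hv.ne with h1 | h1
    · exact h (u, v) (by simp [star, pairs, h1]) hv
    · exact h (v, u) (by simp [star, pairs, h1]) hv.symm

/-- Probability, given the labels, that `u` is isolated. -/
noncomputable def isoP {k n : ℕ} (M : Fin k → Fin k → ℝ) (σ : Fin n → Fin k) (u : Fin n) : ℝ :=
  ∏ e ∈ star u, (1 - edgeProb M n (σ e.1) (σ e.2))

open Classical in
theorem sum_iso {k n : ℕ} (M : Fin k → Fin k → ℝ) (σ : Fin n → Fin k) (u : Fin n) :
    ∑ G : SimpleGraph (Fin n), (if Iso G u then lik M G σ else 0) = isoP M σ u := by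
  rw [isoP, ← sum_lik_none M σ (star u) (Finset.filter_subset _ _)]
  refine Finset.sum_congr rfl fun G _ => ?_
  by_cases h : Iso G u
  · rw [if_pos h, if_pos ((iso_iff G u).1 h)]
  · rw [if_neg h, if_neg (fun h' => h ((iso_iff G u).2 h'))]

theorem isoP_nonneg {k n : ℕ} (M : Fin k → Fin k → ℝ) (σ : Fin n → Fin k) (u : Fin n) :
    0 ≤ isoP M σ u := by
  refine Finset.prod_nonneg fun e _ => ?_
  linarith [edgeProb_le_one M n (σ e.1) (σ e.2)]

theorem isoP_le_one {k n : ℕ} {M : Fin k → Fin k → ℝ} (hM : ∀ i j, 0 ≤ M i j)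
    (σ : Fin n → Fin k) (u : Fin n) : isoP M σ u ≤ 1 := by
  refine Finset.prod_le_one (fun e _ => ?_) fun e _ => ?_
  · linarith [edgeProb_le_one M n (σ e.1) (σ e.2)]
  · linarith [edgeProb_nonneg hM n (σ e.1) (σ e.2)]

open Classical in
/-- Covariance bound for the indicators of isolated vertices. -/
theorem cov_iso {k n : ℕ} {M : Fin k → Fin k → ℝ} (hM : ∀ i j, 0 ≤ M i j) {C : ℝ}
    (hC : ∀ i j, M i j ≤ C) (σ : Fin n → Fin k) {u w : Fin n} (huw : u ≠ w) :
    ∑ G : SimpleGraph (Fin n), (if Iso G u ∧ Iso G w then lik M G σ else 0) ≤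
      isoP M σ u * isoP M σ w + C / n := by
  have h1 : ∑ G : SimpleGraph (Fin n), (if Iso G u ∧ Iso G w then lik M G σ else 0) =
      ∏ e ∈ star u ∪ star w, (1 - edgeProb M n (σ e.1) (σ e.2)) := by
    rw [← sum_lik_none M σ (star u ∪ star w)
      (Finset.union_subset (Finset.filter_subset _ _) (Finset.filter_subset _ _))]
    refine Finset.sum_congr rfl fun G _ => ?_
    have : (Iso G u ∧ Iso G w) ↔ ∀ e ∈ star u ∪ star w, ¬ G.Adj e.1 e.2 := by
      rw [iso_iff, iso_iff]
      constructor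
      · rintro ⟨h1, h2⟩ e he
        rcases Finset.mem_union.1 he with h | h
        · exact h1 e h
        · exact h2 e h
      · intro h
        exact ⟨fun e he => h e (Finset.mem_union_left _ he),
          fun e he => h e (Finset.mem_union_right _ he)⟩
    by_cases h : Iso G u ∧ Iso G w
    · rw [if_pos h, if_pos (this.1 h)]
    · rw [if_neg h, if_neg (fun h' => h (this.2 h'))]
  rw [h1]
  set P : ℝ := ∏ e ∈ star u ∪ star w, (1 - edgeProb M n (σ e.1) (σ e.2)) with hP
  have hP0 : 0 ≤ P := Finset.prod_nonneg fun e _ => by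
    linarith [edgeProb_le_one M n (σ e.1) (σ e.2)]
  have hP1 : P ≤ 1 := by
    refine Finset.prod_le_one (fun e _ => ?_) fun e _ => ?_
    · linarith [edgeProb_le_one M n (σ e.1) (σ e.2)]
    · linarith [edgeProb_nonneg hM n (σ e.1) (σ e.2)]
  have h2 : P * ∏ e ∈ star u ∩ star w, (1 - edgeProb M n (σ e.1) (σ e.2)) =
      isoP M σ u * isoP M σ w := Finset.prod_union_inter
  obtain ⟨e0, he0⟩ : ∃ e0, star u ∩ star w = {e0} := by
    rcases lt_or_gt_of_ne huw with h | h
    · refine ⟨(u, w), ?_⟩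
      ext ⟨a, b⟩
      simp only [star, pairs, Finset.mem_inter, Finset.mem_filter, Finset.mem_univ, true_and,
        Finset.mem_singleton, Prod.mk.injEq]
      constructor
      · rintro ⟨⟨hab, h2 | h2⟩, ⟨_, h3 | h3⟩⟩
        · exact absurd (h2.symm.trans h3) huw
        · exact ⟨h2, h3⟩
        · subst h2; subst h3; exact absurd h (not_lt.2 hab.le)
        · exact absurd (h2.symm.trans h3) huw
      · rintro ⟨rfl, rfl⟩
        exact ⟨⟨h, Or.inl rfl⟩, ⟨h, Or.inr rfl⟩⟩
    · refine ⟨(w, u), ?_⟩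
      ext ⟨a, b⟩
      simp only [star, pairs, Finset.mem_inter, Finset.mem_filter, Finset.mem_univ, true_and,
        Finset.mem_singleton, Prod.mk.injEq]
      constructor
      · rintro ⟨⟨hab, h2 | h2⟩, ⟨_, h3 | h3⟩⟩
        · exact absurd (h2.symm.trans h3) huw
        · subst h2; subst h3; exact absurd h (not_lt.2 hab.le)
        · exact ⟨h3, h2⟩
        · exact absurd (h2.symm.trans h3) huw
      · rintro ⟨rfl, rfl⟩
        exact ⟨⟨h, Or.inr rfl⟩, ⟨h, Or.inl rfl⟩⟩
  rw [he0, Finset.prod_singleton] at h2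
  have h3 : edgeProb M n (σ e0.1) (σ e0.2) ≤ C / n := by
    refine (min_le_right _ _).trans ?_
    gcongr
    exact hC _ _
  have h4 : 0 ≤ edgeProb M n (σ e0.1) (σ e0.2) := edgeProb_nonneg hM n _ _
  have h5 : P * edgeProb M n (σ e0.1) (σ e0.2) ≤ C / n := by nlinarith
  linarith

open Classical in
/-- Number of isolated vertices in `A`. -/
noncomputable def isoN {n : ℕ} (G : SimpleGraph (Fin n)) (A : Finset (Fin n)) : ℝ :=
  ∑ u ∈ A, if Iso G u then 1 else 0

/-- Variance bound. -/
theorem var_iso {k n : ℕ} {M : Fin k → Fin k → ℝ} (hM : ∀ i j, 0 ≤ M i j) {C : ℝ}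
    (hC : ∀ i j, M i j ≤ C) (hC0 : 0 ≤ C) (σ : Fin n → Fin k) (A : Finset (Fin n)) :
    ∑ G : SimpleGraph (Fin n), lik M G σ * (isoN G A - ∑ u ∈ A, isoP M σ u) ^ 2 ≤
      (1 + C) * n := by
  classical
  set μ : ℝ := ∑ u ∈ A, isoP M σ u with hμ
  have hE1 : ∑ G : SimpleGraph (Fin n), lik M G σ * isoN G A = μ := by
    simp only [isoN, Finset.mul_sum]
    rw [Finset.sum_comm]
    refine Finset.sum_congr rfl fun u _ => ?_
    rw [← sum_iso M σ u]
    refine Finset.sum_congr rfl fun G _ => ?_
    split_ifs <;> simp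
  have hE2 : ∑ G : SimpleGraph (Fin n), lik M G σ * isoN G A ^ 2 =
      ∑ u ∈ A, ∑ w ∈ A, ∑ G : SimpleGraph (Fin n),
        (if Iso G u ∧ Iso G w then lik M G σ else 0) := by
    have h0 : ∀ G : SimpleGraph (Fin n), lik M G σ * isoN G A ^ 2 =
        ∑ u ∈ A, ∑ w ∈ A, (if Iso G u ∧ Iso G w then lik M G σ else 0) := by
      intro G
      rw [isoN, sq, Finset.sum_mul_sum, Finset.mul_sum]
      refine Finset.sum_congr rfl fun u _ => ?_
      rw [Finset.mul_sum]
      refine Finset.sum_congr rfl fun w _ => ?_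
      by_cases h1 : Iso G u <;> by_cases h2 : Iso G w <;> simp [h1, h2]
    rw [Finset.sum_congr rfl (fun G _ => h0 G), Finset.sum_comm]
    refine Finset.sum_congr rfl fun u _ => ?_
    rw [Finset.sum_comm]
  have hb : ∑ G : SimpleGraph (Fin n), lik M G σ * isoN G A ^ 2 ≤ μ ^ 2 + (1 + C) * n := by
    rw [hE2]
    have h1 : ∀ u ∈ A, ∀ w ∈ A, ∑ G : SimpleGraph (Fin n),
        (if Iso G u ∧ Iso G w then lik M G σ else 0) ≤
        isoP M σ u * isoP M σ w + C / n + (if u = w then 1 else 0) := by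
      intro u _ w _
      by_cases huw : u = w
      · subst huw
        rw [if_pos rfl]
        have h2 : ∑ G : SimpleGraph (Fin n), (if Iso G u ∧ Iso G u then lik M G σ else 0) ≤ 1 := by
          rw [← sum_lik M σ]
          refine Finset.sum_le_sum fun G _ => ?_
          split_ifs
          · exact le_rfl
          · exact lik_nonneg hM G σ
        have h3 := mul_nonneg (isoP_nonneg M σ u) (isoP_nonneg M σ u)
        have h4 : 0 ≤ C / n := div_nonneg hC0 (Nat.cast_nonneg n)
        linarith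
      · rw [if_neg huw, add_zero]
        exact cov_iso hM hC σ huw
    refine (Finset.sum_le_sum fun u hu => Finset.sum_le_sum fun w hw => h1 u hu w hw).trans ?_
    simp only [Finset.sum_add_distrib, Finset.sum_const, nsmul_eq_mul]
    have h2 : ∑ u ∈ A, ∑ w ∈ A, isoP M σ u * isoP M σ w = μ ^ 2 := by
      rw [hμ, sq, Finset.sum_mul_sum]
    have h3 : ∑ u ∈ A, ∑ w ∈ A, (if u = w then (1 : ℝ) else 0) = A.card := by
      rw [Finset.sum_congr rfl (fun u hu => by rw [Finset.sum_ite_eq, if_pos hu])]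
      simp
    rw [h2, h3]
    have hA : (A.card : ℝ) ≤ n := by
      have := Finset.card_le_univ A
      rw [Fintype.card_fin] at this
      exact_mod_cast this
    have hA0 : (0 : ℝ) ≤ A.card := Nat.cast_nonneg _
    have h5 : (A.card : ℝ) * (A.card * (C / n)) ≤ C * n := by
      rcases Nat.eq_zero_or_pos n with hn | hn
      · subst hn
        simp
      · have hn' : (0 : ℝ) < n := by exact_mod_cast hn
        have h6 : 0 ≤ C / n := div_nonneg hC0 hn'.le
        calc (A.card : ℝ) * (A.card * (C / n)) ≤ n * (n * (C / n)) := by gcongr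
          _ = C * n := by field_simp
    linarith
  have hexp : ∑ G : SimpleGraph (Fin n), lik M G σ * (isoN G A - μ) ^ 2 =
      ∑ G : SimpleGraph (Fin n), lik M G σ * isoN G A ^ 2 -
      2 * μ * ∑ G : SimpleGraph (Fin n), lik M G σ * isoN G A +
      μ ^ 2 * ∑ G : SimpleGraph (Fin n), lik M G σ := by
    have h0 : ∀ G : SimpleGraph (Fin n), lik M G σ * (isoN G A - μ) ^ 2 =
        lik M G σ * isoN G A ^ 2 - 2 * μ * (lik M G σ * isoN G A) + μ ^ 2 * lik M G σ := by
      intro G; ring
    rw [Finset.sum_congr rfl (fun G _ => h0 G), Finset.sum_add_distrib, Finset.sum_sub_distrib,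
      ← Finset.mul_sum, ← Finset.mul_sum]
  rw [hexp, hE1, sum_lik]
  nlinarith

end Pool.Agent.H996R2.SBM
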