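import Mathlib
import Pool.Agent.H996R2.SBMDefs

set_option autoImplicit false

/-! Second moment bounds for the stochastic block model. -/

open Filter Topology

namespace Pool.Agent.H996R2.SBM

variable {k : ℕ}

theorem prior_nonneg {n : ℕ} {π : Fin k → ℝ} (hπ : ∀ i, 0 ≤ π i) (σ : Fin n → Fin k) :
    0 ≤ prior π σ := Finset.prod_nonneg fun _ _ => hπ _

/-- Product formula for sums over labellings. -/
theorem sum_prior_mul {n : ℕ} (π : Fin k → ℝ) (f : Fin n → Fin k → ℝ) :
    ∑ σ : Fin n → Fin k, prior π σ * ∏ v, f v (σ v) = ∏ v, ∑ j, π j * f v j := by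
  rw [Finset.prod_univ_sum, Fintype.piFinset_univ]
  refine Finset.sum_congr rfl fun σ _ => ?_
  rw [prior, ← Finset.prod_mul_distrib]

theorem sum_prior {n : ℕ} {π : Fin k → ℝ} (hs : ∑ i, π i = 1) :
    ∑ σ : Fin n → Fin k, prior π σ = 1 := by
  have := sum_prior_mul (n := n) π (fun _ _ => 1)
  simp only [Finset.prod_const_one, mul_one, hs] at this
  exact this

/-- Variance of a sum of centred functions of the labels. -/
theorem var_label {n : ℕ} {π : Fin k → ℝ} (hπ : ∀ i, 0 ≤ π i) (hs : ∑ i, π i = 1)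
    (g : Fin k → ℝ) (hg0 : ∑ j, π j * g j = 0) (hg1 : ∀ j, |g j| ≤ 1) :
    ∑ σ : Fin n → Fin k, prior π σ * (∑ v, g (σ v)) ^ 2 ≤ n := by
  classical
  have h0 : ∀ σ : Fin n → Fin k, prior π σ * (∑ v, g (σ v)) ^ 2 =
      ∑ u, ∑ w, prior π σ * ∏ v, ((if v = u then g (σ v) else 1) * (if v = w then g (σ v) else 1)) := by
    intro σ
    rw [sq, Finset.sum_mul_sum, Finset.mul_sum]
    refine Finset.sum_congr rfl fun u _ => ?_
    rw [Finset.mul_sum]
    refine Finset.sum_congr rfl fun w _ => ?_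
    rw [Finset.prod_mul_distrib, Finset.prod_ite_eq', Finset.prod_ite_eq']
    simp
  rw [Finset.sum_congr rfl (fun σ _ => h0 σ), Finset.sum_comm]
  have h1 : ∀ u : Fin n, ∑ σ : Fin n → Fin k, ∑ w : Fin n, prior π σ *
      ∏ v, ((if v = u then g (σ v) else 1) * (if v = w then g (σ v) else 1)) ≤ 1 := by
    intro u
    rw [Finset.sum_comm]
    have h2 : ∀ w : Fin n, ∑ σ : Fin n → Fin k, prior π σ *
      ∏ v, ((if v = u then g (σ v) else 1) * (if v = w then g (σ v) else 1)) ≤
      if w = u then 1 else 0 := by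
      intro w
      rw [sum_prior_mul π (fun v j => (if v = u then g j else 1) * (if v = w then g j else 1))]
      by_cases h : w = u
      · subst h
        rw [if_pos rfl, ← Finset.mul_prod_erase Finset.univ _ (Finset.mem_univ w)]
        have h3 : ∏ x ∈ Finset.univ.erase w, ∑ j, π j * ((if x = w then g j else 1) *
            (if x = w then g j else 1)) = 1 := by
          refine Finset.prod_eq_one fun x hx => ?_
          rw [Finset.mem_erase] at hx
          simp only [hx.1, if_false, mul_one]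
          exact hs
        rw [h3, mul_one]
        simp only [if_true]
        calc ∑ j, π j * (g j * g j) ≤ ∑ j, π j * 1 := by
              refine Finset.sum_le_sum fun j _ => ?_
              refine mul_le_mul_of_nonneg_left ?_ (hπ j)
              have := hg1 j
              rw [← sq, ← sq_abs]
              exact pow_le_one₀ (abs_nonneg _) this
          _ = 1 := by simp [hs]
      · rw [if_neg h]
        have : ∏ v : Fin n, ∑ j, π j * ((if v = u then g j else 1) * (if v = w then g j else 1)) =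
            0 := by
          refine Finset.prod_eq_zero (Finset.mem_univ u) ?_
          have h4 : u ≠ w := fun h' => h h'.symm
          simp only [if_true, h4, if_false, mul_one]
          exact hg0
        rw [this]
    calc ∑ w : Fin n, ∑ σ : Fin n → Fin k, prior π σ *
        ∏ v, ((if v = u then g (σ v) else 1) * (if v = w then g (σ v) else 1))
        ≤ ∑ w : Fin n, (if w = u then (1 : ℝ) else 0) := Finset.sum_le_sum fun w _ => h2 w
      _ = 1 := by simp
  calc ∑ u : Fin n, ∑ σ : Fin n → Fin k, ∑ w : Fin n, prior π σ *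
      ∏ v, ((if v = u then g (σ v) else 1) * (if v = w then g (σ v) else 1))
      ≤ ∑ _u : Fin n, (1 : ℝ) := Finset.sum_le_sum fun u _ => h1 u
    _ = n := by simp

/-! ### The probability of an event -/

section prob
variable {π : Fin k → ℝ} {M : Fin k → Fin k → ℝ} {n : ℕ}

theorem prob_mono (hπ : ∀ i, 0 ≤ π i) (hM : ∀ i j, 0 ≤ M i j)
    {E F : (Fin n → Fin k) → SimpleGraph (Fin n) → Prop}
    (h : ∀ σ G, 0 < lik M G σ → E σ G → F σ G) : prob π M n E ≤ prob π M n F := by
  classical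
  unfold prob
  refine Finset.sum_le_sum fun σ _ => Finset.sum_le_sum fun G _ => ?_
  have h1 := mul_nonneg (prior_nonneg hπ σ) (lik_nonneg hM G σ)
  rcases (lik_nonneg hM G σ).lt_or_eq with h2 | h2
  · by_cases hE : E σ G
    · rw [if_pos hE, if_pos (h σ G h2 hE)]
    · rw [if_neg hE]
      split_ifs
      · exact h1
      · exact le_rfl
  · rw [← h2]
    simp

theorem prob_nonneg (hπ : ∀ i, 0 ≤ π i) (hM : ∀ i j, 0 ≤ M i j)
    (E : (Fin n → Fin k) → SimpleGraph (Fin n) → Prop) : 0 ≤ prob π M n E := by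
  classical
  unfold prob
  refine Finset.sum_nonneg fun σ _ => Finset.sum_nonneg fun G _ => ?_
  split_ifs
  · exact mul_nonneg (prior_nonneg hπ σ) (lik_nonneg hM G σ)
  · exact le_rfl

theorem prob_or (hπ : ∀ i, 0 ≤ π i) (hM : ∀ i j, 0 ≤ M i j)
    (E F : (Fin n → Fin k) → SimpleGraph (Fin n) → Prop) :
    prob π M n (fun σ G => E σ G ∨ F σ G) ≤ prob π M n E + prob π M n F := by
  classical
  unfold prob
  rw [← Finset.sum_add_distrib]
  refine Finset.sum_le_sum fun σ _ => ?_
  rw [← Finset.sum_add_distrib]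
  refine Finset.sum_le_sum fun G _ => ?_
  have h1 := mul_nonneg (prior_nonneg hπ σ) (lik_nonneg hM G σ)
  by_cases hE : E σ G <;> by_cases hF : F σ G <;> simp [hE, hF, h1]

theorem prob_compl (hs : ∑ i, π i = 1) (E : (Fin n → Fin k) → SimpleGraph (Fin n) → Prop) :
    prob π M n E = 1 - prob π M n (fun σ G => ¬ E σ G) := by
  classical
  have h : prob π M n E + prob π M n (fun σ G => ¬ E σ G) = 1 := by
    unfold prob
    rw [← Finset.sum_add_distrib]
    rw [← sum_prior (n := n) hs]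
    refine Finset.sum_congr rfl fun σ _ => ?_
    rw [← Finset.sum_add_distrib]
    refine (Finset.sum_congr rfl fun G _ => ?_).trans
      (show ∑ G : SimpleGraph (Fin n), prior π σ * lik M G σ = prior π σ by
        rw [← Finset.mul_sum, sum_lik, mul_one])
    by_cases hE : E σ G <;> simp [hE]
  linarith

theorem prob_le_one (hπ : ∀ i, 0 ≤ π i) (hM : ∀ i j, 0 ≤ M i j) (hs : ∑ i, π i = 1)
    (E : (Fin n → Fin k) → SimpleGraph (Fin n) → Prop) : prob π M n E ≤ 1 := by
  rw [prob_compl hs]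
  linarith [prob_nonneg hπ hM (fun σ G => ¬ E σ G)]

theorem prob_cheb (hπ : ∀ i, 0 ≤ π i) (hM : ∀ i j, 0 ≤ M i j)
    (F : (Fin n → Fin k) → SimpleGraph (Fin n) → ℝ) {V s : ℝ} (hs : 0 < s)
    (hV : ∑ σ : Fin n → Fin k, prior π σ * ∑ G : SimpleGraph (Fin n), lik M G σ * F σ G ^ 2 ≤ V) :
    prob π M n (fun σ G => s ≤ |F σ G|) ≤ V / s ^ 2 := by
  classical
  rw [le_div_iff₀ (by positivity)]
  refine le_trans ?_ hV
  unfold prob
  rw [Finset.sum_mul]
  refine Finset.sum_le_sum fun σ _ => ?_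
  rw [Finset.sum_mul, Finset.mul_sum]
  refine Finset.sum_le_sum fun G _ => ?_
  have h1 := mul_nonneg (prior_nonneg hπ σ) (lik_nonneg hM G σ)
  split_ifs with h
  · rw [mul_assoc]
    refine mul_le_mul_of_nonneg_left ?_ (prior_nonneg hπ σ)
    refine mul_le_mul_of_nonneg_left ?_ (lik_nonneg hM G σ)
    rw [← sq_abs (F σ G)]
    exact pow_le_pow_left₀ hs.le h 2
  · rw [zero_mul, ← mul_assoc]
    exact mul_nonneg h1 (sq_nonneg _)

end prob

/-- Number of vertices with label `i`. -/
def cnt {n : ℕ} (σ : Fin n → Fin k) (i : Fin k) : ℕ :=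
  (Finset.univ.filter (fun v => σ v = i)).card

theorem cheb_label {π : Fin k → ℝ} {M : Fin k → Fin k → ℝ} {n : ℕ} (hn : 0 < n)
    (hπ : ∀ i, 0 ≤ π i) (hs : ∑ i, π i = 1) (hM : ∀ i j, 0 ≤ M i j) (i : Fin k) {t : ℝ}
    (ht : 0 < t) :
    prob π M n (fun σ _ => t * n ≤ |(cnt σ i : ℝ) - π i * n|) ≤ 1 / (t ^ 2 * n) := by
  classical
  have hn' : (0 : ℝ) < n := by exact_mod_cast hn
  have hπ1 : π i ≤ 1 := by
    rw [← hs]
    exact Finset.single_le_sum (fun j _ => hπ j) (Finset.mem_univ i)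
  have h := prob_cheb (n := n) hπ hM (fun σ _ => (cnt σ i : ℝ) - π i * n) (V := n) (s := t * n)
    (by positivity) (by
      have e : ∀ σ : Fin n → Fin k, (cnt σ i : ℝ) - π i * n =
          ∑ v, ((if σ v = i then (1 : ℝ) else 0) - π i) := by
        intro σ
        rw [Finset.sum_sub_distrib, Finset.sum_boole, cnt]
        simp [mul_comm]
      have h1 := var_label (n := n) hπ hs (fun j => (if j = i then (1 : ℝ) else 0) - π i) (by
        simp only [mul_sub, Finset.sum_sub_distrib, mul_ite, mul_one, mul_zero,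
          Finset.sum_ite_eq', Finset.mem_univ, if_true, ← Finset.sum_mul, hs]
        ring) (by
        intro j
        have := hπ i
        rw [abs_le]
        split_ifs <;> constructor <;> linarith)
      refine le_trans (le_of_eq ?_) h1
      refine Finset.sum_congr rfl fun σ _ => ?_
      rw [e σ, ← Finset.sum_mul, sum_lik, one_mul])
  refine h.trans (le_of_eq ?_)
  field_simp

theorem cheb_iso {π : Fin k → ℝ} {M : Fin k → Fin k → ℝ} {n : ℕ} (hn : 0 < n)
    (hπ : ∀ i, 0 ≤ π i) (hs : ∑ i, π i = 1) (hM : ∀ i j, 0 ≤ M i j) {C : ℝ}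
    (hC : ∀ i j, M i j ≤ C) (hC0 : 0 ≤ C) (i : Fin k) {t : ℝ} (ht : 0 < t) :
    prob π M n (fun σ G => t * n ≤ |isoN G (Finset.univ.filter (fun v => σ v = i)) -
      ∑ u ∈ Finset.univ.filter (fun v => σ v = i), isoP M σ u|) ≤ (1 + C) / (t ^ 2 * n) := by
  have hn' : (0 : ℝ) < n := by exact_mod_cast hn
  have h := prob_cheb (n := n) hπ hM (fun σ G => isoN G (Finset.univ.filter (fun v => σ v = i)) -
      ∑ u ∈ Finset.univ.filter (fun v => σ v = i), isoP M σ u) (V := (1 + C) * n) (s := t * n)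
    (by positivity) (by
      calc ∑ σ : Fin n → Fin k, prior π σ * ∑ G : SimpleGraph (Fin n), lik M G σ *
            (isoN G (Finset.univ.filter (fun v => σ v = i)) -
              ∑ u ∈ Finset.univ.filter (fun v => σ v = i), isoP M σ u) ^ 2
          ≤ ∑ σ : Fin n → Fin k, prior π σ * ((1 + C) * n) := by
            refine Finset.sum_le_sum fun σ _ => ?_
            exact mul_le_mul_of_nonneg_left (var_iso hM hC hC0 σ _) (prior_nonneg hπ σ)
        _ = (1 + C) * n := by rw [← Finset.sum_mul, sum_prior hs, one_mul])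
  refine h.trans (le_of_eq ?_)
  field_simp

/-! ### Products over the pairs containing a vertex -/

/-- The ordered version of the pair `{u, v}`. -/
def pr {n : ℕ} (u v : Fin n) : Fin n × Fin n := if u < v then (u, v) else (v, u)

theorem star_prod {n : ℕ} (u : Fin n) (f : Fin n × Fin n → ℝ) :
    ∏ e ∈ star u, f e = ∏ v ∈ Finset.univ.erase u, f (pr u v) := by
  symm
  refine Finset.prod_nbij' (fun v => pr u v) (fun e => if e.1 = u then e.2 else e.1) ?_ ?_ ?_ ?_ ?_
  · intro v hv
    rw [Finset.mem_erase] at hv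
    rcases lt_or_gt_of_ne hv.1 with h | h
    · simp [pr, star, pairs, not_lt.2 h.le, h]
    · simp [pr, star, pairs, h]
  · rintro ⟨a, b⟩ he
    simp only [star, pairs, Finset.mem_filter, Finset.mem_univ, true_and] at he
    obtain ⟨h1, h2⟩ := he
    rw [Finset.mem_erase]
    refine ⟨?_, Finset.mem_univ _⟩
    dsimp only
    split_ifs with h3
    · subst h3; exact h1.ne'
    · exact h3
  · intro v hv
    rw [Finset.mem_erase] at hv
    rcases lt_or_gt_of_ne hv.1 with h | h
    · simp [pr, not_lt.2 h.le, hv.1]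
    · simp [pr, h]
  · rintro ⟨a, b⟩ he
    simp only [star, pairs, Finset.mem_filter, Finset.mem_univ, true_and] at he
    obtain ⟨h1, h2⟩ := he
    dsimp only
    split_ifs with h3
    · subst h3; simp [pr, h1]
    · have h4 : b = u := h2.resolve_left h3
      subst h4
      simp [pr, not_lt.2 h1.le]
  · intro v _
    rfl

theorem edge_pr {n : ℕ} {M : Fin k → Fin k → ℝ} (hsym : ∀ i j, M i j = M j i)
    (σ : Fin n → Fin k) (u v : Fin n) :
    edgeProb M n (σ (pr u v).1) (σ (pr u v).2) = edgeProb M n (σ u) (σ v) := by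
  unfold pr
  split_ifs
  · rfl
  · simp only [edgeProb, hsym (σ v) (σ u)]

/-! ### Relabelling an isolated vertex -/

theorem isoP_eq {n : ℕ} {M : Fin k → Fin k → ℝ} (hsym : ∀ i j, M i j = M j i)
    (σ : Fin n → Fin k) (u : Fin n) :
    isoP M σ u = ∏ v ∈ Finset.univ.erase u, (1 - edgeProb M n (σ u) (σ v)) := by
  unfold isoP
  rw [star_prod]
  simp only [edge_pr hsym]

theorem exp_le_one_sub {y : ℝ} (h0 : 0 ≤ y) (h1 : y ≤ 1 / 2) :
    Real.exp (-(y + 2 * y ^ 2)) ≤ 1 - y := by
  rw [Real.exp_neg]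
  have h2 : 1 + (y + 2 * y ^ 2) ≤ Real.exp (y + 2 * y ^ 2) := by
    linarith [Real.add_one_le_exp (y + 2 * y ^ 2)]
  have h3 : 1 ≤ (1 - y) * (1 + (y + 2 * y ^ 2)) := by nlinarith [sq_nonneg y]
  have h4 : 0 < 1 + (y + 2 * y ^ 2) := by positivity
  calc (Real.exp (y + 2 * y ^ 2))⁻¹ ≤ (1 + (y + 2 * y ^ 2))⁻¹ := by gcongr
    _ ≤ 1 - y := by
        rw [inv_le_iff_one_le_mul₀ h4]
        exact h3

/-- Relabelling an isolated vertex. -/
theorem lik_update {n : ℕ} {M : Fin k → Fin k → ℝ} (hsym : ∀ i j, M i j = M j i)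
    (hM : ∀ i j, 0 ≤ M i j) {C : ℝ} (hC : ∀ i j, M i j ≤ C) (hC0 : 0 < C) (hn : 2 * C ≤ n)
    (G : SimpleGraph (Fin n)) (σ : Fin n → Fin k)
    (u : Fin n) (hu : Iso G u) (i : Fin k)
    (hD : 2 * C ^ 2 < ∑ v ∈ Finset.univ.erase u, (M (σ u) (σ v) - M i (σ v)))
    (hpos : 0 < lik M G σ) :
    lik M G σ < lik M G (Function.update σ u i) := by
  classical
  have hn0 : (0 : ℝ) < n := by linarith
  set σ₂ : Fin n → Fin k := Function.update σ u i with hσ₂
  -- splitting the product
  have hsplit : ∀ s : Fin n → Fin k, lik M G s =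
      (∏ e ∈ star u, (1 - edgeProb M n (s e.1) (s e.2))) *
      ∏ e ∈ pairs n \ star u, (if G.Adj e.1 e.2 then edgeProb M n (s e.1) (s e.2)
        else 1 - edgeProb M n (s e.1) (s e.2)) := by
    intro s
    have h1 : ∏ e ∈ star u, (1 - edgeProb M n (s e.1) (s e.2)) =
        ∏ e ∈ star u, (if G.Adj e.1 e.2 then edgeProb M n (s e.1) (s e.2)
        else 1 - edgeProb M n (s e.1) (s e.2)) := by
      refine Finset.prod_congr rfl fun e he => ?_
      rw [if_neg ((iso_iff G u).1 hu e he)]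
    rw [h1, mul_comm, Finset.prod_sdiff (show star u ⊆ pairs n from Finset.filter_subset _ _)]
    unfold lik
    refine Finset.prod_congr rfl fun e _ => ?_
    congr
  set R : ℝ := ∏ e ∈ pairs n \ star u, (if G.Adj e.1 e.2 then edgeProb M n (σ e.1) (σ e.2)
        else 1 - edgeProb M n (σ e.1) (σ e.2)) with hR
  have hR2 : ∏ e ∈ pairs n \ star u, (if G.Adj e.1 e.2 then edgeProb M n (σ₂ e.1) (σ₂ e.2)
        else 1 - edgeProb M n (σ₂ e.1) (σ₂ e.2)) = R := by
    refine Finset.prod_congr rfl fun e he => ?_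
    rw [Finset.mem_sdiff] at he
    have h1 : e.1 ≠ u := fun h => he.2 (Finset.mem_filter.2 ⟨he.1, Or.inl h⟩)
    have h2 : e.2 ≠ u := fun h => he.2 (Finset.mem_filter.2 ⟨he.1, Or.inr h⟩)
    rw [hσ₂, Function.update_of_ne h1, Function.update_of_ne h2]
  have hmin : ∀ a b, edgeProb M n a b = M a b / n := by
    intro a b
    refine min_eq_right ((div_le_one hn0).2 ?_)
    have := hC a b
    linarith
  -- the two products
  have hA : ∏ e ∈ star u, (1 - edgeProb M n (σ e.1) (σ e.2)) =
      ∏ v ∈ Finset.univ.erase u, (1 - M (σ u) (σ v) / n) := by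
    have := isoP_eq hsym σ u
    unfold isoP at this
    rw [this]
    refine Finset.prod_congr rfl fun v _ => ?_
    rw [hmin]
  have hA2 : ∏ e ∈ star u, (1 - edgeProb M n (σ₂ e.1) (σ₂ e.2)) =
      ∏ v ∈ Finset.univ.erase u, (1 - M i (σ v) / n) := by
    have := isoP_eq hsym σ₂ u
    unfold isoP at this
    rw [this]
    refine Finset.prod_congr rfl fun v hv => ?_
    have h1 : σ₂ u = i := by rw [hσ₂, Function.update_self]
    have h2 : σ₂ v = σ v := by rw [hσ₂, Function.update_of_ne (Finset.mem_erase.1 hv).1]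
    rw [hmin, h1, h2]
  have h1 := hsplit σ
  have h2 := hsplit σ₂
  rw [hR2, hA2] at h2
  rw [hA, ← hR] at h1
  rw [h1, h2]
  have hy : ∀ a b, M a b / n ≤ 1 / 2 := by
    intro a b
    rw [div_le_iff₀ hn0]
    have := hC a b
    linarith
  have hy0 : ∀ a b, 0 ≤ M a b / n := fun a b => div_nonneg (hM a b) hn0.le
  have hRpos : 0 < R := by
    rw [h1] at hpos
    refine pos_of_mul_pos_right hpos (Finset.prod_nonneg fun v _ => ?_)
    linarith [hy (σ u) (σ v)]
  refine mul_lt_mul_of_pos_right ?_ hRpos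
  have hup : ∏ v ∈ Finset.univ.erase u, (1 - M (σ u) (σ v) / n) ≤
      Real.exp (-∑ v ∈ Finset.univ.erase u, M (σ u) (σ v) / n) := by
    rw [← Finset.sum_neg_distrib, Real.exp_sum]
    refine Finset.prod_le_prod (fun v _ => ?_) (fun v _ => ?_)
    · linarith [hy (σ u) (σ v)]
    · exact Real.one_sub_le_exp_neg _
  have hlow : Real.exp (-∑ v ∈ Finset.univ.erase u, (M i (σ v) / n + 2 * (M i (σ v) / n) ^ 2)) ≤
      ∏ v ∈ Finset.univ.erase u, (1 - M i (σ v) / n) := by
    rw [← Finset.sum_neg_distrib, Real.exp_sum]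
    refine Finset.prod_le_prod (fun v _ => (Real.exp_pos _).le) (fun v _ => ?_)
    exact exp_le_one_sub (hy0 _ _) (hy _ _)
  refine hup.trans_lt (lt_of_lt_of_le ?_ hlow)
  rw [Real.exp_lt_exp, neg_lt_neg_iff, Finset.sum_add_distrib]
  have h3 : ∑ v ∈ Finset.univ.erase u, 2 * (M i (σ v) / n) ^ 2 ≤ 2 * C ^ 2 / n := by
    have h4 : ∀ v ∈ Finset.univ.erase u, 2 * (M i (σ v) / n) ^ 2 ≤ 2 * (C / n) ^ 2 := by
      intro v _
      have h5 : M i (σ v) / n ≤ C / n := by
        gcongr
        exact hC _ _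
      have h6 := pow_le_pow_left₀ (hy0 i (σ v)) h5 2
      linarith
    refine (Finset.sum_le_card_nsmul _ _ _ h4).trans ?_
    rw [nsmul_eq_mul]
    have h5 : ((Finset.univ.erase u).card : ℝ) ≤ n := by
      have : (Finset.univ.erase u).card ≤ Fintype.card (Fin n) := Finset.card_le_univ _
      rw [Fintype.card_fin] at this
      exact_mod_cast this
    calc ((Finset.univ.erase u).card : ℝ) * (2 * (C / n) ^ 2) ≤ n * (2 * (C / n) ^ 2) := by gcongr
      _ = 2 * C ^ 2 / n := by field_simp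
  have h4 : 2 * C ^ 2 / n < (∑ v ∈ Finset.univ.erase u, (M (σ u) (σ v) - M i (σ v))) / n := by
    gcongr
  rw [Finset.sum_div] at h4
  have h5 : ∑ v ∈ Finset.univ.erase u, (M (σ u) (σ v) - M i (σ v)) / n =
      ∑ v ∈ Finset.univ.erase u, M (σ u) (σ v) / n - ∑ v ∈ Finset.univ.erase u, M i (σ v) / n := by
    rw [← Finset.sum_sub_distrib]
    refine Finset.sum_congr rfl fun v _ => ?_
    ring
  linarith

end Pool.Agent.H996R2.SBM
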