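import Mathlib
import Pool.Agent.H996R2.SBMDefs
import Pool.Agent.H996R2.SBMProb

set_option autoImplicit false

/-! Block models in which maximum likelihood fails. -/

open Filter Topology

namespace Pool.Agent.H996R2.SBM

theorem π0_sum : ∑ i, π0 i = 1 := by
  rw [Fin.sum_univ_three]
  show (4 / 5 : ℝ) + 1 / 10 + 1 / 10 = 1
  norm_num

theorem M0_cases (i j : Fin 3) : (i ≠ j → M0 i j = 0) ∧ (0 ≤ M0 i j) ∧ M0 i j ≤ 20 ∧
    M0 i j = M0 j i ∧ (i = j → 1 / 100 ≤ M0 i j) := by
  refine ⟨fun h => by rw [M0, if_neg h], ?_, ?_, ?_, ?_⟩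
  · unfold M0
    split_ifs
    · fin_cases i <;> norm_num
    · exact le_rfl
  · unfold M0
    split_ifs
    · fin_cases i <;> norm_num
    · norm_num
  · by_cases h : i = j
    · subst h; rfl
    · rw [M0, M0, if_neg h, if_neg (fun h' => h h'.symm)]
  · rintro rfl
    rw [M0, if_pos rfl]
    fin_cases i <;> norm_num

theorem isModel0 : IsModel π0 M0 where
  two_le := by norm_num
  pos := fun i => by fin_cases i <;> norm_num [π0]
  sum := π0_sum
  nonneg := fun i j => (M0_cases i j).2.1
  symm := fun i j => (M0_cases i j).2.2.2.1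

theorem near0 : Near π0 M0 := by
  constructor
  · intro i; rw [sub_self, abs_zero]; norm_num
  · intro i j; rw [sub_self, abs_zero]; norm_num

section near

variable {π : Fin 3 → ℝ} {M : Fin 3 → Fin 3 → ℝ}

theorem near_π (hN : Near π M) : (7999 / 10000 ≤ π 0 ∧ π 0 ≤ 8001 / 10000) ∧
    (999 / 10000 ≤ π 1 ∧ π 1 ≤ 1001 / 10000) ∧ (999 / 10000 ≤ π 2 ∧ π 2 ≤ 1001 / 10000) := by
  have h0 := abs_le.1 (hN.1 0)
  have h1 := abs_le.1 (hN.1 1)
  have h2 := abs_le.1 (hN.1 2)
  have e0 : π0 0 = 4 / 5 := rfl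
  have e1 : π0 1 = 1 / 10 := rfl
  have e2 : π0 2 = 1 / 10 := rfl
  rw [e0] at h0
  rw [e1] at h1
  rw [e2] at h2
  refine ⟨⟨?_, ?_⟩, ⟨?_, ?_⟩, ⟨?_, ?_⟩⟩ <;> linarith [h0.1, h0.2, h1.1, h1.2, h2.1, h2.2]

theorem near_sup (hN : Near π M) : ⨆ i, π i = π 0 := by
  obtain ⟨h0, h1, h2⟩ := near_π hN
  apply le_antisymm
  · refine ciSup_le fun i => ?_
    fin_cases i
    · exact le_rfl
    · show π 1 ≤ π 0
      linarith
    · show π 2 ≤ π 0
      linarith
  · exact le_ciSup (Set.finite_range π).bddAbove 0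

theorem near_le (hN : Near π M) (i j : Fin 3) : M i j ≤ 21 := by
  have := (abs_le.1 (hN.2 i j)).2
  have h2 := (M0_cases i j).2.2.1
  linarith

theorem near_off (hN : Near π M) {i j : Fin 3} (h : i ≠ j) : M i j ≤ 1 / 10000 := by
  have := (abs_le.1 (hN.2 i j)).2
  have h2 := (M0_cases i j).1 h
  linarith

theorem near_diag (hN : Near π M) (i : Fin 3) : 99 / 10000 ≤ M i i := by
  have := (abs_le.1 (hN.2 i i)).1
  have h2 := (M0_cases i i).2.2.2.2 rfl
  linarith

theorem near_00 (hN : Near π M) : M 0 0 ≤ 101 / 10000 := by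
  have := (abs_le.1 (hN.2 0 0)).2
  have h2 : M0 0 0 = 1 / 100 := rfl
  linarith

theorem near_22 (hN : Near π M) : M 2 2 ≤ 101 / 10000 := by
  have := (abs_le.1 (hN.2 2 2)).2
  have h2 : M0 2 2 = 1 / 100 := rfl
  linarith

theorem near_11 (hN : Near π M) : 19 ≤ M 1 1 := by
  have := (abs_le.1 (hN.2 1 1)).1
  have h2 : M0 1 1 = 20 := rfl
  linarith

/-- The bad event: one of the four laws of large numbers fails. -/
def Bad (π : Fin 3 → ℝ) (M : Fin 3 → Fin 3 → ℝ) {n : ℕ} (σ : Fin n → Fin 3)
    (G : SimpleGraph (Fin n)) : Prop :=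
  ((1 / 1000 : ℝ) * n ≤ |(cnt σ 0 : ℝ) - π 0 * n| ∨
    (1 / 1000 : ℝ) * n ≤ |(cnt σ 1 : ℝ) - π 1 * n|) ∨
  ((1 / 1000 : ℝ) * n ≤ |isoN G (Finset.univ.filter (fun v => σ v = 0)) -
      ∑ u ∈ Finset.univ.filter (fun v => σ v = 0), isoP M σ u| ∨
    (1 / 1000 : ℝ) * n ≤ |isoN G (Finset.univ.filter (fun v => σ v = 1)) -
      ∑ u ∈ Finset.univ.filter (fun v => σ v = 1), isoP M σ u|)

theorem prob_bad (hIM : IsModel π M) (hN : Near π M) {n : ℕ} (hn : 0 < n) :
    prob π M n (fun σ G => Bad π M σ G) ≤ 46000000 / n := by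
  have hπ : ∀ i, 0 ≤ π i := fun i => (hIM.pos i).le
  have hM := hIM.nonneg
  have h1 := cheb_label (π := π) (M := M) hn hπ hIM.sum hM 0
    (t := 1 / 1000) (by norm_num)
  have h2 := cheb_label (π := π) (M := M) hn hπ hIM.sum hM 1
    (t := 1 / 1000) (by norm_num)
  have h3 := cheb_iso (π := π) (M := M) hn hπ hIM.sum hM (near_le hN)
    (by norm_num) 0 (t := 1 / 1000) (by norm_num)
  have h4 := cheb_iso (π := π) (M := M) hn hπ hIM.sum hM (near_le hN)
    (by norm_num) 1 (t := 1 / 1000) (by norm_num)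
  have hn' : (0 : ℝ) < n := by exact_mod_cast hn
  have e1 : (1 : ℝ) / ((1 / 1000) ^ 2 * n) = 1000000 / n := by field_simp; norm_num
  have e2 : (1 + 21 : ℝ) / ((1 / 1000) ^ 2 * n) = 22000000 / n := by field_simp; norm_num
  rw [e1] at h1 h2
  rw [e2] at h3 h4
  refine (prob_or hπ hM _ _).trans ?_
  have h5 := prob_or (n := n) (π := π) (M := M) hπ hM
    (fun σ _ => (1 / 1000 : ℝ) * n ≤ |(cnt σ 0 : ℝ) - π 0 * n|)
    (fun σ _ => (1 / 1000 : ℝ) * n ≤ |(cnt σ 1 : ℝ) - π 1 * n|)
  have h6 := prob_or (n := n) (π := π) (M := M) hπ hM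
    (fun σ G => (1 / 1000 : ℝ) * n ≤ |isoN G (Finset.univ.filter (fun v => σ v = 0)) -
      ∑ u ∈ Finset.univ.filter (fun v => σ v = 0), isoP M σ u|)
    (fun σ G => (1 / 1000 : ℝ) * n ≤ |isoN G (Finset.univ.filter (fun v => σ v = 1)) -
      ∑ u ∈ Finset.univ.filter (fun v => σ v = 1), isoP M σ u|)
  refine (add_le_add h5 h6).trans ?_
  have e3 : (46000000 : ℝ) / n = (1000000 / n + 1000000 / n) + (22000000 / n + 22000000 / n) := by
    field_simp; norm_num
  rw [e3]
  exact add_le_add (add_le_add h1 h2) (add_le_add h3 h4)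

theorem cnt_le {n : ℕ} (σ : Fin n → Fin 3) (i : Fin 3) : (cnt σ i : ℝ) ≤ n := by
  have h5 : cnt σ i ≤ Fintype.card (Fin n) := Finset.card_le_univ _
  rw [Fintype.card_fin] at h5
  exact_mod_cast h5

/-- On the good event, most of the vertices labelled `0` are isolated. -/
theorem good_zero (hIM : IsModel π M) (hN : Near π M) {n : ℕ} (hn : 0 < n)
    {σ : Fin n → Fin 3} {G : SimpleGraph (Fin n)}
    (h : ¬ Bad π M σ G) :
    (789 / 1000 : ℝ) * n ≤ isoN G (Finset.univ.filter (fun v => σ v = 0)) ∧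
    (7989 / 10000 : ℝ) * n ≤ cnt σ 0 ∧ (cnt σ 0 : ℝ) ≤ (8011 / 10000) * n := by
  unfold Bad at h
  push Not at h
  obtain ⟨⟨h1, _⟩, ⟨h3, _⟩⟩ := h
  obtain ⟨⟨hπ1, hπ2⟩, _, _⟩ := near_π hN
  rw [abs_lt] at h1 h3
  have hn' : (0 : ℝ) < n := by exact_mod_cast hn
  have hc := cnt_le σ 0
  have hsum : (9899 / 10000 : ℝ) * cnt σ 0 ≤
      ∑ u ∈ Finset.univ.filter (fun v => σ v = 0), isoP M σ u := by
    have : ∀ u ∈ Finset.univ.filter (fun v => σ v = 0), (9899 / 10000 : ℝ) ≤ isoP M σ u := by
      intro u hu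
      have hu0 : σ u = 0 := (Finset.mem_filter.1 hu).2
      rw [isoP_eq hIM.symm, hu0]
      set q : ℝ := min 1 ((101 / 10000 : ℝ) / n) with hq
      have h5 : q ≤ (101 / 10000) / n := min_le_right _ _
      have h6 : q ≤ 1 := min_le_left _ _
      have h9 : 0 ≤ q := le_min zero_le_one (by positivity)
      have hfac : ∀ v ∈ Finset.univ.erase u, 1 - q ≤ 1 - edgeProb M n 0 (σ v) := by
        intro v _
        have : edgeProb M n 0 (σ v) ≤ q := by
          refine min_le_min le_rfl ?_
          have h7 : M 0 (σ v) ≤ 101 / 10000 := by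
            by_cases h8 : (0 : Fin 3) = σ v
            · rw [← h8]; exact near_00 hN
            · exact (near_off hN h8).trans (by norm_num)
          gcongr
        linarith
      have h10 : (1 - q) ^ (Finset.univ.erase u).card ≤
          ∏ v ∈ Finset.univ.erase u, (1 - edgeProb M n 0 (σ v)) := by
        rw [← Finset.prod_const]
        exact Finset.prod_le_prod (fun v _ => by linarith) hfac
      refine le_trans ?_ h10
      have h7 := one_add_mul_le_pow (a := -q) (by linarith) ((Finset.univ.erase u).card)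
      rw [← sub_eq_add_neg 1 q] at h7
      refine le_trans ?_ h7
      have h8 : ((Finset.univ.erase u).card : ℝ) ≤ n := by
        have : (Finset.univ.erase u).card ≤ Fintype.card (Fin n) := Finset.card_le_univ _
        rw [Fintype.card_fin] at this
        exact_mod_cast this
      have h11 : ((Finset.univ.erase u).card : ℝ) * q ≤ n * ((101 / 10000) / n) := by
        gcongr
      have h12 : (n : ℝ) * ((101 / 10000) / n) = 101 / 10000 := by field_simp
      linarith
    have h5 := Finset.card_nsmul_le_sum _ _ _ this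
    rw [nsmul_eq_mul] at h5
    unfold cnt
    linarith
  have hπn1 : (7999 / 10000 : ℝ) * n ≤ π 0 * n := by gcongr
  have hπn2 : π 0 * n ≤ (8001 / 10000 : ℝ) * n := by gcongr
  refine ⟨?_, ?_, ?_⟩ <;> linarith

/-- On the good event, at least half of the vertices labelled `1` are not isolated. -/
theorem good_one (hIM : IsModel π M) (hN : Near π M) {n : ℕ} (hn : 40 ≤ n)
    {σ : Fin n → Fin 3} {G : SimpleGraph (Fin n)}
    (h : ¬ Bad π M σ G) :
    (48 / 1000 : ℝ) * n ≤ cnt σ 1 - isoN G (Finset.univ.filter (fun v => σ v = 1)) := by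
  unfold Bad at h
  push Not at h
  obtain ⟨⟨_, h1⟩, ⟨_, h3⟩⟩ := h
  obtain ⟨_, ⟨hπ1, hπ2⟩, _⟩ := near_π hN
  rw [abs_lt] at h1 h3
  have hn0 : (40 : ℝ) ≤ n := by exact_mod_cast hn
  have hn' : (0 : ℝ) < n := by linarith
  have hπn1 : (999 / 10000 : ℝ) * n ≤ π 1 * n := by gcongr
  have hsum : ∑ u ∈ Finset.univ.filter (fun v => σ v = 1), isoP M σ u ≤
      (1 / 2 : ℝ) * cnt σ 1 := by
    have : ∀ u ∈ Finset.univ.filter (fun v => σ v = 1), isoP M σ u ≤ (1 / 2 : ℝ) := by
      intro u hu
      have hu1 : σ u = 1 := (Finset.mem_filter.1 hu).2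
      rw [isoP_eq hIM.symm, hu1]
      set p : ℝ := 19 / n with hp
      have hp0 : 0 < p := by positivity
      have hp1 : p ≤ 1 / 2 := by
        rw [hp, div_le_iff₀ hn']; linarith
      have hfac : ∀ v ∈ Finset.univ.erase u, (1 - edgeProb M n 1 (σ v)) ≤
          if σ v = 1 then 1 - p else 1 := by
        intro v _
        split_ifs with hv
        · have : p ≤ edgeProb M n 1 (σ v) := by
            refine le_min (by linarith) ?_
            rw [hv, hp]
            have := near_11 hN
            gcongr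
          linarith
        · linarith [edgeProb_nonneg hIM.nonneg n 1 (σ v)]
      have h5 : ∏ v ∈ Finset.univ.erase u, (1 - edgeProb M n 1 (σ v)) ≤
          ∏ v ∈ Finset.univ.erase u, (if σ v = 1 then 1 - p else 1) :=
        Finset.prod_le_prod (fun v _ => by linarith [edgeProb_le_one M n 1 (σ v)]) hfac
      rw [← Finset.prod_filter, Finset.prod_const] at h5
      have hcard : ((Finset.univ.erase u).filter (fun v => σ v = 1)).card = cnt σ 1 - 1 := by
        have : (Finset.univ.erase u).filter (fun v => σ v = 1) =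
            (Finset.univ.filter (fun v => σ v = 1)).erase u := by
          ext v; simp [Finset.mem_filter, Finset.mem_erase]
        rw [this, Finset.card_erase_of_mem (by simpa using hu1), cnt]
      rw [hcard] at h5
      refine h5.trans ?_
      have h6 : (1 - p) ^ (cnt σ 1 - 1) * (1 + p) ^ (cnt σ 1 - 1) ≤ 1 := by
        rw [← mul_pow]
        exact pow_le_one₀ (by nlinarith) (by nlinarith)
      have h7 := one_add_mul_le_pow (a := p) (by linarith) (cnt σ 1 - 1)
      have h8 : (98 / 1000 : ℝ) * n - 1 ≤ ((cnt σ 1 - 1 : ℕ) : ℝ) := by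
        have h9 : (cnt σ 1 : ℝ) ≤ ((cnt σ 1 - 1 : ℕ) : ℝ) + 1 := by
          have : cnt σ 1 ≤ (cnt σ 1 - 1) + 1 := by omega
          exact_mod_cast this
        linarith
      have h10 : (1 : ℝ) ≤ ((cnt σ 1 - 1 : ℕ) : ℝ) * p := by
        have h11 : ((98 / 1000 : ℝ) * n - 1) * p ≤ ((cnt σ 1 - 1 : ℕ) : ℝ) * p :=
          mul_le_mul_of_nonneg_right h8 hp0.le
        have h12 : ((98 / 1000 : ℝ) * n - 1) * p = 1862 / 1000 - p := by
          rw [hp]; field_simp; ring
        linarith
      have h14 : (2 : ℝ) ≤ (1 + p) ^ (cnt σ 1 - 1) := by linarith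
      have h15 : 0 ≤ (1 - p) ^ (cnt σ 1 - 1) := pow_nonneg (by linarith) _
      nlinarith
    have h5 := Finset.sum_le_card_nsmul _ _ _ this
    rw [nsmul_eq_mul] at h5
    unfold cnt
    linarith
  linarith

open Classical in
/-- The estimator: isolated vertices are labelled `0` and the others `1`. -/
noncomputable def est0 : Estimator 3 := fun _ G v => if Iso G v then 0 else 1

open Classical in
theorem est0_good (hIM : IsModel π M) (hN : Near π M) {n : ℕ} (hn : 40 ≤ n)
    {σ : Fin n → Fin 3} {G : SimpleGraph (Fin n)}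
    (h : ¬ Bad π M σ G) : (⨆ i, π i) + 3 / 100 ≤ overlap (est0 n G) σ := by
  have hn' : (0 : ℝ) < n := by
    have : (40 : ℝ) ≤ n := by exact_mod_cast hn
    linarith
  obtain ⟨h0, _, _⟩ := good_zero hIM hN (by omega) h
  have h1 := good_one hIM hN hn h
  obtain ⟨⟨hπ1, hπ2⟩, _, _⟩ := near_π hN
  rw [near_sup hN]
  have h2 : ((Finset.univ.filter (fun v => (Equiv.refl (Fin 3)) (est0 n G v) = σ v)).card : ℝ) / n ≤
      overlap (est0 n G) σ := by
    unfold overlap
    exact le_ciSup (f := fun τ : Equiv.Perm (Fin 3) =>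
      ((Finset.univ.filter (fun v => τ (est0 n G v) = σ v)).card : ℝ) / n)
      (Set.finite_range _).bddAbove (Equiv.refl (Fin 3))
  refine le_trans ?_ h2
  rw [le_div_iff₀ hn']
  have h3 : isoN G (Finset.univ.filter (fun v => σ v = 0)) =
      (((Finset.univ.filter (fun v => σ v = 0)).filter (fun v => Iso G v)).card : ℝ) := by
    rw [isoN, Finset.sum_boole]
  have h4 : isoN G (Finset.univ.filter (fun v => σ v = 1)) =
      (((Finset.univ.filter (fun v => σ v = 1)).filter (fun v => Iso G v)).card : ℝ) := by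
    rw [isoN, Finset.sum_boole]
  have h5 : (cnt σ 1 : ℝ) = (((Finset.univ.filter (fun v => σ v = 1)).filter
      (fun v => Iso G v)).card : ℝ) +
      (((Finset.univ.filter (fun v => σ v = 1)).filter (fun v => ¬ Iso G v)).card : ℝ) := by
    have := Finset.card_filter_add_card_filter_not (s := Finset.univ.filter (fun v => σ v = 1))
      (fun v => Iso G v)
    unfold cnt
    rw [← this]
    push_cast
    rfl
  have h6 : (((Finset.univ.filter (fun v => σ v = 0)).filter (fun v => Iso G v)).card) +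
      (((Finset.univ.filter (fun v => σ v = 1)).filter (fun v => ¬ Iso G v)).card) ≤
      (Finset.univ.filter (fun v => (Equiv.refl (Fin 3)) (est0 n G v) = σ v)).card := by
    rw [← Finset.card_union_of_disjoint]
    · refine Finset.card_le_card fun v hv => ?_
      rw [Finset.mem_union] at hv
      simp only [Finset.mem_filter, Finset.mem_univ, true_and, Equiv.refl_apply, est0] at hv ⊢
      rcases hv with ⟨h7, h8⟩ | ⟨h7, h8⟩
      · rw [if_pos h8, h7]
      · rw [if_neg h8, h7]
    · rw [Finset.disjoint_left]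
      intro v hv hv'
      simp only [Finset.mem_filter, Finset.mem_univ, true_and] at hv hv'
      exact hv'.2 hv.2
  have h7 : ((((Finset.univ.filter (fun v => σ v = 0)).filter (fun v => Iso G v)).card : ℝ)) +
      (((Finset.univ.filter (fun v => σ v = 1)).filter (fun v => ¬ Iso G v)).card : ℝ) ≤
      ((Finset.univ.filter (fun v => (Equiv.refl (Fin 3)) (est0 n G v) = σ v)).card : ℝ) := by
    exact_mod_cast h6
  have hπn2 : π 0 * n ≤ (8001 / 10000 : ℝ) * n := by gcongr
  linarith

open Classical in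
/-- On the good event, a maximiser of the likelihood has small overlap. -/
theorem ml_bad (hIM : IsModel π M) (hN : Near π M) {n : ℕ} (hn : 1000000 ≤ n)
    {σ : Fin n → Fin 3} {G : SimpleGraph (Fin n)}
    (h : ¬ Bad π M σ G) (hpos : 0 < lik M G σ) {s : Fin n → Fin 3}
    (hs : ∀ s' : Fin n → Fin 3, lik M G s' ≤ lik M G s) :
    overlap s σ < (⨆ i, π i) - 1 / 50 := by
  have hn0 : (1000000 : ℝ) ≤ n := by exact_mod_cast hn
  have hn' : (0 : ℝ) < n := by linarith
  obtain ⟨h0, hc1, hc2⟩ := good_zero hIM hN (by omega) h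
  obtain ⟨⟨hπ1, hπ2⟩, _, _⟩ := near_π hN
  have hπn1 : (7999 / 10000 : ℝ) * n ≤ π 0 * n := by gcongr
  rw [near_sup hN]
  by_contra hcon
  push Not at hcon
  -- the permutation
  obtain ⟨τ, hτ⟩ : ∃ τ : Equiv.Perm (Fin 3), overlap s σ =
      ((Finset.univ.filter (fun v => τ (s v) = σ v)).card : ℝ) / n := by
    obtain ⟨τ, hτ⟩ := (Set.finite_range (fun τ : Equiv.Perm (Fin 3) =>
      ((Finset.univ.filter (fun v => τ (s v) = σ v)).card : ℝ) / n)).isCompact.sSup_mem
      (Set.range_nonempty _)
    exact ⟨τ, hτ.symm⟩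
  rw [hτ, le_div_iff₀ hn'] at hcon
  set j : Fin 3 := τ.symm 0 with hj
  -- many vertices labelled `0` get the label `j`
  have h1 : (Finset.univ.filter (fun v => τ (s v) = σ v)).card ≤
      ((Finset.univ.filter (fun v => σ v = 0)).filter (fun v => s v = j)).card +
      (Finset.univ.filter (fun v => ¬ σ v = 0)).card := by
    refine le_trans (Finset.card_le_card ?_) (Finset.card_union_le _ _)
    intro v hv
    simp only [Finset.mem_union, Finset.mem_filter, Finset.mem_univ, true_and] at hv ⊢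
    by_cases h2 : σ v = 0
    · left
      refine ⟨h2, ?_⟩
      rw [hj, ← h2, ← hv, Equiv.symm_apply_apply]
    · right; exact h2
  have h2 : cnt σ 0 + (Finset.univ.filter (fun v => ¬ σ v = 0)).card = n := by
    have := Finset.card_filter_add_card_filter_not (s := (Finset.univ : Finset (Fin n)))
      (fun v => σ v = 0)
    rw [Finset.card_univ, Fintype.card_fin] at this
    exact this
  have h1' : ((Finset.univ.filter (fun v => τ (s v) = σ v)).card : ℝ) ≤
      (((Finset.univ.filter (fun v => σ v = 0)).filter (fun v => s v = j)).card : ℝ) +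
      ((Finset.univ.filter (fun v => ¬ σ v = 0)).card : ℝ) := by exact_mod_cast h1
  have h2' : (cnt σ 0 : ℝ) + ((Finset.univ.filter (fun v => ¬ σ v = 0)).card : ℝ) = n := by
    exact_mod_cast h2
  have h3 : (5788 / 10000 : ℝ) * n ≤
      (((Finset.univ.filter (fun v => σ v = 0)).filter (fun v => s v = j)).card : ℝ) := by
    linarith
  -- one of them is isolated
  have h4 : isoN G (Finset.univ.filter (fun v => σ v = 0)) =
      (((Finset.univ.filter (fun v => σ v = 0)).filter (fun v => Iso G v)).card : ℝ) := by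
    rw [isoN, Finset.sum_boole]
  obtain ⟨u, hu1, hu2⟩ : ∃ u, Iso G u ∧ s u = j := by
    by_contra hne
    push Not at hne
    have h5 : ((Finset.univ.filter (fun v => σ v = 0)).filter (fun v => s v = j)).card +
        ((Finset.univ.filter (fun v => σ v = 0)).filter (fun v => Iso G v)).card ≤ cnt σ 0 := by
      rw [← Finset.card_union_of_disjoint]
      · refine Finset.card_le_card fun v hv => ?_
        rw [Finset.mem_union] at hv
        rcases hv with hv | hv
        · exact (Finset.mem_filter.1 hv).1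
        · exact (Finset.mem_filter.1 hv).1
      · rw [Finset.disjoint_left]
        intro v hv hv'
        exact hne v (Finset.mem_filter.1 hv').2 (Finset.mem_filter.1 hv).2
    have h5' : (((Finset.univ.filter (fun v => σ v = 0)).filter (fun v => s v = j)).card : ℝ) +
        (((Finset.univ.filter (fun v => σ v = 0)).filter (fun v => Iso G v)).card : ℝ) ≤
        cnt σ 0 := by exact_mod_cast h5
    linarith
  -- counts
  have h6 : (5788 / 10000 : ℝ) * n ≤ cnt s j := by
    refine h3.trans ?_
    have : ((Finset.univ.filter (fun v => σ v = 0)).filter (fun v => s v = j)).card ≤ cnt s j := by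
      refine Finset.card_le_card fun v hv => ?_
      exact Finset.mem_filter.2 ⟨Finset.mem_univ _, (Finset.mem_filter.1 hv).2⟩
    exact_mod_cast this
  obtain ⟨i, hij, hmi⟩ : ∃ i : Fin 3, i ≠ j ∧ M i i ≤ 101 / 10000 := by
    by_cases hj0 : j = 0
    · exact ⟨2, by rw [hj0]; decide, near_22 hN⟩
    · exact ⟨0, fun h => hj0 h.symm, near_00 hN⟩
  have h7 : cnt s i + cnt s j ≤ n := by
    have : cnt s i + cnt s j ≤ Fintype.card (Fin n) := by
      unfold cnt
      rw [← Finset.card_union_of_disjoint]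
      · exact Finset.card_le_univ _
      · rw [Finset.disjoint_left]
        intro v hv hv'
        exact hij ((Finset.mem_filter.1 hv).2.symm.trans (Finset.mem_filter.1 hv').2)
    rwa [Fintype.card_fin] at this
  have h7' : (cnt s i : ℝ) + cnt s j ≤ n := by exact_mod_cast h7
  clear_value j
  subst hu2
  -- the drift
  have hD1 : (99 / 10000 : ℝ) * (cnt s (s u) - 1) ≤ ∑ v ∈ Finset.univ.erase u, M (s u) (s v) := by
    have e1 : (99 / 10000 : ℝ) * (cnt s (s u) - 1) ≤
        ∑ v ∈ Finset.univ.erase u, (if s v = s u then (99 / 10000 : ℝ) else 0) := by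
      rw [← Finset.sum_filter, Finset.sum_const, nsmul_eq_mul]
      have hcard : ((Finset.univ.erase u).filter (fun v => s v = s u)).card = cnt s (s u) - 1 := by
        have : (Finset.univ.erase u).filter (fun v => s v = s u) =
            (Finset.univ.filter (fun v => s v = s u)).erase u := by
          ext v; simp [Finset.mem_filter, Finset.mem_erase]
        rw [this, Finset.card_erase_of_mem (by simp), cnt]
      rw [hcard, mul_comm]
      have h9 : (cnt s (s u) : ℝ) ≤ ((cnt s (s u) - 1 : ℕ) : ℝ) + 1 := by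
        have : cnt s (s u) ≤ (cnt s (s u) - 1) + 1 := by omega
        exact_mod_cast this
      linarith
    refine e1.trans (Finset.sum_le_sum fun v _ => ?_)
    split_ifs with hv
    · rw [hv]; exact near_diag hN _
    · exact hIM.nonneg _ _
  have hD2 : ∑ v ∈ Finset.univ.erase u, M i (s v) ≤
      (1 / 100 : ℝ) * cnt s i + (1 / 10000) * n := by
    calc ∑ v ∈ Finset.univ.erase u, M i (s v)
        ≤ ∑ v : Fin n, M i (s v) :=
          Finset.sum_le_sum_of_subset_of_nonneg (Finset.erase_subset _ _)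
            (fun v _ _ => hIM.nonneg _ _)
      _ ≤ ∑ v : Fin n, ((if s v = i then (1 / 100 : ℝ) else 0) + 1 / 10000) := by
          refine Finset.sum_le_sum fun v _ => ?_
          split_ifs with hv
          · rw [hv]; linarith
          · have := near_off hN (fun h' : i = s v => hv h'.symm)
            linarith
      _ = (1 / 100 : ℝ) * cnt s i + (1 / 10000) * n := by
          rw [Finset.sum_add_distrib, ← Finset.sum_filter, Finset.sum_const, Finset.sum_const,
            nsmul_eq_mul, nsmul_eq_mul, Finset.card_univ, Fintype.card_fin, cnt]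
          ring
  have h9 := lik_update hIM.symm hIM.nonneg (near_le hN) (by norm_num) (by linarith) G s u hu1 i (by
    rw [Finset.sum_sub_distrib]
    linarith) (lt_of_lt_of_le hpos (hs σ))
  exact absurd (hs (Function.update s u i)) (not_le.2 h9)

end near

/-- Existence of a maximum-likelihood estimator. -/
theorem exists_ml {k : ℕ} (hk : 0 < k) (M : Fin k → Fin k → ℝ) : ∃ ml : Estimator k, IsML M ml := by
  have : Nonempty (Fin k) := ⟨⟨0, hk⟩⟩
  have : ∀ (n : ℕ) (G : SimpleGraph (Fin n)), ∃ s : Fin n → Fin k, ∀ s' : Fin n → Fin k,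
      lik M G s' ≤ lik M G s := fun n G => Finite.exists_max _
  choose f hf using this
  exact ⟨f, hf⟩

section final

variable {π : Fin 3 → ℝ} {M : Fin 3 → Fin 3 → ℝ}

theorem tendsto_bad (hIM : IsModel π M) (hN : Near π M) :
    Tendsto (fun n : ℕ => prob π M n (fun σ G => Bad π M σ G)) atTop (𝓝 0) := by
  have h1 : Tendsto (fun n : ℕ => (46000000 : ℝ) / n) atTop (𝓝 0) :=
    tendsto_const_div_atTop_nhds_zero_nat _
  refine squeeze_zero' (Eventually.of_forall fun n =>
    prob_nonneg (fun i => (hIM.pos i).le) hIM.nonneg _) ?_ h1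
  filter_upwards [eventually_gt_atTop 0] with n hn
  exact prob_bad hIM hN hn

theorem achieves0 (hIM : IsModel π M) (hN : Near π M) : Achieves π M est0 := by
  have hπ : ∀ i, 0 ≤ π i := fun i => (hIM.pos i).le
  refine ⟨3 / 100, by norm_num, ?_⟩
  have h1 : Tendsto (fun n : ℕ => 1 - prob π M n (fun σ G => Bad π M σ G)) atTop (𝓝 (1 - 0)) :=
    tendsto_const_nhds.sub (tendsto_bad hIM hN)
  rw [sub_zero] at h1
  refine tendsto_of_tendsto_of_tendsto_of_le_of_le' h1 tendsto_const_nhds ?_
    (Eventually.of_forall fun n => prob_le_one hπ hIM.nonneg hIM.sum _)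
  filter_upwards [eventually_ge_atTop 40] with n hn
  rw [prob_compl hIM.sum (fun σ G => (⨆ i, π i) + 3 / 100 ≤ overlap (est0 n G) σ)]
  refine sub_le_sub_left (prob_mono hπ hIM.nonneg fun σ G _ h => ?_) 1
  by_contra hbad
  exact h (est0_good hIM hN hn hbad)

theorem ml_tendsto (hIM : IsModel π M) (hN : Near π M) {ml : Estimator 3} (hml : IsML M ml) :
    Tendsto (fun n : ℕ => prob π M n (fun σ G => (⨆ i, π i) - 1 / 50 ≤ overlap (ml n G) σ))
      atTop (𝓝 0) := by
  have hπ : ∀ i, 0 ≤ π i := fun i => (hIM.pos i).le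
  refine squeeze_zero' (Eventually.of_forall fun n => prob_nonneg hπ hIM.nonneg _) ?_
    (tendsto_bad hIM hN)
  filter_upwards [eventually_ge_atTop 1000000] with n hn
  refine prob_mono hπ hIM.nonneg fun σ G hl h => ?_
  by_contra hbad
  exact absurd h (not_le.2 (ml_bad hIM hN hn hbad hl (hml n G)))

theorem ml_not_achieves (hIM : IsModel π M) (hN : Near π M) {ml : Estimator 3}
    (hml : IsML M ml) : ¬ Achieves π M ml := by
  have hπ : ∀ i, 0 ≤ π i := fun i => (hIM.pos i).le
  rintro ⟨ε, hε, h⟩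
  have h1 : Tendsto (fun n : ℕ => prob π M n
      (fun σ G => (⨆ i, π i) + ε ≤ overlap (ml n G) σ)) atTop (𝓝 0) := by
    refine squeeze_zero' (Eventually.of_forall fun n => prob_nonneg hπ hIM.nonneg _) ?_
      (ml_tendsto hIM hN hml)
    refine Eventually.of_forall fun n => ?_
    refine prob_mono hπ hIM.nonneg fun σ G _ h => ?_
    linarith
  exact zero_ne_one (tendsto_nhds_unique h1 h)

end final

end Pool.Agent.H996R2.SBM
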