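import Mathlib

set_option autoImplicit false

/-! Deterministic part of the ergodicity of the soldiers automaton under one-way noise. -/

namespace Pool.Agent.H996R2.Soldiers

/-- One deterministic step of the soldiers automaton (`true` is plus). -/
def D (x : ℤ → Bool) (i : ℤ) : Bool :=
  (x i && (x (i+1) || x (i+3))) || (!x i && x (i-1) && x (i-3))

/-- No two minuses at distance one or three inside `[a, b]`. -/
def Good (x : ℤ → Bool) (a b : ℤ) : Prop :=
  (∀ j, a ≤ j → j + 1 ≤ b → x j = true ∨ x (j+1) = true) ∧
  (∀ j, a ≤ j → j + 3 ≤ b → x j = true ∨ x (j+3) = true)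

/-- All sites of `[a, b]` are plus. -/
def Full (x : ℤ → Bool) (a b : ℤ) : Prop := ∀ j, a ≤ j → j ≤ b → x j = true

theorem D_true {x : ℤ → Bool} {j : ℤ} (h : x j = true) : D x j = (x (j+1) || x (j+3)) := by
  simp [D, h]

theorem D_false {x : ℤ → Bool} {j : ℤ} (h : x j = false) : D x j = (x (j-1) && x (j-3)) := by
  simp [D, h]

theorem D_left {x : ℤ → Bool} {a j : ℤ} (hf : Full x a (a+3)) (h1 : a ≤ j) (h2 : j ≤ a + 2) :
    D x j = true := by
  rw [D_true (hf j h1 (by omega)), hf (j+1) (by omega) (by omega)]
  rfl

theorem key {x : ℤ → Bool} {a b j : ℤ} (hg : Good x a b) (h1 : a + 3 ≤ j) (h2 : j ≤ b)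
    (hD : D x j = false) : x j = true ∧ x (j+1) = false ∧ x (j+3) = false := by
  cases hx : x j with
  | true =>
    rw [D_true hx] at hD
    simpa using hD
  | false =>
    exfalso
    rw [D_false hx] at hD
    have e1 : x (j-1) = true := by
      rcases hg.1 (j-1) (by omega) (by omega) with h | h
      · exact h
      · rw [show j - 1 + 1 = j by ring] at h
        rw [hx] at h; cases h
    have e2 : x (j-3) = true := by
      rcases hg.2 (j-3) (by omega) (by omega) with h | h
      · exact h
      · rw [show j - 3 + 3 = j by ring] at h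
        rw [hx] at h; cases h
    rw [e1, e2] at hD
    cases hD

theorem key' {x y η : ℤ → Bool} {a b j : ℤ} (hy : ∀ j, y j = (D x j || η j))
    (hg : Good x a b) (hf : Full x a (a+3)) (h1 : a ≤ j) (h2 : j ≤ b)
    (h : y j = false) : a + 3 ≤ j ∧ x j = true ∧ x (j+1) = false ∧ η j = false := by
  rw [hy, Bool.or_eq_false_iff] at h
  have h3 : a + 3 ≤ j := by
    by_contra hc
    have := D_left hf h1 (by omega)
    rw [this] at h
    cases h.1
  obtain ⟨e1, e2, e3⟩ := key hg h3 h2 h.1
  exact ⟨h3, e1, e2, h.2⟩

theorem key3 {x y η : ℤ → Bool} {a b j : ℤ} (hy : ∀ j, y j = (D x j || η j))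
    (hg : Good x a b) (hf : Full x a (a+3)) (h1 : a ≤ j) (h2 : j ≤ b)
    (h : y j = false) : x (j+3) = false := by
  rw [hy, Bool.or_eq_false_iff] at h
  have h3 : a + 3 ≤ j := by
    by_contra hc
    have := D_left hf h1 (by omega)
    rw [this] at h
    cases h.1
  obtain ⟨e1, e2, e3⟩ := key hg h3 h2 h.1
  exact e3

/-- Goodness is preserved. -/
theorem good_step {x y η : ℤ → Bool} {a b : ℤ} (hy : ∀ j, y j = (D x j || η j))
    (hg : Good x a b) (hf : Full x a (a+3)) : Good y a b := by
  constructor
  · intro j h1 h2
    by_contra hc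
    rw [not_or, Bool.not_eq_true, Bool.not_eq_true] at hc
    obtain ⟨_, _, e1, _⟩ := key' hy hg hf h1 (by omega) hc.1
    obtain ⟨_, e2, _, _⟩ := key' hy hg hf (j := j+1) (by omega) h2 hc.2
    rw [e1] at e2; cases e2
  · intro j h1 h2
    by_contra hc
    rw [not_or, Bool.not_eq_true, Bool.not_eq_true] at hc
    have e1 := key3 hy hg hf h1 (by omega) hc.1
    obtain ⟨_, e2, _, _⟩ := key' hy hg hf (j := j+3) (by omega) h2 hc.2
    rw [e1] at e2; cases e2

theorem good_extend {x : ℤ → Bool} {a b : ℤ} (hg : Good x a b)
    (h1 : x b = true ∨ x (b+1) = true) (h2 : x (b-2) = true ∨ x (b+1) = true) :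
    Good x a (b+1) := by
  constructor
  · intro j h3 h4
    rcases lt_or_eq_of_le h4 with h | h
    · exact hg.1 j h3 (by omega)
    · have : j = b := by omega
      subst this
      exact h1
  · intro j h3 h4
    rcases lt_or_eq_of_le h4 with h | h
    · exact hg.2 j h3 (by omega)
    · have : j = b - 2 := by omega
      subst this
      rw [show b - 2 + 3 = b + 1 by ring]
      exact h2

theorem growth_two {x y η : ℤ → Bool} {a b : ℤ} (hy : ∀ j, y j = (D x j || η j))
    (hg : Good x a b) (hf : Full x a (a+3)) (hab : a + 6 ≤ b)
    (e1 : x b = false) : Good y a (b+1) := by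
  have f1 : x (b-1) = true := by
    rcases hg.1 (b-1) (by omega) (by omega) with h | h
    · exact h
    · rw [show b - 1 + 1 = b by ring] at h
      rw [e1] at h; cases h
  have f3 : x (b-3) = true := by
    rcases hg.2 (b-3) (by omega) (by omega) with h | h
    · exact h
    · rw [show b - 3 + 3 = b by ring] at h
      rw [e1] at h; cases h
  have g1 : y b = true := by
    rw [hy, D_false e1, f1, f3]; rfl
  have g2 : y (b-2) = true := by
    rw [hy]
    cases e2 : x (b-2) with
    | true =>
      rw [D_true e2, show b - 2 + 1 = b - 1 by ring, f1]; rfl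
    | false =>
      rw [D_false e2, show b - 2 - 1 = b - 3 by ring, f3, show b - 2 - 3 = b - 5 by ring]
      have f5 : x (b-5) = true := by
        rcases hg.2 (b-5) (by omega) (by omega) with h | h
        · exact h
        · rw [show b - 5 + 3 = b - 2 by ring] at h
          rw [e2] at h; cases h
      rw [f5]; rfl
  exact good_extend (good_step hy hg hf) (Or.inl g1) (Or.inl g2)

theorem growth_one {x y η : ℤ → Bool} {a b : ℤ} (hy : ∀ j, y j = (D x j || η j))
    (hg : Good x a b) (hf : Full x a (a+3)) (hab : a + 6 ≤ b) :
    Good y a (b+1) ∨ (Good y a b ∧ y b = false) := by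
  cases hb1 : x (b+1) with
  | true =>
    left
    exact good_step hy (good_extend hg (Or.inr hb1) (Or.inr hb1)) hf
  | false =>
    cases hb : x b with
    | false => left; exact growth_two hy hg hf hab hb
    | true =>
      cases hb2 : x (b-2) with
      | true =>
        left
        exact good_step hy (good_extend hg (Or.inl hb) (Or.inl hb2)) hf
      | false =>
        have f3 : x (b-3) = true := by
          rcases hg.1 (b-3) (by omega) (by omega) with h | h
          · exact h
          · rw [show b - 3 + 1 = b - 2 by ring] at h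
            rw [hb2] at h; cases h
        have f5 : x (b-5) = true := by
          rcases hg.2 (b-5) (by omega) (by omega) with h | h
          · exact h
          · rw [show b - 5 + 3 = b - 2 by ring] at h
            rw [hb2] at h; cases h
        have g2 : y (b-2) = true := by
          rw [hy, D_false hb2, show b - 2 - 1 = b - 3 by ring, f3,
            show b - 2 - 3 = b - 5 by ring, f5]
          rfl
        cases hyb : y b with
        | true => left; exact good_extend (good_step hy hg hf) (Or.inl hyb) (Or.inl g2)
        | false => right; exact ⟨good_step hy hg hf, rfl⟩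

/-- **Deterministic survival.** If the block `[i - N, i + N]` is plus at time `0` and every
diagonal of length `t / 4 + 1` ending in `[i - N, i]` at time `t ≥ N` contains a noise flip, then
`[i - N, i]` is plus at all times. -/
theorem survive (Y η : ℕ → ℤ → Bool) (hY : ∀ n j, Y (n+1) j = (D (Y n) j || η n j))
    (i : ℤ) (N : ℕ) (hN : 10 ≤ N) (h0 : Full (Y 0) (i - N) (i + N))
    (hnoise : ∀ t : ℕ, N ≤ t → ∀ j : ℤ, i - N ≤ j → j ≤ i →
      ∃ s : ℕ, s ≤ t / 4 ∧ η (t - s) (j + s) = true) :
    ∀ t : ℕ, Full (Y t) (i - N) i ∧ Good (Y t) (i - N) (i + N + (t / 2 : ℕ)) := by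
  intro t
  induction t using Nat.strong_induction_on with
  | _ t ih =>
    have hfull3 : ∀ u < t, Full (Y u) (i - N) (i - N + 3) := fun u hu j h1 h2 =>
      (ih u hu).1 j h1 (by omega)
    have hgood : Good (Y t) (i - N) (i + N + (t / 2 : ℕ)) := by
      rcases Nat.eq_zero_or_pos t with h | h
      · subst h
        constructor
        · intro j h1 h2
          left
          exact h0 j h1 (by simp at h2; omega)
        · intro j h1 h2
          left
          exact h0 j h1 (by simp at h2; omega)
      · rcases Nat.even_or_odd' t with ⟨k, hk | hk⟩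
        · obtain ⟨m, rfl⟩ : ∃ m, k = m + 1 := ⟨k - 1, by omega⟩
          have e : t = (2 * m + 1) + 1 := by omega
          have hm := (ih (2 * m) (by omega)).2
          have hm3 := hfull3 (2 * m) (by omega)
          have hm4 := hfull3 (2 * m + 1) (by omega)
          rw [show (2 * m) / 2 = m by omega] at hm
          have e2 : i + N + ((t / 2 : ℕ) : ℤ) = (i + N + (m : ℤ)) + 1 := by
            have : t / 2 = m + 1 := by omega
            rw [this]; push_cast; ring
          rw [e2, e]
          rcases growth_one (hY (2*m)) hm hm3 (by omega) with hg | ⟨hg, hb⟩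
          · exact good_step (hY (2*m+1)) hg hm4
          · exact growth_two (hY (2*m+1)) hg hm4 (by omega) hb
        · have hm := (ih (2 * k) (by omega)).2
          have hm3 := hfull3 (2 * k) (by omega)
          rw [show (2 * k) / 2 = k by omega] at hm
          have e2 : t / 2 = k := by omega
          rw [e2, hk]
          exact good_step (hY (2*k)) hm hm3
    refine ⟨?_, hgood⟩
    rcases Nat.eq_zero_or_pos t with h | h
    · subst h
      intro j h1 h2
      exact h0 j h1 (by omega)
    · obtain ⟨u, rfl⟩ : ∃ u, t = u + 1 := ⟨t - 1, by omega⟩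
      intro j h1 h2
      by_contra hc
      rw [Bool.not_eq_true] at hc
      -- the backward path
      have path : ∀ s : ℕ, s ≤ u + 1 → (∀ s' : ℕ, s' < s → (s' : ℤ) ≤ N + ((u - s') / 2 : ℕ)) →
          Y (u + 1 - s) (j + s) = false := by
        intro s
        induction s with
        | zero => intro _ _; simpa using hc
        | succ s ihs =>
          intro hs hs'
          have h3 := ihs (by omega) (fun s' h => hs' s' (by omega))
          have h4 := hs' s (by omega)
          have e : u + 1 - s = (u - s) + 1 := by omega
          rw [e] at h3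
          obtain ⟨_, _, h5, _⟩ := key' (hY (u - s)) (ih (u - s) (by omega)).2
            (hfull3 (u - s) (by omega)) (j := j + s) (by omega) (by omega) h3
          rw [show u + 1 - (s + 1) = u - s by omega]
          push_cast
          rw [show j + ((s : ℤ) + 1) = j + s + 1 by ring]
          exact h5
      have pathn : ∀ s : ℕ, s ≤ u → (∀ s' : ℕ, s' ≤ s → (s' : ℤ) ≤ N + ((u - s') / 2 : ℕ)) →
          η (u - s) (j + s) = false := by
        intro s hs hs'
        have h3 := path s (by omega) (fun s' h => hs' s' (by omega))
        have h4 := hs' s le_rfl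
        have e : u + 1 - s = (u - s) + 1 := by omega
        rw [e] at h3
        exact (key' (hY (u - s)) (ih (u - s) (by omega)).2
            (hfull3 (u - s) (by omega)) (j := j + s) (by omega) (by omega) h3).2.2.2
      rcases lt_or_ge u N with hu | hu
      · have h5 := path (u + 1) le_rfl (fun s' h => by omega)
        rw [show u + 1 - (u + 1) = 0 by omega] at h5
        have h6 := h0 (j + ((u + 1 : ℕ) : ℤ)) (by omega) (by omega)
        rw [h6] at h5; cases h5
      · obtain ⟨s, hs1, hs2⟩ := hnoise u hu j h1 h2
        have h5 := pathn s (by omega) (fun s' h => by omega)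
        rw [hs2] at h5; cases h5

end Pool.Agent.H996R2.Soldiers
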