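import Mathlib
import Pool.Agent.H996R2.SoldiersDet

set_option autoImplicit false

/-! Probabilistic part of the ergodicity of the soldiers automaton under one-way noise. -/

open MeasureTheory ProbabilityTheory Filter Topology
open scoped ENNReal

namespace Pool.Agent.H996R2.Soldiers

variable {Ω : Type} [mΩ : MeasurableSpace Ω] {P : Measure Ω} [IsProbabilityMeasure P]

/-- At time `k` the noise is everywhere `true` on `[i - N, i + N]`. -/
def AB (ξ : ℕ → ℤ → Ω → Bool) (i : ℤ) (N k : ℕ) : Set Ω :=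
  {ω | ∀ j : ℤ, i - N ≤ j → j ≤ i + N → ξ k j ω = true}

/-- After time `k` every relevant diagonal contains a `true` noise variable. -/
def AG (ξ : ℕ → ℤ → Ω → Bool) (i : ℤ) (N k : ℕ) : Set Ω :=
  {ω | ∀ t : ℕ, N ≤ t → ∀ j : ℤ, i - N ≤ j → j ≤ i →
    ∃ s : ℕ, s ≤ t / 4 ∧ ξ (k + 1 + (t - s)) (j + s) ω = true}

/-- The sigma-algebra of one noise variable. -/
@[reducible] def sig (ξ : ℕ → ℤ → Ω → Bool) (p : ℕ × ℤ) : MeasurableSpace Ω :=
  MeasurableSpace.comap (ξ p.1 p.2) inferInstance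

theorem sig_true (ξ : ℕ → ℤ → Ω → Bool) (S : Set (ℕ × ℤ)) (n : ℕ) (j : ℤ) (h : (n, j) ∈ S) :
    MeasurableSet[⨆ p ∈ S, sig ξ p] {ω | ξ n j ω = true} := by
  have h1 : sig ξ (n, j) ≤ ⨆ p ∈ S, sig ξ p := le_iSup₂ (f := fun p (_ : p ∈ S) => sig ξ p) (n, j) h
  exact h1 _ ⟨{true}, trivial, rfl⟩

theorem AB_meas (ξ : ℕ → ℤ → Ω → Bool) (i : ℤ) (N k : ℕ) (S : Set (ℕ × ℤ))
    (hS : ∀ j, (k, j) ∈ S) : MeasurableSet[⨆ p ∈ S, sig ξ p] (AB ξ i N k) := by
  have : AB ξ i N k = ⋂ j : ℤ, ⋂ (_ : i - N ≤ j), ⋂ (_ : j ≤ i + N), {ω | ξ k j ω = true} := by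
    ext ω; simp [AB]
  rw [this]
  exact MeasurableSet.iInter fun j => MeasurableSet.iInter fun _ => MeasurableSet.iInter fun _ =>
    sig_true ξ S k j (hS j)

theorem AG_meas (ξ : ℕ → ℤ → Ω → Bool) (i : ℤ) (N k : ℕ) (S : Set (ℕ × ℤ))
    (hS : ∀ n j, k + 1 ≤ n → (n, j) ∈ S) : MeasurableSet[⨆ p ∈ S, sig ξ p] (AG ξ i N k) := by
  have : AG ξ i N k = ⋂ t : ℕ, ⋂ (_ : N ≤ t), ⋂ j : ℤ, ⋂ (_ : i - N ≤ j), ⋂ (_ : j ≤ i),
      ⋃ s : ℕ, ⋃ (_ : s ≤ t / 4), {ω | ξ (k + 1 + (t - s)) (j + s) ω = true} := by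
    ext ω; simp [AG]
  rw [this]
  exact MeasurableSet.iInter fun t => MeasurableSet.iInter fun _ => MeasurableSet.iInter fun j =>
    MeasurableSet.iInter fun _ => MeasurableSet.iInter fun _ => MeasurableSet.iUnion fun s =>
    MeasurableSet.iUnion fun _ => sig_true ξ S _ _ (hS _ _ (by omega))

theorem AB_prob {ξ : ℕ → ℤ → Ω → Bool} (hind : iIndepFun (fun p : ℕ × ℤ => ξ p.1 p.2) P)
    {δ : ℝ} (hξ : ∀ n i, P {ω | ξ n i ω = true} = ENNReal.ofReal δ) (i : ℤ) (N k : ℕ) :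
    P (AB ξ i N k) = ENNReal.ofReal δ ^ (Finset.Icc (i - N) (i + N)).card := by
  have h1 : AB ξ i N k = ⋂ j ∈ Finset.Icc (i - N) (i + N), (ξ k j) ⁻¹' {true} := by
    ext ω; simp [AB]
  have h2 : iIndepFun (fun j : ℤ => ξ k j) P :=
    hind.precomp (g := fun j : ℤ => (k, j)) (fun a b h => by simpa using h)
  rw [h1, h2.measure_inter_preimage_eq_mul _ (fun _ _ => trivial)]
  rw [Finset.prod_congr rfl (fun j _ => show P ((ξ k j) ⁻¹' {true}) = ENNReal.ofReal δ from hξ k j)]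
  rw [Finset.prod_const]

theorem path_prob {ξ : ℕ → ℤ → Ω → Bool} (hind : iIndepFun (fun p : ℕ × ℤ => ξ p.1 p.2) P)
    {q : ℝ≥0∞} (hξ : ∀ n i, P {ω | ξ n i ω = false} = q) (k t : ℕ) (j : ℤ) (m : ℕ) :
    P {ω | ∀ s : ℕ, s ≤ m → ξ (k + 1 + (t - s)) (j + s) ω = false} = q ^ (m + 1) := by
  have h1 : {ω | ∀ s : ℕ, s ≤ m → ξ (k + 1 + (t - s)) (j + s) ω = false} =
      ⋂ s ∈ Finset.range (m + 1), (ξ (k + 1 + (t - s)) (j + s)) ⁻¹' {false} := by
    ext ω; simp [Nat.lt_succ_iff]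
  have h2 : iIndepFun (fun s : ℕ => ξ (k + 1 + (t - s)) (j + s)) P :=
    hind.precomp (g := fun s : ℕ => (k + 1 + (t - s), j + (s : ℤ))) (fun a b h => by
      simp only [Prod.mk.injEq, add_right_inj, Nat.cast_inj] at h
      exact h.2)
  rw [h1, h2.measure_inter_preimage_eq_mul _ (fun _ _ => trivial)]
  rw [Finset.prod_congr rfl (fun s _ =>
    show P ((ξ (k + 1 + (t - s)) (j + s)) ⁻¹' {false}) = q from hξ _ _)]
  rw [Finset.prod_const, Finset.card_range]

/-- Bound for the bad event. -/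
theorem AG_compl {ξ : ℕ → ℤ → Ω → Bool} (hind : iIndepFun (fun p : ℕ × ℤ => ξ p.1 p.2) P)
    {q : ℝ≥0∞} (hξ : ∀ n i, P {ω | ξ n i ω = false} = q) (i : ℤ) (N k : ℕ) :
    P (AG ξ i N k)ᶜ ≤ ∑' u : ℕ, ((N : ℝ≥0∞) + 1) * q ^ ((u + N) / 4 + 1) := by
  have h1 : (AG ξ i N k)ᶜ ⊆ ⋃ u : ℕ, ⋃ j ∈ Finset.Icc (i - N) i,
      {ω | ∀ s : ℕ, s ≤ (u + N) / 4 → ξ (k + 1 + ((u + N) - s)) (j + s) ω = false} := by
    intro ω hω
    simp only [AG, Set.mem_compl_iff, Set.mem_ofPred_eq, not_forall, not_exists, not_and,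
      Bool.not_eq_true] at hω
    obtain ⟨t, ht, j, hj1, hj2, h⟩ := hω
    simp only [Set.mem_iUnion, Finset.mem_Icc, Set.mem_ofPred_eq]
    refine ⟨t - N, j, ⟨hj1, hj2⟩, ?_⟩
    rw [show t - N + N = t by omega]
    exact h
  refine (measure_mono h1).trans ((measure_iUnion_le _).trans ?_)
  refine ENNReal.tsum_le_tsum fun u => ?_
  refine (measure_biUnion_finset_le _ _).trans ?_
  rw [Finset.sum_congr rfl (fun j _ => path_prob hind hξ k (u + N) j ((u + N) / 4))]
  rw [Finset.sum_const, Int.card_Icc, nsmul_eq_mul]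
  have : (i + 1 - (i - N)).toNat = N + 1 := by omega
  rw [this]
  push_cast
  exact le_rfl

theorem exists_N {δ : ℝ} (h0 : 0 < δ) (h1 : δ ≤ 1) :
    ∃ N : ℕ, 10 ≤ N ∧
      ∑' u : ℕ, ((N : ℝ≥0∞) + 1) * (ENNReal.ofReal (1 - δ)) ^ ((u + N) / 4 + 1) ≤ 1 / 2 := by
  set r : ℝ := Real.sqrt (Real.sqrt (1 - δ)) with hr
  have hq0 : 0 ≤ 1 - δ := by linarith
  have hr0 : 0 ≤ r := Real.sqrt_nonneg _
  have hr4 : r ^ 4 = 1 - δ := by
    rw [show r ^ 4 = (r ^ 2) ^ 2 by ring, hr, Real.sq_sqrt (Real.sqrt_nonneg _),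
      Real.sq_sqrt hq0]
  have hr1 : r < 1 := by
    by_contra hc
    rw [not_lt] at hc
    have := one_le_pow₀ hc (n := 4)
    linarith
  let f : ℕ → ℝ≥0∞ := fun t => ENNReal.ofReal (((t : ℝ) + 1) * r ^ t)
  have hsum : Summable fun t : ℕ => ((t : ℝ) + 1) * r ^ t := by
    have e1 := summable_pow_mul_geometric_of_norm_lt_one (R := ℝ) 1 (r := r)
      (by rw [Real.norm_of_nonneg hr0]; exact hr1)
    have e2 := summable_geometric_of_lt_one hr0 hr1
    have e3 := e1.add e2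
    refine e3.congr fun t => ?_
    simp only [pow_one]; ring
  have hf : ∑' t, f t ≠ ∞ := by
    have := hsum.tsum_ofReal_ne_top
    exact this
  have ht := ENNReal.tendsto_sum_nat_add f hf
  have hev := (ht.eventually (ge_mem_nhds (show (0 : ℝ≥0∞) < 1 / 2 by simp))).and
    (eventually_ge_atTop 10)
  obtain ⟨N, hN1, hN2⟩ := hev.exists
  refine ⟨N, hN2, le_trans ?_ hN1⟩
  refine ENNReal.tsum_le_tsum fun u => ?_
  have e1 : ((N : ℝ≥0∞) + 1) = ENNReal.ofReal ((N : ℝ) + 1) := by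
    rw [ENNReal.ofReal_add (by positivity) (by norm_num)]
    simp
  rw [e1, ← ENNReal.ofReal_pow hq0, ← ENNReal.ofReal_mul (by positivity)]
  apply ENNReal.ofReal_le_ofReal
  have e2 : (1 - δ) ^ ((u + N) / 4 + 1) ≤ r ^ (u + N) := by
    rw [← hr4, ← pow_mul]
    exact pow_le_pow_of_le_one hr0 hr1.le (by omega)
  have e3 : ((N : ℝ) + 1) ≤ ((u + N : ℕ) : ℝ) + 1 := by
    push_cast
    have : (0 : ℝ) ≤ u := Nat.cast_nonneg u
    linarith
  exact mul_le_mul e3 e2 (by positivity) (by positivity)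

/-- On the event `AB ∩ AG` the site `i` is plus at all times after `k`. -/
theorem good_event {ξ : ℕ → ℤ → Ω → Bool} {X : ℕ → Ω → ℤ → Bool}
    (hX : ∀ n ω j, X (n+1) ω j = (D (X n ω) j || ξ n j ω))
    {i : ℤ} {N k : ℕ} (hN : 10 ≤ N) {ω : Ω} (h1 : ω ∈ AB ξ i N k) (h2 : ω ∈ AG ξ i N k) :
    ∀ n, k + 1 ≤ n → X n ω i = true := by
  intro n hn
  have h := survive (fun t => X (k + 1 + t) ω) (fun t j => ξ (k + 1 + t) j ω)
    (fun t j => hX (k + 1 + t) ω j) i N hN (by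
      intro j hj1 hj2
      show X (k + 1 + 0) ω j = true
      rw [add_zero, hX, h1 j hj1 hj2]
      simp) (by
      intro t ht j hj1 hj2
      exact h2 t ht j hj1 hj2) (n - (k + 1))
  have h3 := h.1 i (by omega) le_rfl
  have e : k + 1 + (n - (k + 1)) = n := by omega
  simpa [e] using h3

/-- Main theorem, noise toward plus. -/
theorem main_plus (δ : ℝ) (h0 : 0 < δ) (h1 : δ ≤ 1) (ξ : ℕ → ℤ → Ω → Bool)
    (X : ℕ → Ω → ℤ → Bool) (hm : ∀ n i, Measurable (ξ n i))
    (hind : iIndepFun (fun p : ℕ × ℤ => ξ p.1 p.2) P)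
    (hξ : ∀ n i, P {ω | ξ n i ω = true} = ENNReal.ofReal δ)
    (hX : ∀ n ω j, X (n+1) ω j = (D (X n ω) j || ξ n j ω)) (i : ℤ) :
    Tendsto (fun n => P {ω | X n ω i = false}) atTop (𝓝 0) := by
  have hξ' : ∀ n i, P {ω | ξ n i ω = false} = ENNReal.ofReal (1 - δ) := by
    intro n i
    have e : {ω | ξ n i ω = false} = {ω | ξ n i ω = true}ᶜ := by
      ext ω; simp
    have hms : MeasurableSet {ω | ξ n i ω = true} := hm n i (measurableSet_singleton true)
    rw [e, prob_compl_eq_one_sub hms, hξ,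
      ENNReal.ofReal_sub _ h0.le, ENNReal.ofReal_one]
  obtain ⟨N, hN, hsum⟩ := exists_N h0 h1
  set A : ℕ → Set Ω := fun k => AB ξ i N k ∩ AG ξ i N k with hA
  have hle : ∀ p, sig ξ p ≤ mΩ := fun p => (hm p.1 p.2).comap_le
  have hiind : iIndep (fun p => sig ξ p) P := hind
  -- measurability
  have hAB : ∀ k, MeasurableSet (AB ξ i N k) := fun k =>
    (iSup₂_le (fun p _ => hle p)) _ (AB_meas ξ i N k Set.univ (fun _ => trivial))
  have hAG : ∀ k, MeasurableSet (AG ξ i N k) := fun k =>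
    (iSup₂_le (fun p _ => hle p)) _ (AG_meas ξ i N k Set.univ (fun _ _ _ => trivial))
  have hAm : ∀ k, MeasurableSet (A k) := fun k => (hAB k).inter (hAG k)
  -- lower bound for the probability
  set c : ℝ≥0∞ := ENNReal.ofReal δ ^ (Finset.Icc (i - N) (i + N)).card * (1 / 2) with hc
  have hcpos : 0 < c := by
    rw [hc]
    apply ENNReal.mul_pos
    · apply pow_ne_zero
      rw [Ne, ENNReal.ofReal_eq_zero]
      linarith
    · simp
  have hlow : ∀ k, c ≤ P (A k) := by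
    intro k
    have hdis : Disjoint {p : ℕ × ℤ | p.1 = k} {p : ℕ × ℤ | k + 1 ≤ p.1} := by
      rw [Set.disjoint_left]
      intro p hp hp'
      simp only [Set.mem_ofPred_eq] at hp hp'
      omega
    have hin := indep_iSup_of_disjoint hle hiind hdis
    have h3 := (Indep_iff _ _ _).1 hin (AB ξ i N k) (AG ξ i N k)
      (AB_meas ξ i N k _ (fun j => rfl)) (AG_meas ξ i N k _ (fun n j hn => hn))
    show c ≤ P (AB ξ i N k ∩ AG ξ i N k)
    rw [h3, AB_prob hind hξ, hc]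
    gcongr
    have h4 := (AG_compl hind hξ' i N k).trans hsum
    have h5 : P (AG ξ i N k) = 1 - P (AG ξ i N k)ᶜ := by
      rw [prob_compl_eq_one_sub (hAG k), ENNReal.sub_sub_cancel (by simp) prob_le_one]
    rw [h5]
    calc (1 / 2 : ℝ≥0∞) = 1 - 1 / 2 := by simp
      _ ≤ 1 - P (AG ξ i N k)ᶜ := tsub_le_tsub_left h4 1
  -- the tail event
  set U : ℕ → Set Ω := fun n => ⋃ k, ⋃ (_ : n ≤ k), A k with hU
  have hUm : ∀ n, MeasurableSet (U n) := fun n =>
    MeasurableSet.iUnion fun k => MeasurableSet.iUnion fun _ => hAm k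
  have hUanti : Antitone U := by
    intro m n hmn ω hω
    simp only [hU, Set.mem_iUnion] at hω ⊢
    obtain ⟨k, hk, h⟩ := hω
    exact ⟨k, hmn.trans hk, h⟩
  set E : Set Ω := ⋂ n, U n with hE
  have hElow : c ≤ P E := by
    have ht := tendsto_measure_iInter_atTop (μ := P) (fun n => (hUm n).nullMeasurableSet) hUanti
      ⟨0, measure_ne_top _ _⟩
    refine ge_of_tendsto ht (Eventually.of_forall fun n => ?_)
    refine (hlow n).trans (measure_mono ?_)
    intro ω hω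
    simp only [hU, Set.mem_iUnion]
    exact ⟨n, le_rfl, hω⟩
  have hEtail : MeasurableSet[limsup (fun p => sig ξ p) (comap Prod.fst (atTop : Filter ℕ))] E := by
    rw [limsup_eq_iInf_iSup]
    rw [MeasurableSpace.measurableSet_iInf]
    intro s
    rw [MeasurableSpace.measurableSet_iInf]
    intro hs
    rw [mem_comap] at hs
    obtain ⟨t, ht, hts⟩ := hs
    rw [mem_atTop_sets] at ht
    obtain ⟨n0, hn0⟩ := ht
    have hEeq : E = ⋂ n, U (n + n0) := by
      apply le_antisymm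
      · exact Set.subset_iInter fun n => Set.iInter_subset _ _
      · refine Set.subset_iInter fun n => ?_
        exact (Set.iInter_subset _ n).trans (hUanti (by omega))
    rw [hEeq]
    refine MeasurableSet.iInter fun n => MeasurableSet.iUnion fun k => MeasurableSet.iUnion fun hk =>
      MeasurableSet.inter ?_ ?_
    · exact AB_meas ξ i N k s (fun j => hts (hn0 k (by omega)))
    · exact AG_meas ξ i N k s (fun m j hm => hts (hn0 m (by omega)))
  have h01 := measure_zero_or_one_of_measurableSet_limsup (μ := P) (f := comap Prod.fst (atTop : Filter ℕ))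
    (s := fun p => sig ξ p) (p := fun S : Set (ℕ × ℤ) => ∃ n : ℕ, ∀ x ∈ S, x.1 < n)
    (ns := fun n : ℕ => {x : ℕ × ℤ | x.1 < n}) hle hiind
    (by
      rintro S ⟨n, hn⟩
      rw [mem_comap]
      refine ⟨Set.Ici n, mem_atTop n, ?_⟩
      intro x hx hxS
      have := hn x hxS
      simp only [Set.mem_preimage, Set.mem_Ici] at hx
      omega)
    (by
      intro a b
      exact ⟨max a b, fun x hx => lt_of_lt_of_le (show x.1 < a from hx) (le_max_left a b),
        fun x hx => lt_of_lt_of_le (show x.1 < b from hx) (le_max_right a b)⟩)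
    (fun n => ⟨n, fun x hx => hx⟩)
    (fun x => ⟨x.1 + 1, Nat.lt_succ_self _⟩) hEtail
  have hE1 : P E = 1 := by
    rcases h01 with h | h
    · rw [h] at hElow
      exact absurd hElow (not_le.2 hcpos)
    · exact h
  -- conclusion
  have hU0 : P (U 0) = 1 := by
    apply le_antisymm prob_le_one
    rw [← hE1]
    exact measure_mono (Set.iInter_subset _ 0)
  set V : ℕ → Set Ω := fun n => (⋃ k, ⋃ (_ : k + 1 ≤ n), A k)ᶜ with hV
  have hVm : ∀ n, MeasurableSet (V n) := fun n =>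
    (MeasurableSet.iUnion fun k => MeasurableSet.iUnion fun _ => hAm k).compl
  have hVanti : Antitone V := by
    intro m n hmn
    apply Set.compl_subset_compl.2
    intro ω hω
    simp only [Set.mem_iUnion] at hω ⊢
    obtain ⟨k, hk, h⟩ := hω
    exact ⟨k, hk.trans hmn, h⟩
  have hV0 : P (⋂ n, V n) = 0 := by
    have : (⋂ n, V n) ⊆ (U 0)ᶜ := by
      intro ω hω hω'
      simp only [hU, Set.mem_iUnion] at hω'
      obtain ⟨k, _, hk⟩ := hω'
      have := Set.mem_iInter.1 hω (k + 1)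
      apply this
      simp only [Set.mem_iUnion]
      exact ⟨k, le_rfl, hk⟩
    apply measure_mono_null this
    rw [prob_compl_eq_one_sub (hUm 0), hU0, tsub_self]
  have hlim := tendsto_measure_iInter_atTop (μ := P) (fun n => (hVm n).nullMeasurableSet) hVanti
      ⟨0, measure_ne_top _ _⟩
  rw [hV0] at hlim
  refine tendsto_of_tendsto_of_tendsto_of_le_of_le tendsto_const_nhds hlim (fun _ => bot_le) ?_
  intro n
  apply measure_mono
  intro ω hω hω'
  simp only [Set.mem_iUnion] at hω'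
  obtain ⟨k, hk, hAk⟩ := hω'
  have h6 := good_event hX hN hAk.1 hAk.2 n hk
  simp only [Set.mem_ofPred_eq] at hω
  rw [hω] at h6
  cases h6

/-- Main theorem, noise toward minus. -/
theorem main_minus (δ : ℝ) (h0 : 0 < δ) (h1 : δ ≤ 1) (ξ : ℕ → ℤ → Ω → Bool)
    (X : ℕ → Ω → ℤ → Bool) (hm : ∀ n i, Measurable (ξ n i))
    (hind : iIndepFun (fun p : ℕ × ℤ => ξ p.1 p.2) P)
    (hξ : ∀ n i, P {ω | ξ n i ω = false} = ENNReal.ofReal δ)
    (hX : ∀ n ω j, X (n+1) ω j = (D (X n ω) j && ξ n j ω)) (i : ℤ) :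
    Tendsto (fun n => P {ω | X n ω i = true}) atTop (𝓝 0) := by
  have key := main_plus (P := P) δ h0 h1 (fun n j ω => !ξ n (-j) ω) (fun n ω j => !X n ω (-j))
    (fun n j => (measurable_of_countable (fun b : Bool => !b)).comp (hm n (-j)))
    (by
      have e1 : iIndepFun (fun p : ℕ × ℤ => ξ p.1 (-p.2)) P :=
        hind.precomp (g := fun p : ℕ × ℤ => (p.1, -p.2)) (fun a b h => by
          simp only [Prod.mk.injEq, neg_inj] at h
          exact Prod.ext h.1 h.2)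
      exact e1.comp (fun _ b => !b) (fun _ => measurable_of_countable _))
    (by
      intro n j
      rw [← hξ n (-j)]
      congr 1
      ext ω
      simp)
    (by
      intro n ω j
      show (!X (n+1) ω (-j)) = (D (fun j => !X n ω (-j)) j || !ξ n (-j) ω)
      rw [hX]
      simp only [D]
      rw [show -(j + 1) = -j - 1 by ring, show -(j + 3) = -j - 3 by ring,
        show -(j - 1) = -j + 1 by ring, show -(j - 3) = -j + 3 by ring]
      cases X n ω (-j) <;> cases X n ω (-j - 1) <;> cases X n ω (-j - 3) <;>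
        cases X n ω (-j + 1) <;> cases X n ω (-j + 3) <;> cases ξ n (-j) ω <;> rfl)
    (-i)
  refine key.congr fun n => ?_
  congr 1
  ext ω
  simp

end Pool.Agent.H996R2.Soldiers
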